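import Pool.Agent.Lib.MP_d7cc8a_lc.Emb

/-! Reflection for monadic second-order formulas from an elementary embedding. -/

namespace SOCat

open Order FirstOrder Language

universe u

variable {C : Set ZFSet.{u}} {o : Ordinal.{u}} {j : C ↪ₑ[memLang] C} {c : ℕ → C}

theorem FD.exFam {α β : Type} [Finite β] {Q : (α → C) → (β → C) → Prop}
    (h : FD (fun v : α ⊕ β → C => Q (fun a => v (Sum.inl a)) (fun a => v (Sum.inr a)))) :
    FD (fun v => ∃ u, Q v u) := by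
  obtain ⟨φ, hφ⟩ := h
  refine ⟨φ.iExs β, fun v => ?_⟩
  rw [Formula.realize_iExs]
  simp only [hφ]
  exact Iff.rfl

theorem exists_rank_eq {x : ZFSet.{u}} (hx : x.IsTransitive) {ξ : Ordinal.{u}}
    (hξ : ξ < x.rank) : ∃ t ∈ x, t.rank = ξ := by
  obtain ⟨t0, ht0, ht0'⟩ := ZFSet.lt_rank_iff.1 hξ
  obtain ⟨t, ⟨ht1, ht2⟩, hmin⟩ := WellFounded.has_min (InvImage.wf (fun x : ZFSet.{u} => x.rank)
      (wellFounded_lt (α := Ordinal.{u}))) {t | t ∈ x ∧ ξ ≤ t.rank} ⟨t0, ht0, ht0'⟩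
  refine ⟨t, ht1, le_antisymm ?_ ht2⟩
  by_contra hlt
  obtain ⟨s, hs, hs'⟩ := ZFSet.lt_rank_iff.1 (not_le.1 hlt)
  exact hmin s ⟨hx.subset_of_mem ht1 hs, hs'⟩ (ZFSet.rank_lt_of_mem hs)

/-- A subset of `V_o` as a member of `C`. -/
theorem Big.exists_set (h : Big C o) (S : Set (HV o)) :
    ∃ w : C, ∀ x : HV o, x.1 ∈ w.1 ↔ x ∈ S := by
  have hs : ZFSet.sep (fun t => ∃ h, (⟨t, h⟩ : HV o) ∈ S) (ZFSet.vonNeumann o) ∈ C :=
    h.sub _ ZFSet.sep_subset
  refine ⟨⟨_, hs⟩, fun x => ?_⟩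
  simp only [ZFSet.mem_sep]
  exact ⟨fun ⟨_, _, h⟩ => h, fun h => ⟨x.2, x.2, h⟩⟩

theorem isSuccLimit_of {μ : Ordinal.{u}} (h0 : 0 < μ) (h : ∀ ξ < μ, ∃ ξ' < μ, ξ < ξ') :
    IsSuccLimit μ := by
  refine ⟨?_, ?_⟩
  · intro hmin
    exact absurd (hmin h0.le) (not_le.2 h0)
  · refine isSuccPrelimit_of_succ_lt fun ξ hξ => ?_
    obtain ⟨ξ', h1, h2⟩ := h ξ hξ
    exact (Order.succ_le_of_lt h2).trans_lt h1

theorem DV_eq (μ : Ordinal.{u}) (z : C) (hz : z.1 = ZFSet.vonNeumann μ) :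
    {x : HV o | x.1 ∈ z.1} = DV μ := by
  ext x
  change x.1 ∈ z.1 ↔ x.1.rank < μ
  rw [hz, ZFSet.mem_vonNeumann]

theorem DV_self : (DV o : Set (HV o)) = Set.univ := by
  ext x
  exact ⟨fun _ => trivial, fun _ => x.rank_lt⟩

/-- The conclusion of the reflection theorem. -/
def Refl (o : Ordinal.{u}) {ι : Type} (φ : MSO Empty ι) : Prop :=
  ∃ μ < o, IsSuccLimit μ ∧ ∃ W' : ι → Set (HV o),
    φ.Realize EV (DV μ) (fun x => x.elim) W'

/-- The statement reflected in the second case. -/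
def PB {ι : Type} (φ : MSO Empty ι) (d : C) : Prop :=
  ∃ a z : C, (∀ t : C, t.1 ∈ a.1 → t.1 ∈ d.1) ∧ (∃ t : C, t.1 ∈ a.1) ∧
    (∀ t : C, t.1 ∈ a.1 → ∃ s : C, s.1 ∈ a.1 ∧ ¬ RK s t) ∧ VC z a ∧
    ∃ w : ι → C, TT z φ (fun x => x.elim) w

theorem Big.fd_PB (h : Big C o) {ι : Type} [Finite ι] (φ : MSO Empty ι) :
    FD (fun v : Unit → C => PB φ (v ())) := by
  refine FD.ex (Q := fun v a => ∃ z : C, (∀ t : C, t.1 ∈ a.1 → t.1 ∈ (v ()).1) ∧
    (∃ t : C, t.1 ∈ a.1) ∧ (∀ t : C, t.1 ∈ a.1 → ∃ s : C, s.1 ∈ a.1 ∧ ¬ RK s t) ∧ VC z a ∧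
    ∃ w : ι → C, TT z φ (fun x => x.elim) w) ?_
  refine FD.ex (Q := fun (v : Option Unit → C) z =>
    (∀ t : C, t.1 ∈ (v none).1 → t.1 ∈ (v (some ())).1) ∧
    (∃ t : C, t.1 ∈ (v none).1) ∧
    (∀ t : C, t.1 ∈ (v none).1 → ∃ s : C, s.1 ∈ (v none).1 ∧ ¬ RK s t) ∧ VC z (v none) ∧
    ∃ w : ι → C, TT z φ (fun x => x.elim) w) ?_
  refine FD.and ?_ (FD.and ?_ (FD.and ?_ (FD.and ?_ ?_)))
  · refine FD.all (Q := fun (v : Option (Option Unit) → C) t => t.1 ∈ (v (some none)).1 →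
      t.1 ∈ (v (some (some ()))).1) ?_
    exact (FD.mem none (some (some none))).imp (FD.mem none (some (some (some ()))))
  · exact FD.ex (Q := fun (v : Option (Option Unit) → C) t => t.1 ∈ (v (some none)).1)
      (FD.mem none (some (some none)))
  · refine FD.all (Q := fun (v : Option (Option Unit) → C) t => t.1 ∈ (v (some none)).1 →
      ∃ s : C, s.1 ∈ (v (some none)).1 ∧ ¬ RK s t) ?_
    refine (FD.mem none (some (some none))).imp (FD.ex
      (Q := fun (v : Option (Option (Option Unit)) → C) s => s.1 ∈ (v (some (some none))).1 ∧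
      ¬ RK s (v none)) ?_)
    exact (FD.mem none (some (some (some none)))).and (h.fd_RK none (some none)).not
  · exact h.fd_VC none (some none)
  · refine FD.exFam (Q := fun (v : Option (Option Unit) → C) w =>
      TT (v none) φ (fun x => x.elim) w) ?_
    refine (fd_TT φ (Sum.inl none) (fun x => x.elim) (fun X => Sum.inr X)).congr fun v => ?_
    have : (fun a : Empty => v (a.elim)) = (fun x : Empty => (x.elim : C)) :=
      funext fun a => a.elim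
    rw [this]

theorem Crt.caseB (h : Crt C o j c) {n : ℕ} (hn : (c n).1.rank < o)
    (hn' : o ≤ (c (n + 1)).1.rank) {ι : Type} [Finite ι] (φ : MSO Empty ι)
    (W : ι → Set (HV o)) (hφ : φ.Realize EV (DV o) (fun x => x.elim) W) : Refl o φ := by
  have hV : ZFSet.vonNeumann o ∈ C := h.big.sub _ fun _ h => h
  have hB : PB φ (c (n + 1)) := by
    have hs : ZFSet.sep (fun t => t.rank < o) (c (n + 1)).1 ∈ C := h.big.mem_of_rank (by
      rw [ZFSet.rank_le_iff]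
      intro t ht
      exact (ZFSet.mem_sep.1 ht).2)
    obtain ⟨a, ha⟩ : ∃ a : C, ∀ t : ZFSet.{u}, t ∈ a.1 ↔ (t ∈ (c (n + 1)).1 ∧ t.rank < o) :=
      ⟨⟨_, hs⟩, fun t => by simp only [ZFSet.mem_sep]⟩
    have hex : ∀ ξ < o, ∃ t : C, t.1 ∈ a.1 ∧ t.1.rank = ξ := by
      intro ξ hξ
      obtain ⟨t, ht, ht'⟩ := exists_rank_eq (h.trans (n + 1)) (hξ.trans_le hn')
      exact ⟨⟨t, h.big.tr _ (c (n + 1)).2 _ ht⟩, (ha _).2 ⟨ht, ht'.trans_lt hξ⟩, ht'⟩
    have har : a.1.rank = o := by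
      refine le_antisymm ?_ (le_of_forall_lt fun ξ hξ => ?_)
      · rw [ZFSet.rank_le_iff]
        intro t ht
        exact ((ha t).1 ht).2
      · obtain ⟨t, ht, ht'⟩ := hex ξ hξ
        rw [← ht']
        exact ZFSet.rank_lt_of_mem ht
    choose w hw using fun X => h.big.exists_set (W X)
    refine ⟨a, ⟨_, hV⟩, fun t ht => ((ha _).1 ht).1, ?_, ?_, ?_, w, ?_⟩
    · obtain ⟨t, ht, _⟩ := hex 0 h.big.lim.bot_lt
      exact ⟨t, ht⟩
    · intro t ht
      obtain ⟨s, hs, hs'⟩ := hex _ (h.big.lim.succ_lt ((ha _).1 ht).2)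
      refine ⟨s, hs, fun hRK => ?_⟩
      have := h.big.rank_le_of_RK hRK
      rw [hs'] at this
      exact absurd this (not_le.2 (Order.lt_succ _))
    · rw [h.big.VC_iff har.le, har]
    · have h1 := (h.big.agree ⟨_, hV⟩ (fun _ h => h) φ (fun x => x.elim) w W
        (fun x => x.elim) (fun X x _ => hw X x)).2 (by rw [DV_eq o ⟨_, hV⟩ rfl]; exact hφ)
      have e1 : (fun a : Empty => h.big.inc ((fun x : Empty => (x.elim : HV o)) a)) =
        (fun x : Empty => (x.elim : C)) := funext fun a => a.elim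
      rwa [e1] at h1
  rw [h.succ n] at hB
  have hB' := ((h.big.fd_PB φ).pres j (fun _ => c n)).2 hB
  obtain ⟨a, z, h1, ⟨t0, ht0⟩, h3, h4, w, hw⟩ := hB'
  have har : a.1.rank ≤ (c n).1.rank := by
    rw [ZFSet.rank_le_iff]
    intro t ht
    exact ZFSet.rank_lt_of_mem (h1 ⟨t, h.big.tr _ a.2 _ ht⟩ ht)
  have haro : a.1.rank < o := har.trans_lt hn
  rw [h.big.VC_iff haro.le] at h4
  have hlim : IsSuccLimit a.1.rank := by
    refine isSuccLimit_of (zero_le.trans_lt (ZFSet.rank_lt_of_mem ht0)) fun ξ hξ => ?_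
    obtain ⟨t, ht, ht'⟩ := ZFSet.lt_rank_iff.1 hξ
    obtain ⟨s, hs, hs'⟩ := h3 ⟨t, h.big.tr _ a.2 _ ht⟩ ht
    refine ⟨s.1.rank, ZFSet.rank_lt_of_mem hs, ht'.trans_lt ?_⟩
    by_contra hno
    exact hs' (h.big.RK_of_rank_le ((ZFSet.rank_lt_of_mem hs).trans haro)
      ((ZFSet.rank_lt_of_mem ht).trans haro) (not_lt.1 hno))
  refine ⟨a.1.rank, haro, hlim, fun X => {x | x.1 ∈ (w X).1}, ?_⟩
  have h5 := (h.big.agree z (by rw [h4]; exact ZFSet.vonNeumann_subset_of_le haro.le) φ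
    (fun x => x.elim) w (fun X => {x | x.1 ∈ (w X).1}) (fun x => x.elim)
    (fun X x _ => Iff.rfl)).1 (by
      have e1 : (fun a : Empty => h.big.inc ((fun x : Empty => (x.elim : HV o)) a)) =
        (fun x : Empty => (x.elim : C)) := funext fun a => a.elim
      rw [e1]
      exact hw)
  rwa [DV_eq _ z h4] at h5

theorem Crt.exists_between (h : Crt C o j c) (hall : ∀ n, (c n).1.rank < o) {θ : Ordinal.{u}}
    (hsup : ∀ ξ < θ, ∃ n, ξ ≤ (c n).1.rank) {ξ : Ordinal.{u}} (hξ : ξ < θ)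
    (h0 : (c 0).1.rank ≤ ξ) : ∃ n, (c n).1.rank ≤ ξ ∧ ξ < (c (n + 1)).1.rank := by
  classical
  have hex : ∃ n, ξ < (c n).1.rank := by
    obtain ⟨n, hn⟩ := hsup ξ hξ
    exact ⟨n + 1, hn.trans_lt (h.lt (hall n))⟩
  obtain ⟨m, hm⟩ : ∃ m, Nat.find hex = m + 1 := by
    refine Nat.exists_eq_succ_of_ne_zero fun h1 => ?_
    have h2 := Nat.find_spec hex
    rw [h1] at h2
    exact absurd h2 (not_lt.2 h0)
  refine ⟨m, not_lt.1 (Nat.find_min hex (m := m) (by omega)), ?_⟩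
  have h2 := Nat.find_spec hex
  rwa [hm] at h2

theorem Crt.mono (h : Crt C o j c) (hall : ∀ n, (c n).1.rank < o) {m n : ℕ} (hmn : m ≤ n) :
    (c m).1.rank ≤ (c n).1.rank := by
  induction hmn with
  | refl => exact le_rfl
  | step _ ih => exact ih.trans (h.lt (hall _)).le

/-- Stages approximated by the critical sequence are fixed. -/
theorem Crt.fix_sup (h : Crt C o j c) (hall : ∀ n, (c n).1.rank < o) {θ : Ordinal.{u}}
    (hθ : θ ≤ o) (hlt : ∀ n, (c n).1.rank < θ) (hsup : ∀ ξ < θ, ∃ n, ξ ≤ (c n).1.rank)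
    (z : C) (hz : z.1 = ZFSet.vonNeumann θ) : j z = z := by
  refine h.big.cofV j hθ c (fun n => h.lt (hall n)) (fun n => ?_) hsup z hz
  rw [← h.succ]
  exact hlt _

theorem Crt.caseA (h : Crt C o j c) (hall : ∀ n, (c n).1.rank < o)
    (hsup : ∀ ξ < o, ∃ n, ξ ≤ (c n).1.rank) {ι : Type} [Finite ι] (φ : MSO Empty ι)
    (W : ι → Set (HV o)) (hφ : φ.Realize EV (DV o) (fun x => x.elim) W) : Refl o φ := by
  have hV : ZFSet.vonNeumann o ∈ C := h.big.sub _ fun _ h => h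
  have hfixV : j ⟨_, hV⟩ = ⟨_, hV⟩ := h.fix_sup hall le_rfl hall hsup ⟨_, hV⟩ rfl
  have hjV : ∀ x : HV o, (j (h.big.inc x)).1 ∈ ZFSet.vonNeumann o := by
    intro x
    have h1 := (emb_mem j (h.big.inc x) ⟨_, hV⟩).1 x.2
    rwa [hfixV] at h1
  let k : HV o → HV o := fun x => ⟨(j (h.big.inc x)).1, hjV x⟩
  have hk : ∀ x, h.big.inc (k x) = j (h.big.inc x) := fun x => rfl
  have hplus : ∀ (S : Set (HV o)) (w : C), (∀ x : HV o, x.1 ∈ w.1 ↔ x ∈ S) →
      w.1 ⊆ ZFSet.vonNeumann o →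
      ∀ y : HV o, y.1 ∈ (j w).1 ↔ y ∈ (HV.rs h.big.lim).plus k S := by
    intro S w hw hwV y
    constructor
    · intro hy
      obtain ⟨n, hn⟩ := hsup _ (h.big.lim.succ_lt y.rank_lt)
      have hy1 : y.1.rank < (c n).1.rank := (Order.lt_succ _).trans_le hn
      have hy2 : y.1.rank < (c (n + 1)).1.rank := hy1.trans (h.lt (hall n))
      have hvn : ZFSet.vonNeumann (c n).1.rank ∈ C := h.big.mem_of_rank (by
        rw [ZFSet.rank_vonNeumann]; exact (hall n).le)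
      let zn : HV o := ⟨ZFSet.vonNeumann (c n).1.rank, ZFSet.mem_vonNeumann.2 (by
        rw [ZFSet.rank_vonNeumann]; exact hall n)⟩
      obtain ⟨w', hw'⟩ := HV.exists_comp S zn
      refine ⟨zn, w', hw', ?_⟩
      change y.1 ∈ (j (h.big.inc w')).1
      have hVC := (h.big.emb_VC j ⟨_, hvn⟩ (c n)).1
        ((h.big.VC_iff (z := ⟨_, hvn⟩) (hall n).le).2 rfl)
      rw [← h.succ, h.big.VC_iff (hall (n + 1)).le] at hVC
      refine (emb_inter j (u := h.big.inc w') (w := w) (w' := ⟨_, hvn⟩) ?_ (h.big.inc y)).2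
        ⟨hy, ?_⟩
      · intro t
        constructor
        · intro ht
          have ht1 : t.1 ∈ ZFSet.vonNeumann o := w'.mem_of_mem ht
          obtain ⟨h3, h4⟩ := (hw' ⟨t.1, ht1⟩).1 ht
          exact ⟨(hw ⟨t.1, ht1⟩).2 h4, h3⟩
        · rintro ⟨h3, h4⟩
          have ht1 : t.1 ∈ ZFSet.vonNeumann o := hwV h3
          exact (hw' ⟨t.1, ht1⟩).2 ⟨h4, (hw ⟨t.1, ht1⟩).1 h3⟩
      · rw [hVC, ZFSet.mem_vonNeumann]
        exact hy2
    · rintro ⟨z, w', h1, h2⟩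
      refine emb_sub j (x := h.big.inc w') (y := w) ?_ (h.big.inc y) h2
      intro t ht
      have ht1 : t.1 ∈ ZFSet.vonNeumann o := w'.mem_of_mem ht
      exact (hw ⟨t.1, ht1⟩).2 ((h1 ⟨t.1, ht1⟩).1 ht).2
  have hsets : ∀ S : Set (HV o), ∃ w : C, (∀ x : HV o, x.1 ∈ w.1 ↔ x ∈ S) ∧
      w.1 ⊆ ZFSet.vonNeumann o := by
    intro S
    have hs : ZFSet.sep (fun t => ∃ h, (⟨t, h⟩ : HV o) ∈ S) (ZFSet.vonNeumann o) ∈ C :=
      h.big.sub _ ZFSet.sep_subset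
    refine ⟨⟨_, hs⟩, fun x => ?_, fun t ht => ?_⟩
    · simp only [ZFSet.mem_sep]
      exact ⟨fun ⟨_, _, h⟩ => h, fun h => ⟨x.2, x.2, h⟩⟩
    · simp only [ZFSet.mem_sep] at ht
      exact ht.1
  have huniv : {x : HV o | x.1 ∈ (⟨_, hV⟩ : C).1} = Set.univ := by
    rw [DV_eq o ⟨_, hV⟩ rfl, DV_self]
  have hpres : ∀ {α ι : Type} [Finite α] [Finite ι]
      (Q : (α → HV o) → (ι → Set (HV o)) → Prop), MD (HV.rs h.big.lim).ε Q →
      (HV.rs h.big.lim).Pres k Q := by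
    intro α ι _ _ Q hQ v W
    obtain ⟨φ, hφ⟩ := hQ
    rw [← hφ, ← hφ]
    choose w hw1 hw2 using fun X => hsets (W X)
    have a1 := h.big.agree ⟨_, hV⟩ (fun _ h => h) φ v w W (fun a => (v a).2)
      (fun X x _ => hw1 X x)
    have a2 := h.big.agree ⟨_, hV⟩ (fun _ h => h) φ (fun a => k (v a)) (fun X => j (w X))
      (fun X => (HV.rs h.big.lim).plus k (W X)) (fun a => (k (v a)).2)
      (fun X x _ => hplus (W X) (w X) (hw1 X) (hw2 X) x)
    have a3 := (fd_TT (C := C) φ (none : Option (α ⊕ ι)) (fun a => some (Sum.inl a))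
      (fun X => some (Sum.inr X))).pres j
      (cons (Sum.elim (fun a => h.big.inc (v a)) w) ⟨_, hV⟩)
    simp only [cons_none, cons_some, Sum.elim_inl, Sum.elim_inr] at a3
    rw [hfixV] at a3
    rw [huniv] at a1 a2
    exact a1.symm.trans (a3.trans a2)
  let cs : HV o := ⟨(c 0).1, ZFSet.mem_vonNeumann.2 (hall 0)⟩
  have hcs : (HV.rs h.big.lim).Crit k cs := by
    constructor
    · intro x hx
      have h1 : (j (h.big.inc x)).1 = (h.big.inc x).1 := congrArg Subtype.val (h.fix (h.big.inc x) hx)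
      exact Subtype.ext h1
    · intro y hy
      obtain ⟨n, hn1, hn2⟩ := h.exists_between hall hsup y.rank_lt hy
      exact hn2.trans_le (h.growth (x := h.big.inc y) y.rank_lt hn1)
  let a0 : HV o := ⟨∅, ZFSet.mem_vonNeumann.2 (by rw [ZFSet.rank_empty]; exact h.big.lim.bot_lt)⟩
  have ha0 : (HV.rs h.big.lim).rk a0 < (HV.rs h.big.lim).rk cs := by
    change (∅ : ZFSet.{u}).rank < (c 0).1.rank
    rw [ZFSet.rank_empty]
    exact Ordinal.omega0_pos.trans_le h.omega_le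
  obtain ⟨c', W', h1, h2, _, h4⟩ := RS.reflect_of_elementary (S := HV.rs h.big.lim) (j := k)
    hpres hcs ha0 φ (fun x => x.elim) (fun x => x.elim) W (by rw [DV_self] at hφ; exact hφ)
  have hdom : (HV.rs h.big.lim).dom c' = DV (⨆ i, (c' i).1.rank) := by
    ext x
    change (∃ i, x.1.rank < (c' i).1.rank) ↔ x.1.rank < ⨆ i, (c' i).1.rank
    rw [Ordinal.lt_iSup_iff]
  rw [hdom] at h4
  refine ⟨⨆ i, (c' i).1.rank, ?_, ?_, W', h4⟩
  · refine lt_of_le_of_lt ?_ (hall 0)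
    exact Ordinal.iSup_le fun i => (h2 i).le
  · refine isSuccLimit_of ?_ ?_
    · rw [Ordinal.lt_iSup_iff]
      exact ⟨1, zero_le.trans_lt (h1 0)⟩
    · intro ξ hξ
      rw [Ordinal.lt_iSup_iff] at hξ
      obtain ⟨i, hi⟩ := hξ
      refine ⟨(c' i).1.rank, ?_, hi⟩
      rw [Ordinal.lt_iSup_iff]
      exact ⟨i + 1, h1 i⟩

end SOCat
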