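import Mathlib.SetTheory.Cardinal.Arithmetic
import Mathlib.SetTheory.Ordinal.Basic

/-! A combinatorial lemma in the style of Erdős and Hajnal. -/

namespace SOCat

open Cardinal Ordinal

universe v

theorem exists_injective_choice {P T : Type v} (S : P → Set T) (h : ∀ p, #P ≤ #(S p)) :
    ∃ F : P → T, Function.Injective F ∧ ∀ p, F p ∈ S p := by
  classical
  obtain ⟨r, wo, hr⟩ := exists_ord_eq P
  have hcard : ∀ p, #{q // r q p} < #P := fun p => by
    have := card_typein_lt (r := r) p hr
    rwa [card_typein] at this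
  have hex : ∀ (p : P) (G : ∀ q, r q p → T), ∃ t ∈ S p, ∀ q (hq : r q p), t ≠ G q hq := by
    intro p G
    by_contra hno
    push Not at hno
    have h1 : #(S p) ≤ #{q // r q p} := by
      choose f hf1 hf2 using hno
      refine mk_le_of_injective (f := fun t : S p => (⟨f t.1 t.2, hf1 t.1 t.2⟩ : {q // r q p})) ?_
      intro t t' htt
      have h2 := congrArg Subtype.val htt
      simp only at h2
      refine Subtype.ext ?_
      rw [hf2 t.1 t.2, hf2 t'.1 t'.2]
      congr 1
    exact absurd ((h p).trans h1) (not_le.2 (hcard p))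
  let F : P → T := wo.wf.fix fun p G => (hex p G).choose
  have hF : ∀ p, F p = (hex p (fun q _ => F q)).choose := fun p => by
    change wo.wf.fix _ p = _
    rw [WellFounded.fix_eq]
  refine ⟨F, ?_, fun p => ?_⟩
  · have key : ∀ p q, r q p → F p ≠ F q := fun p q hq => by
      rw [hF p]
      exact (hex p (fun q _ => F q)).choose_spec.2 q hq
    intro p q hpq
    rcases trichotomous_of r p q with h1 | h1 | h1
    · exact absurd hpq.symm (key q p h1)
    · exact h1
    · exact absurd hpq (key p q h1)
  · rw [hF p]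
    exact (hex p (fun q _ => F q)).choose_spec.1

/-- A function on sequences taking all values on the sequences of every large set. -/
theorem exists_jonsson {I Z : Type v} (hZ : ℵ₀ ≤ #Z) (hI : ℵ₀ ≤ #I)
    (hc : ∃ f : Set Z → (ℕ → Z), Function.Injective f) :
    ∃ F : {g : Z → Z // Function.Injective g} × Z → (I → Z), Function.Injective F ∧
      ∀ p i, ∃ x, F p i = p.1.1 x := by
  obtain ⟨f, hf⟩ := hc
  have h1 : (2 : Cardinal.{v}) ^ #Z ≤ #Z ^ #I := by
    have h2 := mk_le_of_injective hf
    rw [mk_set] at h2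
    refine h2.trans ?_
    have e : #(ℕ → Z) = #Z ^ ℵ₀ := by
      rw [mk_arrow, Cardinal.lift_uzero, mk_nat, Cardinal.lift_aleph0]
    rw [e]
    exact power_le_power_left (by
      intro h0
      rw [h0] at hZ
      exact absurd hZ (not_le.2 aleph0_pos)) hI
  have h2 : #({g : Z → Z // Function.Injective g} × Z) ≤ #Z ^ #I := by
    refine le_trans ?_ h1
    rw [mk_prod, Cardinal.lift_id, Cardinal.lift_id]
    have h3 : #{g : Z → Z // Function.Injective g} ≤ 2 ^ #Z := by
      refine (mk_subtype_le _).trans ?_
      rw [← power_def, power_self_eq hZ]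
    have h4 : #Z ≤ 2 ^ #Z := (cantor _).le
    calc #{g : Z → Z // Function.Injective g} * #Z ≤ 2 ^ #Z * 2 ^ #Z := mul_le_mul' h3 h4
      _ = 2 ^ #Z := mul_eq_self (hZ.trans h4)
  obtain ⟨F, hF1, hF2⟩ := exists_injective_choice
    (fun p : {g : Z → Z // Function.Injective g} × Z => {s : I → Z | ∀ i, ∃ x, s i = p.1.1 x})
    (fun p => by
      refine h2.trans ?_
      rw [power_def]
      refine mk_le_of_injective (f := fun s : I → Z =>
        (⟨fun i => p.1.1 (s i), fun i => ⟨s i, rfl⟩⟩ :
          {s : I → Z | ∀ i, ∃ x, s i = p.1.1 x})) ?_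
      intro s s' hss
      have h3 := congrArg Subtype.val hss
      funext i
      exact p.1.2 (congrFun h3 i))
  exact ⟨F, hF1, hF2⟩

end SOCat
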