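import Mathlib.Logic.Function.Basic

/-! Assignments on extended sets of variables. -/

namespace SOCat

universe v

/-- Extension of an assignment. -/
def cons {α : Type} {β : Type v} (v : α → β) (x : β) : Option α → β
  | none => x
  | some a => v a

@[simp] theorem cons_none {α : Type} {β : Type v} (v : α → β) (x : β) : cons v x none = x := rfl
@[simp] theorem cons_some {α : Type} {β : Type v} (v : α → β) (x : β) (a : α) :
    cons v x (some a) = v a := rfl

theorem cons_eta {α : Type} {β : Type v} (v : Option α → β) :
    cons (fun a => v (some a)) (v none) = v := by
  funext o; cases o <;> rfl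

theorem comp_cons {α : Type} {β γ : Type v} (f : β → γ) (v : α → β) (x : β) :
    f ∘ cons v x = cons (f ∘ v) (f x) := by
  funext o; cases o <;> rfl

end SOCat
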