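import Mathlib.ModelTheory.ElementaryMaps
import Mathlib.ModelTheory.Definability
import Mathlib.SetTheory.ZFC.VonNeumann
import Mathlib.SetTheory.ZFC.Ordinal
import Mathlib.SetTheory.Ordinal.Arithmetic
import Pool.Agent.Lib.MP_d7cc8a_lc.Cons

/-!
Second-order logic with full semantics, second-order theories, the relativised
constructible hierarchy, and `I_0`-cardinals.
-/

namespace SOCat

open FirstOrder Cardinal

universe u

/-! ### Second-order logic -/

/-- The context of relation variables `ι` (where `ι m` is the type of the `m`-ary relation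
variables) extended by one new `k`-ary relation variable. -/
inductive RExt (ι : ℕ → Type) (k : ℕ) : ℕ → Type
  | new : RExt ι k k
  | old {m : ℕ} (X : ι m) : RExt ι k m

/-- Second-order formulas of the vocabulary `L`, whose free element variables are indexed by
`α` and whose free `m`-ary relation variables are indexed by `ι m`. -/
inductive SOForm (L : Language.{0, 0}) : Type → (ℕ → Type) → Type 1
  | falsum {α : Type} {ι : ℕ → Type} : SOForm L α ι
  | eq {α : Type} {ι : ℕ → Type} (s t : L.Term α) : SOForm L α ι
  | rel {α : Type} {ι : ℕ → Type} {m : ℕ} (R : L.Relations m) (ts : Fin m → L.Term α) :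
      SOForm L α ι
  | var {α : Type} {ι : ℕ → Type} {m : ℕ} (X : ι m) (ts : Fin m → L.Term α) : SOForm L α ι
  | imp {α : Type} {ι : ℕ → Type} (φ ψ : SOForm L α ι) : SOForm L α ι
  | all {α : Type} {ι : ℕ → Type} (φ : SOForm L (Option α) ι) : SOForm L α ι
  | allRel {α : Type} {ι : ℕ → Type} (k : ℕ) (φ : SOForm L α (RExt ι k)) : SOForm L α ι

/-- Assignments of relations on `M` to the relation variables of a context. -/
abbrev REnv (M : Type u) (ι : ℕ → Type) : Type u := ∀ m, ι m → (Fin m → M) → Prop

/-- Extension of an assignment of relations. -/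
def consRel {M : Type u} {ι : ℕ → Type} {k : ℕ} (V : REnv M ι) (R : (Fin k → M) → Prop) :
    REnv M (RExt ι k)
  | _, .new => R
  | _, .old X => V _ X

/-- Truth of a second-order formula, with full semantics: the relation quantifiers range over
all relations on `M`. -/
def SOForm.Realize {L : Language.{0, 0}} (M : Type u) [L.Structure M] :
    ∀ {α : Type} {ι : ℕ → Type}, SOForm L α ι → (α → M) → REnv M ι → Prop
  | _, _, .falsum, _, _ => False
  | _, _, .eq s t, v, _ => s.realize v = t.realize v
  | _, _, .rel R ts, v, _ => Language.Structure.RelMap R (fun i => (ts i).realize v)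
  | _, _, .var X ts, v, V => V _ X (fun i => (ts i).realize v)
  | _, _, .imp φ ψ, v, V => φ.Realize M v V → ψ.Realize M v V
  | _, _, .all φ, v, V => ∀ x : M, φ.Realize M (cons v x) V
  | _, _, .allRel k φ, v, V => ∀ R : (Fin k → M) → Prop, φ.Realize M v (consRel V R)

/-- Negation. -/
def SOForm.neg {L : Language.{0, 0}} {α : Type} {ι : ℕ → Type} (φ : SOForm L α ι) :
    SOForm L α ι := .imp φ .falsum

/-- Second-order sentences of the vocabulary `L`. -/
abbrev SOSentence (L : Language.{0, 0}) : Type 1 := SOForm L Empty (fun _ => Empty)

/-- Truth of a second-order sentence in a structure. -/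
def Holds {L : Language.{0, 0}} (M : Type u) [L.Structure M] (φ : SOSentence L) : Prop :=
  φ.Realize M (fun x => x.elim) (fun _ X => X.elim)

/-- The structure `M` is a model of the second-order theory `T`. -/
def IsModel {L : Language.{0, 0}} (T : Set (SOSentence L)) (M : Type u) [L.Structure M] : Prop :=
  ∀ φ ∈ T, Holds M φ

/-- The theory `T` is complete: every second-order sentence of the vocabulary is true in all
models of `T`, or its negation is true in all models of `T`. -/
def Complete.{v} {L : Language.{0, 0}} (T : Set (SOSentence L)) : Prop :=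
  ∀ φ : SOSentence L,
    (∀ (M : Type v) [Nonempty M] [L.Structure M], IsModel T M → Holds M φ) ∨
    (∀ (M : Type v) [Nonempty M] [L.Structure M], IsModel T M → Holds M φ.neg)

/-- The theory `T` is categorical: any two models of `T` are isomorphic. -/
def Categorical.{v} {L : Language.{0, 0}} (T : Set (SOSentence L)) : Prop :=
  ∀ (M N : Type v) [Nonempty M] [Nonempty N] [L.Structure M] [L.Structure N],
    IsModel T M → IsModel T N → Nonempty (M ≃[L] N)

/-- The theory `T` is categorical in the cardinality `μ`. -/
def CategoricalIn {L : Language.{0, 0}} (T : Set (SOSentence L)) (μ : Cardinal.{u}) : Prop :=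
  ∀ (M N : Type u) [Nonempty M] [Nonempty N] [L.Structure M] [L.Structure N],
    #M = μ → #N = μ → IsModel T M → IsModel T N → Nonempty (M ≃[L] N)

/-! ### The class `L(A)` and `I_0`-cardinals -/

/-- The relation symbol of the language of set theory. -/
inductive MemRel : ℕ → Type
  | mem : MemRel 2

/-- The first-order language of set theory, with one binary relation symbol. -/
def memLang : Language.{0, 0} := ⟨fun _ => Empty, MemRel⟩

/-- Every class of sets is a structure for the language of set theory, with the membership
relation. -/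
instance memStructure (C : Set ZFSet.{u}) : memLang.Structure C where
  funMap := fun f _ => f.elim
  RelMap := fun R x => match R, x with
    | .mem, x => (x 0 : ZFSet.{u}) ∈ (x 1 : ZFSet.{u})

/-- The set of the subsets of `X` which are first-order definable with parameters
in `(X, ∈)`. -/
noncomputable def defPow (X : ZFSet.{u}) : ZFSet.{u} :=
  ZFSet.sep (fun y => Set.Definable₁ (M := {x | x ∈ X}) Set.univ memLang {a | a.1 ∈ y})
    (ZFSet.powerset X)

/-- The stage `L_α(A)` of the constructible hierarchy over the transitive set `A`:
`L_0(A) = A`, `L_{α+1}(A)` is the set of all definable subsets of `L_α(A)`, and unions are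
taken at limits. -/
noncomputable def relL (A : ZFSet.{u}) (α : Ordinal.{u}) : ZFSet.{u} :=
  Ordinal.limitRecOn α A (fun _ X => defPow X)
    (fun γ _ F => ZFSet.iUnion fun β : Set.Iio γ => F β.1 β.2)

/-- The class `L(A)`, for a transitive set `A`. -/
def classL (A : ZFSet.{u}) : Set ZFSet.{u} := {x | ∃ α, x ∈ relL A α}

/-- The ordinal `κ` is the critical point of the map `j` defined on the class `C`: it is the
least ordinal moved by `j`. -/
def IsCrit {C : Set ZFSet.{u}} (j : C → C) (κ : Ordinal.{u}) : Prop :=
  (∃ h : κ.toZFSet ∈ C, j ⟨κ.toZFSet, h⟩ ≠ ⟨κ.toZFSet, h⟩) ∧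
    ∀ β < κ, ∀ h : β.toZFSet ∈ C, j ⟨β.toZFSet, h⟩ = ⟨β.toZFSet, h⟩

/-- The cardinal `lam` is an `I_0`-cardinal: there is an elementary embedding of
`L(V_{lam+1})` to itself whose critical point is below `lam`. -/
def IsI0 (lam : Cardinal.{u}) : Prop :=
  ∃ j : (classL (ZFSet.vonNeumann (lam.ord + 1))) ↪ₑ[memLang]
      (classL (ZFSet.vonNeumann (lam.ord + 1))),
    ∃ κ < lam.ord, IsCrit (fun x => j x) κ

end SOCat
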