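import Pool.Agent.Lib.MP_d7cc8a_lc.Hier
import Pool.Agent.Lib.MP_d7cc8a_lc.SO

/-! Translation of second-order formulas over sets of ordinals to monadic formulas over
stages of the cumulative hierarchy. -/

namespace SOCat

open Order FirstOrder

universe u w

/-- The set of the elements of rank below `μ`. -/
def DV {o : Ordinal.{u}} (μ : Ordinal.{u}) : Set (HV o) := {x | x.1.rank < μ}

/-- The membership relation. -/
def EV {o : Ordinal.{u}} (x y : HV o) : Prop := x.1 ∈ y.1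

/-- Admissible levels. -/
structure Lv (o μ : Ordinal.{u}) : Prop where
  ho : IsSuccLimit o
  hμ : IsSuccLimit μ
  hle : μ ≤ o

/-- Uniformly definable predicates. -/
def UD {α ι : Type} (Q : ∀ o : Ordinal.{u}, Ordinal.{u} → (α → HV o) → (ι → Set (HV o)) → Prop) :
    Prop :=
  ∃ φ : MSO α ι, ∀ (o μ : Ordinal.{u}) (_ : Lv o μ) (v : α → HV o) (W : ι → Set (HV o)),
    (∀ a, (v a).1.rank < μ) → (φ.Realize EV (DV μ) v W ↔ Q o μ v W)

namespace UD

variable {α β ι κ : Type}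
  {Q Q' : ∀ o : Ordinal.{u}, Ordinal.{u} → (α → HV o) → (ι → Set (HV o)) → Prop}

theorem congr (h : UD Q) (h' : ∀ (o μ : Ordinal.{u}) (_ : Lv o μ) (v : α → HV o)
    (W : ι → Set (HV o)), (∀ a, (v a).1.rank < μ) → (Q o μ v W ↔ Q' o μ v W)) : UD Q' := by
  obtain ⟨φ, hφ⟩ := h
  exact ⟨φ, fun o μ hl v W hv => (hφ o μ hl v W hv).trans (h' o μ hl v W hv)⟩

theorem falsum : UD (fun (_ _ : Ordinal.{u}) (_ : α → HV _) (_ : ι → Set (HV _)) => False) :=
  ⟨.falsum, fun _ _ _ _ _ _ => Iff.rfl⟩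

theorem eq (x y : α) : UD (fun (_ _ : Ordinal.{u}) (v : α → HV _) (_ : ι → Set (HV _)) =>
    v x = v y) :=
  ⟨.eq x y, fun _ _ _ _ _ _ => Iff.rfl⟩

theorem mem (x y : α) : UD (fun (_ _ : Ordinal.{u}) (v : α → HV _) (_ : ι → Set (HV _)) =>
    (v x).1 ∈ (v y).1) :=
  ⟨.mem x y, fun _ _ _ _ _ _ => Iff.rfl⟩

theorem inn (x : α) (X : ι) : UD (fun (_ _ : Ordinal.{u}) (v : α → HV _)
    (W : ι → Set (HV _)) => v x ∈ W X) :=
  ⟨.inn x X, fun _ _ _ _ _ _ => Iff.rfl⟩

theorem imp (h : UD Q) (h' : UD Q') : UD (fun o μ v W => Q o μ v W → Q' o μ v W) := by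
  obtain ⟨φ, hφ⟩ := h
  obtain ⟨φ', hφ'⟩ := h'
  exact ⟨.imp φ φ', fun o μ hl v W hv => imp_congr (hφ o μ hl v W hv) (hφ' o μ hl v W hv)⟩

theorem not (h : UD Q) : UD (fun o μ v W => ¬ Q o μ v W) := h.imp falsum

theorem or (h : UD Q) (h' : UD Q') : UD (fun o μ v W => Q o μ v W ∨ Q' o μ v W) :=
  (h.not.imp h').congr fun o μ _ v W _ => by tauto

theorem and (h : UD Q) (h' : UD Q') : UD (fun o μ v W => Q o μ v W ∧ Q' o μ v W) :=
  ((h.imp h'.not).not).congr fun o μ _ v W _ => by tauto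

theorem iff (h : UD Q) (h' : UD Q') : UD (fun o μ v W => (Q o μ v W ↔ Q' o μ v W)) :=
  ((h.imp h').and (h'.imp h)).congr fun o μ _ v W _ => by tauto

theorem all {Q : ∀ o : Ordinal.{u}, Ordinal.{u} → (α → HV o) → HV o → (ι → Set (HV o)) → Prop}
    (h : UD (fun o μ (v : Option α → HV o) W => Q o μ (fun a => v (some a)) (v none) W)) :
    UD (fun o μ v W => ∀ x : HV o, x.1.rank < μ → Q o μ v x W) := by
  obtain ⟨φ, hφ⟩ := h
  refine ⟨.all φ, fun o μ hl v W hv => ?_⟩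
  refine forall_congr' fun x => forall_congr' fun hx => ?_
  exact hφ o μ hl (cons v x) W (by rintro (_ | a); exacts [hx, hv a])

theorem ex {Q : ∀ o : Ordinal.{u}, Ordinal.{u} → (α → HV o) → HV o → (ι → Set (HV o)) → Prop}
    (h : UD (fun o μ (v : Option α → HV o) W => Q o μ (fun a => v (some a)) (v none) W)) :
    UD (fun o μ v W => ∃ x : HV o, x.1.rank < μ ∧ Q o μ v x W) :=
  ((all (Q := fun o μ v x W => ¬ Q o μ v x W) h.not).not).congr fun o μ _ v W _ => by
    push Not; rfl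

theorem subst (h : UD Q) (f : α → β) (g : ι → κ) :
    UD (fun o μ (v : β → HV o) (W : κ → Set (HV o)) =>
      Q o μ (fun a => v (f a)) (fun X => W (g X))) := by
  obtain ⟨φ, hφ⟩ := h
  exact ⟨φ.map f g, fun o μ hl v W hv => (φ.realize_map _ _ f g v W).trans
    (hφ o μ hl _ _ fun a => hv _)⟩

end UD

/-! Basic notions. -/

theorem exists_lift {o μ : Ordinal.{u}} (x : HV o) (hx : x.1.rank < μ) : ∃ y : HV μ, y.1 = x.1 :=
  ⟨⟨x.1, ZFSet.mem_vonNeumann.2 hx⟩, rfl⟩

theorem UD.pair {α ι : Type} (a b z : α) :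
    UD (fun (_ _ : Ordinal.{u}) (v : α → HV _) (_ : ι → Set (HV _)) =>
      (v z).1 = ZFSet.pair (v a).1 (v b).1) := by
  refine UD.congr (Q := fun o μ (v : α → HV o) (_ : ι → Set (HV o)) =>
    ∀ t : HV o, t.1.rank < μ → (t.1 ∈ (v z).1 ↔
      ((∀ s : HV o, s.1.rank < μ → (s.1 ∈ t.1 ↔ s = v a)) ∨
      (∀ s : HV o, s.1.rank < μ → (s.1 ∈ t.1 ↔ (s = v a ∨ s = v b)))))) ?_ ?_
  · refine UD.all (Q := fun o μ (v : α → HV o) t (_ : ι → Set (HV o)) => (t.1 ∈ (v z).1 ↔
      ((∀ s : HV o, s.1.rank < μ → (s.1 ∈ t.1 ↔ s = v a)) ∨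
      (∀ s : HV o, s.1.rank < μ → (s.1 ∈ t.1 ↔ (s = v a ∨ s = v b)))))) ?_
    refine (UD.mem none (some z)).iff (UD.or ?_ ?_)
    · refine UD.all (Q := fun o μ (v : Option α → HV o) s (_ : ι → Set (HV o)) =>
        (s.1 ∈ (v none).1 ↔ s = v (some a))) ?_
      exact (UD.mem none (some none)).iff (UD.eq none (some (some a)))
    · refine UD.all (Q := fun o μ (v : Option α → HV o) s (_ : ι → Set (HV o)) =>
        (s.1 ∈ (v none).1 ↔ (s = v (some a) ∨ s = v (some b)))) ?_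
      exact (UD.mem none (some none)).iff ((UD.eq none (some (some a))).or
        (UD.eq none (some (some b))))
  · intro o μ hl v W hv
    obtain ⟨z', hz'⟩ := exists_lift (v z) (hv z)
    obtain ⟨a', ha'⟩ := exists_lift (v a) (hv a)
    obtain ⟨b', hb'⟩ := exists_lift (v b) (hv b)
    have key := HV.eq_pr hl.hμ z' a' b'
    rw [Subtype.ext_iff] at key
    change z'.1 = ZFSet.pair a'.1 b'.1 ↔ _ at key
    rw [← hz', ← ha', ← hb', key]
    have hconv : ∀ (P : ZFSet.{u} → Prop), (∀ s : HV o, s.1.rank < μ → P s.1) ↔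
        ∀ s : HV μ, P s.1 := by
      intro P
      constructor
      · intro h s
        exact h ⟨s.1, ZFSet.vonNeumann_subset_of_le hl.hle s.2⟩ s.rank_lt
      · intro h s hs
        exact h ⟨s.1, ZFSet.mem_vonNeumann.2 hs⟩
    simp only [Subtype.ext_iff]
    rw [← ha', ← hb']
    rw [hconv (fun t => t ∈ z'.1 ↔ ((∀ s : HV o, s.1.rank < μ → (s.1 ∈ t ↔ s.1 = a'.1)) ∨
      (∀ s : HV o, s.1.rank < μ → (s.1 ∈ t ↔ (s.1 = a'.1 ∨ s.1 = b'.1)))))]
    refine forall_congr' fun t => ?_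
    rw [hconv (fun s => s ∈ t.1 ↔ s = a'.1), hconv (fun s => s ∈ t.1 ↔ (s = a'.1 ∨ s = b'.1))]

theorem UD.empty {α ι : Type} (z : α) :
    UD (fun (_ _ : Ordinal.{u}) (v : α → HV _) (_ : ι → Set (HV _)) => (v z).1 = ∅) := by
  refine UD.congr (Q := fun o μ (v : α → HV o) (_ : ι → Set (HV o)) =>
    ∀ t : HV o, t.1.rank < μ → ¬ t.1 ∈ (v z).1) ?_ ?_
  · exact UD.all (Q := fun o μ (v : α → HV o) t (_ : ι → Set (HV o)) => ¬ t.1 ∈ (v z).1)
      (UD.mem none (some z)).not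
  · intro o μ hl v W hv
    rw [ZFSet.eq_empty]
    constructor
    · intro h t ht
      exact h ⟨t, (v z).mem_of_mem ht⟩ ((ZFSet.rank_lt_of_mem ht).trans (hv z)) ht
    · intro h t _
      exact h t.1

theorem UD.ord {α ι : Type} (z : α) :
    UD (fun (_ _ : Ordinal.{u}) (v : α → HV _) (_ : ι → Set (HV _)) => (v z).1.IsOrdinal) := by
  refine UD.congr (Q := fun o μ (v : α → HV o) (_ : ι → Set (HV o)) =>
    ∀ x : HV o, x.1.rank < μ → x.1 ∈ (v z).1 → ∀ y : HV o, y.1.rank < μ → y.1 ∈ x.1 →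
      (y.1 ∈ (v z).1 ∧ ∀ w : HV o, w.1.rank < μ → w.1 ∈ y.1 → w.1 ∈ x.1)) ?_ ?_
  · refine UD.all (Q := fun o μ (v : α → HV o) x (_ : ι → Set (HV o)) => x.1 ∈ (v z).1 →
      ∀ y : HV o, y.1.rank < μ → y.1 ∈ x.1 →
      (y.1 ∈ (v z).1 ∧ ∀ w : HV o, w.1.rank < μ → w.1 ∈ y.1 → w.1 ∈ x.1)) ?_
    refine (UD.mem none (some z)).imp (UD.all (Q := fun o μ (v : Option α → HV o) y
      (_ : ι → Set (HV o)) => y.1 ∈ (v none).1 →
      (y.1 ∈ (v (some z)).1 ∧ ∀ w : HV o, w.1.rank < μ → w.1 ∈ y.1 → w.1 ∈ (v none).1)) ?_)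
    refine (UD.mem none (some none)).imp ((UD.mem none (some (some z))).and (UD.all
      (Q := fun o μ (v : Option (Option α) → HV o) w
      (_ : ι → Set (HV o)) => w.1 ∈ (v none).1 → w.1 ∈ (v (some none)).1) ?_))
    exact (UD.mem none (some none)).imp (UD.mem none (some (some none)))
  · intro o μ hl v W hv
    have hlt : ∀ {x : ZFSet.{u}}, x ∈ (v z).1 → x.rank < μ := fun h =>
      (ZFSet.rank_lt_of_mem h).trans (hv z)
    constructor
    · intro h
      refine ⟨?_, ?_⟩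
      · intro x hx y hy
        exact (h ⟨x, (v z).mem_of_mem hx⟩ (hlt hx) hx
          ⟨y, HV.mem_of_mem ⟨x, (v z).mem_of_mem hx⟩ hy⟩
          ((ZFSet.rank_lt_of_mem hy).trans (hlt hx)) hy).1
      · intro w y x hw hy hx
        let x' : HV o := ⟨x, (v z).mem_of_mem hx⟩
        let y' : HV o := ⟨y, x'.mem_of_mem hy⟩
        have hy' : y.rank < μ := (ZFSet.rank_lt_of_mem hy).trans (hlt hx)
        exact (h x' (hlt hx) hx y' hy' hy).2 ⟨w, y'.mem_of_mem hw⟩
          ((ZFSet.rank_lt_of_mem hw).trans hy') hw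
    · intro h x _ hx y _ hy
      exact ⟨h.mem_trans hy hx, fun w _ hw => h.mem_trans' hw hy hx⟩

/-! Coding of tuples. -/

/-- The code of a tuple of sets. -/
noncomputable def codeZ : ∀ k : ℕ, (Fin k → ZFSet.{u}) → ZFSet.{u}
  | 0, _ => ∅
  | k + 1, xs => ZFSet.pair (xs 0) (codeZ k (fun i => xs i.succ))

theorem codeZ_inj : ∀ (k : ℕ) (xs ys : Fin k → ZFSet.{u}), codeZ k xs = codeZ k ys → xs = ys
  | 0, xs, ys, _ => funext fun i => i.elim0
  | k + 1, xs, ys, h => by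
    obtain ⟨h1, h2⟩ := ZFSet.pair_injective h
    have h3 := codeZ_inj k _ _ h2
    funext i
    refine Fin.cases h1 (fun i => ?_) i
    exact congrFun h3 i

theorem rank_codeZ {μ : Ordinal.{u}} (hμ : IsSuccLimit μ) :
    ∀ (k : ℕ) (xs : Fin k → ZFSet.{u}), (∀ i, (xs i).rank < μ) → (codeZ k xs).rank < μ
  | 0, _, _ => by
    change (∅ : ZFSet.{u}).rank < μ
    rw [ZFSet.rank_empty]
    exact hμ.bot_lt
  | k + 1, xs, h => rank_opair_lt hμ (h 0) (rank_codeZ hμ k _ fun i => h _)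

theorem UD.code {α ι : Type} : ∀ (k : ℕ) (f : Fin k → α) (z : α),
    UD (fun (_ _ : Ordinal.{u}) (v : α → HV _) (_ : ι → Set (HV _)) =>
      (v z).1 = codeZ k (fun i => (v (f i)).1)) := by
  intro k
  induction k generalizing α with
  | zero => intro f z; exact UD.empty z
  | succ k ih =>
    intro f z
    refine UD.congr (Q := fun o μ (v : α → HV o) (_ : ι → Set (HV o)) =>
      ∃ y : HV o, y.1.rank < μ ∧ (y.1 = codeZ k (fun i => (v (f i.succ)).1) ∧
        (v z).1 = ZFSet.pair (v (f 0)).1 y.1)) ?_ ?_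
    · refine UD.ex (Q := fun o μ (v : α → HV o) y (_ : ι → Set (HV o)) =>
        y.1 = codeZ k (fun i => (v (f i.succ)).1) ∧ (v z).1 = ZFSet.pair (v (f 0)).1 y.1) ?_
      exact (ih (fun i => some (f i.succ)) none).and (UD.pair (some (f 0)) none (some z))
    · intro o μ hl v W hv
      constructor
      · rintro ⟨y, _, h1, h2⟩
        rw [h2, h1]
        rfl
      · intro h
        have hr := rank_codeZ hl.hμ k (fun i => (v (f i.succ)).1) (fun i => hv _)
        exact ⟨⟨codeZ k (fun i => (v (f i.succ)).1),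
          ZFSet.mem_vonNeumann.2 (hr.trans_le hl.hle)⟩, hr, rfl, h⟩

/-- The tuple `xs` belongs to the relation coded by `S`. -/
def InW {o : Ordinal.{u}} {k : ℕ} (xs : Fin k → HV o) (S : Set (HV o)) : Prop :=
  ∃ z : HV o, z.1 = codeZ k (fun i => (xs i).1) ∧ z ∈ S

theorem UD.inW {α ι : Type} {k : ℕ} (f : Fin k → α) (X : ι) :
    UD (fun (_ _ : Ordinal.{u}) (v : α → HV _) (W : ι → Set (HV _)) =>
      InW (fun i => v (f i)) (W X)) := by
  refine UD.congr (Q := fun o μ (v : α → HV o) (W : ι → Set (HV o)) =>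
    ∃ z : HV o, z.1.rank < μ ∧ (z.1 = codeZ k (fun i => (v (f i)).1) ∧ z ∈ W X)) ?_ ?_
  · exact UD.ex (Q := fun o μ (v : α → HV o) z (W : ι → Set (HV o)) =>
      z.1 = codeZ k (fun i => (v (f i)).1) ∧ z ∈ W X)
      ((UD.code k (fun i => some (f i)) none).and (UD.inn none X))
  · intro o μ hl v W hv
    constructor
    · rintro ⟨z, _, h1, h2⟩
      exact ⟨z, h1, h2⟩
    · rintro ⟨z, h1, h2⟩
      refine ⟨z, ?_, h1, h2⟩
      rw [h1]
      exact rank_codeZ hl.hμ k _ fun i => hv _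

/-! The translation. -/

theorem term_empty {α : Type} (t : Language.empty.Term α) : ∃ a, t = Language.Term.var a := by
  cases t with
  | var a => exact ⟨a, rfl⟩
  | func f _ => exact Empty.elim f

/-- The data connecting a structure with the ordinals below `μ`. -/
structure Conn (o μ : Ordinal.{u}) {M : Type w} (c : M → HV o) : Prop where
  lv : Lv o μ
  inj : Function.Injective c
  range : ∀ x : HV o, (x.1.IsOrdinal ∧ x.1.rank < μ) ↔ ∃ m, x = c m

theorem Conn.inW_code {o μ : Ordinal.{u}} {M : Type w} {c : M → HV o} (h : Conn o μ c) {k : ℕ}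
    (R : (Fin k → M) → Prop) (xs : Fin k → M) :
    InW (fun i => c (xs i)) {z | ∃ ys : Fin k → M, z.1 = codeZ k (fun i => (c (ys i)).1) ∧ R ys} ↔
      R xs := by
  constructor
  · rintro ⟨z, h1, ys, h2, h3⟩
    rw [h1] at h2
    have h4 := codeZ_inj k _ _ h2
    have h5 : xs = ys := funext fun i => h.inj (Subtype.ext (congrFun h4 i))
    rwa [h5]
  · intro hR
    have hr := rank_codeZ h.lv.ho k (fun i => (c (xs i)).1) (fun i => (c (xs i)).rank_lt)
    exact ⟨⟨_, ZFSet.mem_vonNeumann.2 hr⟩, rfl, xs, rfl, hR⟩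

/-- Every pure second-order formula has a monadic translation. -/
theorem exists_mso {α : Type} {ι : ℕ → Type} (Φ : SOForm Language.empty α ι) :
    ∃ φ : MSO α (Σ k, ι k), ∀ (o μ : Ordinal.{u}) (M : Type w) [Language.empty.Structure M]
      (c : M → HV o) (_ : Conn o μ c) (v : α → M) (V : REnv M ι)
      (W : (Σ k, ι k) → Set (HV o)),
      (∀ k X xs, V k X xs ↔ InW (fun i => c (xs i)) (W ⟨k, X⟩)) →
      (φ.Realize EV (DV μ) (fun a => c (v a)) W ↔ Φ.Realize M v V) := by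
  induction Φ with
  | falsum => exact ⟨.falsum, fun o μ M _ c hc v V W hW => Iff.rfl⟩
  | eq s t =>
    obtain ⟨a, rfl⟩ := term_empty s
    obtain ⟨b, rfl⟩ := term_empty t
    exact ⟨.eq a b, fun o μ M _ c hc v V W hW => hc.inj.eq_iff⟩
  | rel R ts => exact Empty.elim R
  | var X ts =>
    rename_i α ι k
    choose f hf using fun i => term_empty (ts i)
    obtain ⟨φ, hφ⟩ := UD.inW.{u} f (⟨k, X⟩ : Σ k, ι k)
    refine ⟨φ, fun o μ M _ c hc v V W hW => ?_⟩
    rw [hφ o μ hc.lv _ _ fun a => ((hc.range _).2 ⟨_, rfl⟩).2]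
    change _ ↔ V k X _
    rw [hW]
    simp only [hf, Language.Term.realize_var]
  | imp φ ψ h1 h2 =>
    obtain ⟨φ', hφ'⟩ := h1
    obtain ⟨ψ', hψ'⟩ := h2
    exact ⟨.imp φ' ψ', fun o μ M _ c hc v V W hW =>
      imp_congr (hφ' o μ M c hc v V W hW) (hψ' o μ M c hc v V W hW)⟩
  | all φ h1 =>
    rename_i α ι
    obtain ⟨φ', hφ'⟩ := h1
    obtain ⟨ψ, hψ⟩ := UD.ord.{u} (α := Option α) (ι := Σ k, ι k) none
    refine ⟨.all (.imp ψ φ'), fun o μ M _ c hc v V W hW => ?_⟩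
    have hlt : ∀ m, (c m).1.rank < μ := fun m => ((hc.range _).2 ⟨_, rfl⟩).2
    have hcons : ∀ m, cons (fun a => c (v a)) (c m) = fun a => c (cons v m a) := fun m => by
      funext a; cases a <;> rfl
    constructor
    · intro h m
      have h2 := h (c m) (hlt m)
      rw [← hφ' o μ M c hc _ V W hW, ← hcons]
      refine h2 ?_
      rw [hψ o μ hc.lv _ _ (by rintro (_ | a) <;> exact hlt _)]
      exact ((hc.range _).2 ⟨_, rfl⟩).1
    · intro h x hx hx'
      rw [hψ o μ hc.lv _ _ (by rintro (_ | a); exacts [hx, hlt _])] at hx'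
      obtain ⟨m, rfl⟩ := (hc.range x).1 ⟨hx', hx⟩
      rw [hcons, hφ' o μ M c hc _ V W hW]
      exact h m
  | allRel k φ h1 =>
    rename_i α ι
    obtain ⟨φ', hφ'⟩ := h1
    let g : (Σ m, RExt ι k m) → Option (Σ m, ι m) := fun X => match X with
      | ⟨_, .new⟩ => none
      | ⟨m, .old X⟩ => some ⟨m, X⟩
    refine ⟨.allS (φ'.map id g), fun o μ M _ c hc v V W hW => ?_⟩
    have key : ∀ (R : (Fin k → M) → Prop) (S : Set (HV o)),
        (∀ xs, R xs ↔ InW (fun i => c (xs i)) S) →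
        ((φ'.map id g).Realize EV (DV μ) (fun a => c (v a)) (cons W S) ↔
          φ.Realize M v (consRel V R)) := by
      intro R S hRS
      rw [MSO.realize_map]
      refine hφ' o μ M c hc v (consRel V R) (cons W S ∘ g) ?_
      rintro m (_ | X) xs
      · exact hRS xs
      · exact hW m X xs
    constructor
    · intro h R
      exact (key R _ fun xs => (hc.inW_code R xs).symm).1 (h _)
    · intro h S
      exact (key (fun xs => InW (fun i => c (xs i)) S) S fun xs => Iff.rfl).2 (h _)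

end SOCat
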