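import Pool.Agent.Lib.MP_d7cc8a_lc.FO

/-! Elementary embeddings of transitive classes. -/

namespace SOCat

open Order FirstOrder Language

universe u

variable {C : Set ZFSet.{u}} {o : Ordinal.{u}} (j : C ↪ₑ[memLang] C)

theorem emb_mem (x y : C) : x.1 ∈ y.1 ↔ (j x).1 ∈ (j y).1 :=
  (FD.mem (C := C) false true).pres j (fun b => if b then y else x)

theorem Big.ext (h : Big C o) {x y : C} (hxy : ∀ t : C, t.1 ∈ x.1 ↔ t.1 ∈ y.1) : x = y := by
  refine Subtype.ext (ZFSet.ext fun t => ⟨fun ht => ?_, fun ht => ?_⟩)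
  · exact (hxy ⟨t, h.tr _ x.2 _ ht⟩).1 ht
  · exact (hxy ⟨t, h.tr _ y.2 _ ht⟩).2 ht

theorem emb_inj {x y : C} (h : j x = j y) : x = y := by
  exact ((FD.eq (C := C) false true).pres j (fun b => if b then y else x)).2 h

theorem Big.rank_le_emb (h : Big C o) (x : C) : x.1.rank ≤ (j x).1.rank := by
  have key : ∀ (r : Ordinal.{u}) (x : C), x.1.rank = r → x.1.rank ≤ (j x).1.rank := by
    intro r
    induction r using WellFoundedLT.induction with
    | ind r ih =>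
      rintro x rfl
      rw [ZFSet.rank_le_iff]
      intro t ht
      exact (ih _ (ZFSet.rank_lt_of_mem ht) ⟨t, h.tr _ x.2 _ ht⟩ rfl).trans_lt
        (ZFSet.rank_lt_of_mem ((emb_mem j ⟨t, h.tr _ x.2 _ ht⟩ x).1 ht))
  exact key _ x rfl

theorem Big.emb_RK (h : Big C o) (x y : C) : RK x y ↔ RK (j x) (j y) :=
  (h.fd_RK false true).pres j (fun b => if b then y else x)

theorem Big.emb_VC (h : Big C o) (x y : C) : VC x y ↔ VC (j x) (j y) :=
  (h.fd_VC false true).pres j (fun b => if b then y else x)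

theorem Big.emb_PM (h : Big C o) (x y f : C) : PM x y f ↔ PM (j x) (j y) (j f) :=
  (h.fd_PM (some false) (some true) none).pres j (cons (fun b => if b then y else x) f)

theorem emb_sub {x y : C} (hxy : ∀ t : C, t.1 ∈ x.1 → t.1 ∈ y.1) :
    ∀ t : C, t.1 ∈ (j x).1 → t.1 ∈ (j y).1 :=
  ((FD.all (Q := fun (v : Bool → C) t => t.1 ∈ (v false).1 → t.1 ∈ (v true).1)
    ((FD.mem none (some false)).imp (FD.mem none (some true)))).pres j
    (fun b => if b then y else x)).1 hxy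

theorem emb_inter {u w w' : C} (hu : ∀ t : C, t.1 ∈ u.1 ↔ (t.1 ∈ w.1 ∧ t.1 ∈ w'.1)) :
    ∀ t : C, t.1 ∈ (j u).1 ↔ (t.1 ∈ (j w).1 ∧ t.1 ∈ (j w').1) :=
  ((FD.all (Q := fun (v : Option Bool → C) t => t.1 ∈ (v none).1 ↔
    (t.1 ∈ (v (some false)).1 ∧ t.1 ∈ (v (some true)).1))
    ((FD.mem none (some none)).iff ((FD.mem none (some (some false))).and
      (FD.mem none (some (some true)))))).pres j
    (cons (fun b => if b then w' else w) u)).1 hu

theorem Big.emb_trans (h : Big C o) {x : C} (hx : x.1.IsTransitive) : (j x).1.IsTransitive := by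
  have key : ∀ x : C, x.1.IsTransitive ↔ ∀ b : C, b.1 ∈ x.1 → ∀ t : C, t.1 ∈ b.1 →
      t.1 ∈ x.1 := by
    intro x
    constructor
    · intro hx b hb t ht
      exact hx.subset_of_mem hb ht
    · intro hx b hb t ht
      exact hx ⟨b, h.tr _ x.2 _ hb⟩ hb ⟨t, h.tr _ (h.tr _ x.2 _ hb) _ ht⟩ ht
  rw [key] at hx ⊢
  exact ((FD.all (Q := fun (v : Unit → C) b => b.1 ∈ (v ()).1 → ∀ t : C, t.1 ∈ b.1 →
      t.1 ∈ (v ()).1) ((FD.mem none (some ())).imp (FD.all (Q := fun (v : Option Unit → C) t =>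
      t.1 ∈ (v none).1 → t.1 ∈ (v (some ())).1) ((FD.mem none (some none)).imp
      (FD.mem none (some (some ()))))))).pres j (fun _ => x)).1 hx

/-- The critical sequence. -/
structure Crt (C : Set ZFSet.{u}) (o : Ordinal.{u}) (j : C ↪ₑ[memLang] C) (c : ℕ → C) : Prop where
  big : Big C o
  fix : ∀ x : C, x.1.rank < (c 0).1.rank → j x = x
  succ : ∀ n, c (n + 1) = j (c n)
  trans : ∀ n, (c n).1.IsTransitive
  lt0 : (c 0).1.rank < (c 1).1.rank
  lto : (c 0).1.rank < o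

theorem exists_crt (h : Big C o) (hm : ∃ x : C, x.1.rank < o ∧ j x ≠ x) :
    ∃ c : ℕ → C, Crt C o j c := by
  obtain ⟨x0, hx0, hmin⟩ := WellFounded.has_min (InvImage.wf (fun x : C => x.1.rank)
    (wellFounded_lt (α := Ordinal.{u}))) {x : C | j x ≠ x} (by
      obtain ⟨x, _, hx⟩ := hm
      exact ⟨x, hx⟩)
  have hfix : ∀ x : C, x.1.rank < x0.1.rank → j x = x := fun x hx => by
    by_contra hne
    exact hmin x hne hx
  have hlt : x0.1.rank < o := by
    obtain ⟨x, hx, hxm⟩ := hm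
    exact (not_lt.1 (hmin x hxm)).trans_lt hx
  have hrk : x0.1.rank < (j x0).1.rank := by
    by_contra hno
    refine hx0 (h.ext fun t => ⟨fun ht => ?_, fun ht => ?_⟩)
    · have h1 := hfix t ((ZFSet.rank_lt_of_mem ht).trans_le (not_lt.1 hno))
      rw [← h1] at ht
      exact (emb_mem j t x0).2 ht
    · have h1 := hfix t (ZFSet.rank_lt_of_mem ht)
      rw [← h1]
      exact (emb_mem j t x0).1 ht
  let c0 : C := ⟨ZFSet.vonNeumann x0.1.rank, h.mem_of_rank (by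
    rw [ZFSet.rank_vonNeumann]; exact hlt.le)⟩
  have hc0 : c0.1.rank = x0.1.rank := ZFSet.rank_vonNeumann _
  have h0 : c0.1.IsTransitive := ZFSet.isTransitive_vonNeumann _
  refine ⟨fun n => (fun x => j x)^[n] c0, h, ?_, ?_, ?_, ?_, ?_⟩
  · intro x hx
    exact hfix x (hx.trans_eq hc0)
  · intro n
    exact Function.iterate_succ_apply' _ _ _
  · intro n
    induction n with
    | zero => exact h0
    | succ n ih =>
      have h1 : (fun x => j x)^[n + 1] c0 = j ((fun x => j x)^[n] c0) :=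
        Function.iterate_succ_apply' _ _ _
      rw [h1]
      exact h.emb_trans j ih
  · change c0.1.rank < (j c0).1.rank
    rw [hc0]
    refine hrk.trans_le ?_
    rw [ZFSet.rank_le_iff]
    intro t ht
    refine ZFSet.rank_lt_of_mem (emb_sub j (x := x0) (y := c0) ?_
      ⟨t, h.tr _ (j x0).2 _ ht⟩ ht)
    intro t ht
    exact ZFSet.mem_vonNeumann.2 (ZFSet.rank_lt_of_mem ht)
  · exact hc0.trans_lt hlt

variable {j} {c : ℕ → C}

namespace Crt

theorem notRK (h : Crt C o j c) (n : ℕ) : ¬ RK (c (n + 1)) (c n) := by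
  induction n with
  | zero =>
    intro h1
    exact absurd (h.big.rank_le_of_RK h1) (not_le.2 h.lt0)
  | succ n ih =>
    rw [h.succ (n + 1), h.succ n, ← h.big.emb_RK, ← h.succ n]
    exact ih

theorem lt (h : Crt C o j c) {n : ℕ} (hn : (c n).1.rank < o) :
    (c n).1.rank < (c (n + 1)).1.rank := by
  rcases lt_or_ge (c (n + 1)).1.rank o with h1 | h1
  · by_contra hno
    exact h.notRK n (h.big.RK_of_rank_le h1 hn (not_lt.1 hno))
  · exact hn.trans_le h1

theorem growth (h : Crt C o j c) {n : ℕ} {x : C} (hx : x.1.rank < o)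
    (hnx : (c n).1.rank ≤ x.1.rank) : (c (n + 1)).1.rank ≤ (j x).1.rank := by
  have h1 := h.big.RK_of_rank_le (hnx.trans_lt hx) hx hnx
  rw [h.big.emb_RK j, ← h.succ] at h1
  exact h.big.rank_le_of_RK h1

/-- The stages of finite rank are fixed. -/
theorem fix_vset (h : Crt C o j c) (n : ℕ) (z : C) (hz : z.1 = ZFSet.vonNeumann (n : Ordinal.{u}))
    (hn : (n : Ordinal.{u}) ≤ o) : j z = z := by
  induction n generalizing z with
  | zero =>
    have key : ∀ z : C, (∀ t : C, ¬ t.1 ∈ z.1) ↔ z.1 = ∅ := by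
      intro z
      rw [ZFSet.eq_empty]
      exact ⟨fun h1 t ht => h1 ⟨t, h.big.tr _ z.2 _ ht⟩ ht, fun h1 t => h1 t.1⟩
    have hz' : z.1 = ∅ := by rw [hz]; simp
    have h1 := ((FD.all (Q := fun (v : Unit → C) t => ¬ t.1 ∈ (v ()).1)
      (FD.mem none (some ())).not).pres j (fun _ => z)).1 ((key z).2 hz')
    rw [key] at h1
    exact Subtype.ext (h1.trans hz'.symm)
  | succ n ih =>
    have hn' : (n : Ordinal.{u}) ≤ o := by
      refine le_trans ?_ hn
      rw [Nat.cast_succ]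
      exact le_self_add
    let y : C := ⟨ZFSet.vonNeumann (n : Ordinal.{u}), h.big.mem_of_rank (by
      rw [ZFSet.rank_vonNeumann]; exact hn')⟩
    have hy : j y = y := ih y rfl hn'
    have hzy : ∀ t : C, t.1 ∈ z.1 ↔ ∀ s : C, s.1 ∈ t.1 → s.1 ∈ y.1 := by
      intro t
      rw [hz, Nat.cast_succ, ZFSet.vonNeumann_add_one, ZFSet.mem_powerset]
      exact ⟨fun h1 s hs => h1 hs, fun h1 s hs => h1 ⟨s, h.big.tr _ t.2 _ hs⟩ hs⟩
    have h1 := ((FD.all (Q := fun (v : Bool → C) t => t.1 ∈ (v false).1 ↔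
      ∀ s : C, s.1 ∈ t.1 → s.1 ∈ (v true).1) ((FD.mem none (some false)).iff
        (FD.all (Q := fun (v : Option Bool → C) s => s.1 ∈ (v none).1 → s.1 ∈ (v (some true)).1)
        ((FD.mem none (some none)).imp (FD.mem none (some (some true))))))).pres j
      (fun b => if b then y else z)).1 hzy
    simp only [Bool.false_eq_true, if_false, if_true] at h1
    refine h.big.ext fun t => ?_
    rw [h1, hzy, hy]

theorem omega_le (h : Crt C o j c) : Ordinal.omega0 ≤ (c 0).1.rank := by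
  by_contra hno
  obtain ⟨n, hn⟩ := Ordinal.lt_omega0.1 (not_le.1 hno)
  have hno : ((n + 1 : ℕ) : Ordinal.{u}) ≤ o := by
    rw [Nat.cast_succ, ← hn]
    exact Order.add_one_le_of_lt h.lto
  let z : C := ⟨ZFSet.vonNeumann ((n + 1 : ℕ) : Ordinal.{u}), h.big.mem_of_rank (by
      rw [ZFSet.rank_vonNeumann]; exact hno)⟩
  have hz := h.fix_vset (n + 1) z rfl hno
  have h1 : (c 0).1 ∈ z.1 := ZFSet.mem_vonNeumann.2 (by
    rw [hn, Nat.cast_succ]
    exact Order.lt_add_one_iff.2 le_rfl)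
  rw [emb_mem j, hz, ← h.succ] at h1
  have h2 := ZFSet.mem_vonNeumann.1 h1
  rw [Nat.cast_succ, ← hn] at h2
  exact absurd h.lt0 (not_lt.2 (Order.lt_add_one_iff.1 h2))

end Crt

/-! Limits of cofinality `ω`. -/

/-- The property which is used to see that limits of cofinality `ω` are fixed. -/
def CofC (X z : C) : Prop :=
  (∀ b : C, b.1 ∈ z.1 → ∀ t : C, t.1 ∈ b.1 → t.1 ∈ z.1) ∧
  (∀ b : C, b.1 ∈ z.1 → ∀ x : C, RK x b → x.1 ∈ z.1) ∧
  (∀ x : C, x.1 ∈ X.1 → x.1 ∈ z.1) ∧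
  ∀ Y : C, (∀ y : C, y.1 ∈ Y.1 → y.1 ∈ X.1) → (∃ y : C, y.1 ∈ Y.1) →
    (∃ b : C, b.1 ∈ z.1 ∧ ∀ y : C, y.1 ∈ Y.1 → ∃ b' : C, b'.1 ∈ b.1 ∧ RK y b') →
    ∃ m : C, m.1 ∈ Y.1 ∧ ∀ y : C, y.1 ∈ Y.1 → RK y m

theorem Big.fd_CofC (h : Big C o) {α : Type} (X z : α) :
    FD (fun v : α → C => CofC (v X) (v z)) := by
  refine FD.and ?_ (FD.and ?_ (FD.and ?_ ?_))
  · refine FD.all (Q := fun v b => b.1 ∈ (v z).1 → ∀ t : C, t.1 ∈ b.1 → t.1 ∈ (v z).1) ?_
    refine (FD.mem none (some z)).imp (FD.all (Q := fun (v : Option α → C) t =>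
      t.1 ∈ (v none).1 → t.1 ∈ (v (some z)).1) ?_)
    exact (FD.mem none (some none)).imp (FD.mem none (some (some z)))
  · refine FD.all (Q := fun v b => b.1 ∈ (v z).1 → ∀ x : C, RK x b → x.1 ∈ (v z).1) ?_
    refine (FD.mem none (some z)).imp (FD.all (Q := fun (v : Option α → C) t =>
      RK t (v none) → t.1 ∈ (v (some z)).1) ?_)
    exact (h.fd_RK none (some none)).imp (FD.mem none (some (some z)))
  · refine FD.all (Q := fun v x => x.1 ∈ (v X).1 → x.1 ∈ (v z).1) ?_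
    exact (FD.mem none (some X)).imp (FD.mem none (some z))
  · refine FD.all (Q := fun v Y => (∀ y : C, y.1 ∈ Y.1 → y.1 ∈ (v X).1) →
      (∃ y : C, y.1 ∈ Y.1) →
      (∃ b : C, b.1 ∈ (v z).1 ∧ ∀ y : C, y.1 ∈ Y.1 → ∃ b' : C, b'.1 ∈ b.1 ∧ RK y b') →
      ∃ m : C, m.1 ∈ Y.1 ∧ ∀ y : C, y.1 ∈ Y.1 → RK y m) ?_
    refine FD.imp ?_ (FD.imp ?_ (FD.imp ?_ ?_))
    · refine FD.all (Q := fun (v : Option α → C) y => y.1 ∈ (v none).1 →
        y.1 ∈ (v (some X)).1) ?_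
      exact (FD.mem none (some none)).imp (FD.mem none (some (some X)))
    · exact FD.ex (Q := fun (v : Option α → C) y => y.1 ∈ (v none).1)
        (FD.mem none (some none))
    · refine FD.ex (Q := fun (v : Option α → C) b => b.1 ∈ (v (some z)).1 ∧
        ∀ y : C, y.1 ∈ (v none).1 → ∃ b' : C, b'.1 ∈ b.1 ∧ RK y b') ?_
      refine (FD.mem none (some (some z))).and (FD.all
        (Q := fun (v : Option (Option α) → C) y => y.1 ∈ (v (some none)).1 →
        ∃ b' : C, b'.1 ∈ (v none).1 ∧ RK y b') ?_)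
      refine (FD.mem none (some (some none))).imp (FD.ex
        (Q := fun (v : Option (Option (Option α)) → C) b' => b'.1 ∈ (v (some none)).1 ∧
        RK (v none) b') ?_)
      exact (FD.mem none (some (some none))).and (h.fd_RK (some none) none)
    · refine FD.ex (Q := fun (v : Option α → C) m => m.1 ∈ (v none).1 ∧
        ∀ y : C, y.1 ∈ (v none).1 → RK y m) ?_
      refine (FD.mem none (some none)).and (FD.all
        (Q := fun (v : Option (Option α) → C) y => y.1 ∈ (v (some none)).1 →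
        RK y (v none)) ?_)
      exact (FD.mem none (some (some none))).imp (h.fd_RK none (some none))

/-- If a stage is approximated by a sequence whose image stays inside the stage, then the
stage is fixed. -/
theorem Big.cofV (h : Big C o) (j : C ↪ₑ[memLang] C) {θ : Ordinal.{u}} (hθ : θ ≤ o)
    (x : ℕ → C) (hx : ∀ n, (x n).1.rank < (x (n + 1)).1.rank)
    (hlt : ∀ n, (j (x n)).1.rank < θ) (hcof : ∀ ξ < θ, ∃ n, ξ ≤ (x n).1.rank)
    (z : C) (hz : z.1 = ZFSet.vonNeumann θ) : j z = z := by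
  classical
  have hxlt : ∀ n, (x n).1.rank < θ := fun n => (h.rank_le_emb j _).trans_lt (hlt n)
  have hmono : ∀ {m n}, m ≤ n → (x m).1.rank ≤ (x n).1.rank := by
    intro m n hmn
    induction hmn with
    | refl => exact le_rfl
    | step _ ih => exact ih.trans (hx _).le
  have hsub : ZFSet.vonNeumann θ ⊆ ZFSet.vonNeumann o := ZFSet.vonNeumann_subset_of_le hθ
  have hmemz : ∀ t : C, t.1 ∈ z.1 ↔ t.1.rank < θ := fun t => by rw [hz, ZFSet.mem_vonNeumann]
  obtain ⟨X, hX⟩ : ∃ X : C, ∀ t : C, t.1 ∈ X.1 ↔ ∃ n, t = x n := by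
    have hs : ZFSet.sep (fun t => ∃ n, t = (x n).1) (ZFSet.vonNeumann θ) ∈ C :=
      h.sub _ fun t ht => hsub (ZFSet.sep_subset ht)
    refine ⟨⟨_, hs⟩, fun t => ?_⟩
    simp only [ZFSet.mem_sep]
    constructor
    · rintro ⟨_, n, hn⟩
      exact ⟨n, Subtype.ext hn⟩
    · rintro ⟨n, rfl⟩
      exact ⟨ZFSet.mem_vonNeumann.2 (hxlt n), n, rfl⟩
  obtain ⟨Y, hY⟩ : ∃ Y : C, ∀ t : C, t.1 ∈ Y.1 ↔ ∃ n, t = j (x n) := by
    have hs : ZFSet.sep (fun t => ∃ n, t = (j (x n)).1) (ZFSet.vonNeumann θ) ∈ C :=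
      h.sub _ fun t ht => hsub (ZFSet.sep_subset ht)
    refine ⟨⟨_, hs⟩, fun t => ?_⟩
    simp only [ZFSet.mem_sep]
    constructor
    · rintro ⟨_, n, hn⟩
      exact ⟨n, Subtype.ext hn⟩
    · rintro ⟨n, rfl⟩
      exact ⟨ZFSet.mem_vonNeumann.2 (hlt n), n, rfl⟩
  have hP : CofC X z := by
    refine ⟨?_, ?_, ?_, ?_⟩
    · intro b hb t ht
      rw [hmemz] at hb ⊢
      exact (ZFSet.rank_lt_of_mem ht).trans hb
    · intro b hb t ht
      rw [hmemz] at hb ⊢
      exact (h.rank_le_of_RK ht).trans_lt hb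
    · intro t ht
      obtain ⟨n, rfl⟩ := (hX t).1 ht
      exact (hmemz _).2 (hxlt n)
    · rintro Y' hY1 ⟨y0, hy0⟩ ⟨b, hb, hb'⟩
      obtain ⟨n, hn⟩ := hcof _ ((hmemz b).1 hb)
      have hbd : ∀ m, (x m).1 ∈ Y'.1 → m ≤ n := by
        intro m hm
        obtain ⟨b', hb1, hb2⟩ := hb' _ hm
        by_contra hmn
        have h1 := (h.rank_le_of_RK hb2).trans_lt (ZFSet.rank_lt_of_mem hb1)
        exact absurd (h1.trans_le (hn.trans (hmono (not_le.1 hmn).le))) (lt_irrefl _)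
      obtain ⟨m0, hm0⟩ := (hX y0).1 (hY1 y0 hy0)
      have hm0' : (x m0).1 ∈ Y'.1 := hm0 ▸ hy0
      refine ⟨x (Nat.findGreatest (fun m => (x m).1 ∈ Y'.1) n), ?_, ?_⟩
      · exact Nat.findGreatest_spec (P := fun m => (x m).1 ∈ Y'.1) (hbd m0 hm0') hm0'
      · intro y hy
        obtain ⟨m, rfl⟩ := (hX y).1 (hY1 y hy)
        refine h.RK_of_rank_le ((hxlt _).trans_le hθ) ((hxlt _).trans_le hθ) (hmono ?_)
        exact Nat.le_findGreatest (P := fun m => (x m).1 ∈ Y'.1) (hbd m hy) hy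
  obtain ⟨h1, h2, h3, h4⟩ := ((h.fd_CofC false true).pres j (fun b => if b then z else X)).1 hP
  simp only [Bool.false_eq_true, if_false, if_true] at h1 h2 h3 h4
  have hup : ∀ b : C, b.1 ∈ (j z).1 → b.1.rank < θ := by
    by_contra hno
    push Not at hno
    obtain ⟨b, ⟨hb1, hb2⟩, hmin⟩ := WellFounded.has_min (InvImage.wf (fun x : C => x.1.rank)
      (wellFounded_lt (α := Ordinal.{u}))) {b : C | b.1 ∈ (j z).1 ∧ θ ≤ b.1.rank} hno
    have hbθ : b.1.rank = θ := by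
      refine le_antisymm ?_ hb2
      by_contra hlt'
      obtain ⟨t, ht, ht'⟩ := ZFSet.lt_rank_iff.1 (not_le.1 hlt')
      exact hmin ⟨t, h.tr _ b.2 _ ht⟩ ⟨h1 b hb1 ⟨t, h.tr _ b.2 _ ht⟩ ht, ht'⟩
        (ZFSet.rank_lt_of_mem ht)
    obtain ⟨m, hm, hm'⟩ := h4 Y (by
      intro y hy
      obtain ⟨n, rfl⟩ := (hY y).1 hy
      rw [← emb_mem]
      exact (hX _).2 ⟨n, rfl⟩) ⟨_, (hY _).2 ⟨0, rfl⟩⟩ ⟨b, hb1, by
      intro y hy
      obtain ⟨n, rfl⟩ := (hY y).1 hy
      have h5 := hlt n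
      rw [← hbθ] at h5
      obtain ⟨t, ht, ht'⟩ := ZFSet.lt_rank_iff.1 h5
      refine ⟨⟨t, h.tr _ b.2 _ ht⟩, ht, ?_⟩
      refine h.RK_of_rank_le ((hlt n).trans_le hθ) ?_ ht'
      exact (ZFSet.rank_lt_of_mem ht).trans_le (hbθ.trans_le hθ)⟩
    obtain ⟨n, rfl⟩ := (hY m).1 hm
    have h5 := hm' _ ((hY _).2 ⟨n + 1, rfl⟩)
    rw [← h.emb_RK] at h5
    exact absurd (h.rank_le_of_RK h5) (not_le.2 (hx n))
  refine h.ext fun t => ⟨fun ht => (hmemz t).2 (hup t ht), fun ht => ?_⟩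
  obtain ⟨n, hn⟩ := hcof _ ((hmemz t).1 ht)
  refine h2 (j (x n)) (h3 _ ?_) t ?_
  · rw [← emb_mem]
    exact (hX _).2 ⟨n, rfl⟩
  · exact h.RK_of_rank_le (((hmemz t).1 ht).trans_le hθ) ((hlt n).trans_le hθ)
      (hn.trans (h.rank_le_emb j _))

end SOCat
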