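import Pool.Agent.Lib.MP_d7cc8a_lc.Code
import Mathlib.ModelTheory.Semantics

/-! First-order definability over transitive classes of sets. -/

namespace SOCat

open Order FirstOrder Language

universe u

variable {C : Set ZFSet.{u}} {α β ι κ : Type}

/-- The membership symbol. -/
def memSymb : memLang.Relations 2 := MemRel.mem

/-- First-order definable predicates over the class `C`. -/
def FD {α : Type} (Q : (α → C) → Prop) : Prop :=
  ∃ φ : memLang.Formula α, ∀ v, φ.Realize v ↔ Q v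

namespace FD

variable {Q Q' : (α → C) → Prop}

theorem congr (h : FD Q) (h' : ∀ v, Q v ↔ Q' v) : FD Q' := by
  obtain ⟨φ, hφ⟩ := h
  exact ⟨φ, fun v => (hφ v).trans (h' v)⟩

theorem falsum : FD (fun _ : α → C => False) := ⟨⊥, fun _ => Iff.rfl⟩

theorem eq (x y : α) : FD (fun v : α → C => v x = v y) :=
  ⟨Term.equal (Term.var x) (Term.var y), fun v => by simp⟩

theorem mem (x y : α) : FD (fun v : α → C => (v x).1 ∈ (v y).1) :=
  ⟨Relations.formula₂ memSymb (Term.var x) (Term.var y), fun _ => Formula.realize_rel₂⟩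

theorem imp (h : FD Q) (h' : FD Q') : FD (fun v => Q v → Q' v) := by
  obtain ⟨φ, hφ⟩ := h
  obtain ⟨φ', hφ'⟩ := h'
  exact ⟨φ.imp φ', fun v => (Formula.realize_imp).trans (imp_congr (hφ v) (hφ' v))⟩

theorem not (h : FD Q) : FD (fun v => ¬ Q v) := h.imp falsum

theorem or (h : FD Q) (h' : FD Q') : FD (fun v => Q v ∨ Q' v) :=
  (h.not.imp h').congr fun v => by tauto

theorem and (h : FD Q) (h' : FD Q') : FD (fun v => Q v ∧ Q' v) :=
  ((h.imp h'.not).not).congr fun v => by tauto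

theorem iff (h : FD Q) (h' : FD Q') : FD (fun v => (Q v ↔ Q' v)) :=
  ((h.imp h').and (h'.imp h)).congr fun v => by tauto

theorem subst (h : FD Q) (f : α → β) : FD (fun v : β → C => Q (fun a => v (f a))) := by
  obtain ⟨φ, hφ⟩ := h
  exact ⟨φ.relabel f, fun v => Formula.realize_relabel.trans (hφ _)⟩

theorem all {Q : (α → C) → C → Prop}
    (h : FD (fun v : Option α → C => Q (fun a => v (some a)) (v none))) :
    FD (fun v => ∀ x, Q v x) := by
  obtain ⟨φ, hφ⟩ := h.subst (fun o : Option α => match o with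
    | none => (Sum.inr () : α ⊕ Unit)
    | some a => Sum.inl a)
  refine ⟨φ.iAlls Unit, fun v => ?_⟩
  rw [Formula.realize_iAlls]
  simp only [hφ]
  exact ⟨fun h x => h fun _ => x, fun h i => h _⟩

theorem ex {Q : (α → C) → C → Prop}
    (h : FD (fun v : Option α → C => Q (fun a => v (some a)) (v none))) :
    FD (fun v => ∃ x, Q v x) :=
  ((all (Q := fun v x => ¬ Q v x) h.not).not).congr fun v => by push Not; rfl

theorem pres (h : FD Q) (j : C ↪ₑ[memLang] C) (v : α → C) : Q v ↔ Q (fun a => j (v a)) := by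
  obtain ⟨φ, hφ⟩ := h
  rw [← hφ, ← hφ]
  exact (j.map_formula φ v).symm

end FD

/-! Monadic second-order truth, relativised. -/

/-- Relativised truth: elements range over `z`, sets range over all members of `C`. -/
def TT (z : C) : ∀ {α ι : Type}, MSO α ι → (α → C) → (ι → C) → Prop
  | _, _, .falsum, _, _ => False
  | _, _, .eq x y, v, _ => v x = v y
  | _, _, .mem x y, v, _ => (v x).1 ∈ (v y).1
  | _, _, .inn x X, v, w => (v x).1 ∈ (w X).1
  | _, _, .imp φ ψ, v, w => TT z φ v w → TT z ψ v w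
  | _, _, .all φ, v, w => ∀ x : C, x.1 ∈ z.1 → TT z φ (cons v x) w
  | _, _, .allS φ, v, w => ∀ b : C, TT z φ v (cons w b)

theorem fd_TT (φ : MSO α ι) : ∀ {β : Type} (z : β) (f : α → β) (g : ι → β),
    FD (fun v : β → C => TT (v z) φ (fun a => v (f a)) (fun X => v (g X))) := by
  induction φ with
  | falsum => intros; exact FD.falsum
  | eq x y => intros; exact FD.eq _ _
  | mem x y => intros; exact FD.mem _ _
  | inn x X => intros; exact FD.mem _ _
  | imp φ ψ h1 h2 => intro β z f g; exact (h1 z f g).imp (h2 z f g)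
  | all φ h =>
    intro β z f g
    refine FD.all (Q := fun v x => x.1 ∈ (v z).1 →
      TT (v z) φ (cons (fun a => v (f a)) x) (fun X => v (g X))) ?_
    refine (FD.mem none (some z)).imp ?_
    refine (h (some z) (Option.map f) (fun X => some (g X))).congr fun v => ?_
    have : (fun a => v (Option.map f a)) = cons (fun a => v (some (f a))) (v none) := by
      funext a; cases a <;> rfl
    rw [this]
  | allS φ h =>
    intro β z f g
    refine FD.all (Q := fun v x =>
      TT (v z) φ (fun a => v (f a)) (cons (fun X => v (g X)) x)) ?_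
    refine (h (some z) (fun a => some (f a)) (Option.map g)).congr fun v => ?_
    have : (fun a => v (Option.map g a)) = cons (fun a => v (some (g a))) (v none) := by
      funext a; cases a <;> rfl
    rw [this]

/-- A transitive class containing all subsets of `V_o`. -/
structure Big (C : Set ZFSet.{u}) (o : Ordinal.{u}) : Prop where
  tr : ∀ x ∈ C, ∀ y ∈ x, y ∈ C
  sub : ∀ x : ZFSet.{u}, x ⊆ ZFSet.vonNeumann o → x ∈ C
  lim : IsSuccLimit o

variable {o : Ordinal.{u}}

theorem Big.mem_of_rank (h : Big C o) {x : ZFSet.{u}} (hx : x.rank ≤ o) : x ∈ C :=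
  h.sub x (ZFSet.subset_vonNeumann.2 hx)

/-- The inclusion of `V_o` in `C`. -/
def Big.inc (h : Big C o) (x : HV o) : C := ⟨x.1, h.mem_of_rank x.rank_lt.le⟩

theorem Big.agree (h : Big C o) (z : C) (hz : z.1 ⊆ ZFSet.vonNeumann o) (φ : MSO α ι) :
    ∀ (v : α → HV o) (w : ι → C) (W : ι → Set (HV o)), (∀ a, (v a).1 ∈ z.1) →
      (∀ X, ∀ x : HV o, x.1 ∈ z.1 → (x.1 ∈ (w X).1 ↔ x ∈ W X)) →
      (TT z φ (fun a => h.inc (v a)) w ↔ φ.Realize EV {x | x.1 ∈ z.1} v W) := by
  induction φ with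
  | falsum => intros; exact Iff.rfl
  | eq x y =>
    intro v w W hv hW
    constructor
    · intro h1
      exact Subtype.ext (congrArg (fun x : C => x.1) h1)
    · intro h1
      exact congrArg h.inc h1
  | mem x y => intros; exact Iff.rfl
  | inn x X => intro v w W hv hW; exact hW X _ (hv x)
  | imp φ ψ h1 h2 => intro v w W hv hW; exact imp_congr (h1 v w W hv hW) (h2 v w W hv hW)
  | all φ ih =>
    intro v w W hv hW
    have hcons : ∀ x : HV o, cons (fun a => h.inc (v a)) (h.inc x) =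
        fun a => h.inc (cons v x a) := fun x => by funext a; cases a <;> rfl
    constructor
    · intro h1 x hx
      have h2 := h1 (h.inc x) hx
      rw [hcons] at h2
      exact (ih (cons v x) w W (by rintro (_ | a); exacts [hx, hv a]) hW).1 h2
    · intro h1 x hx
      have h2 := h1 ⟨x.1, hz hx⟩ hx
      have h3 := (ih (cons v ⟨x.1, hz hx⟩) w W (by rintro (_ | a); exacts [hx, hv a]) hW).2 h2
      rw [← hcons] at h3
      exact h3
  | allS φ ih =>
    intro v w W hv hW
    constructor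
    · intro h1 S
      have hs : ZFSet.sep (fun t => ∃ h, (⟨t, h⟩ : HV o) ∈ S) z.1 ∈ C :=
        h.sub _ fun t ht => hz (ZFSet.sep_subset ht)
      refine (ih v (cons w ⟨_, hs⟩) (cons W S) hv ?_).1 (h1 _)
      rintro (_ | X) x hx
      · simp only [cons_none, ZFSet.mem_sep]
        exact ⟨fun ⟨_, _, h⟩ => h, fun h => ⟨hx, x.2, h⟩⟩
      · exact hW X x hx
    · intro h1 b
      refine (ih v (cons w b) (cons W {x | x.1 ∈ b.1}) hv ?_).2 (h1 _)
      rintro (_ | X) x hx
      · exact Iff.rfl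
      · exact hW X x hx

/-! Pairs and ranks. -/

/-- The pair of `x` and `y` belongs to `f`. -/
def PM (x y f : C) : Prop := ZFSet.pair x.1 y.1 ∈ f.1

theorem Big.fd_pair (h : Big C o) (x y q : α) :
    FD (fun v : α → C => (v q).1 = ZFSet.pair (v x).1 (v y).1) := by
  refine FD.congr (Q := fun v : α → C => ∃ w1 w2 : C, w1.1 ∈ (v q).1 ∧ w2.1 ∈ (v q).1 ∧
    (∀ t : C, t.1 ∈ w1.1 ↔ t = v x) ∧ (∀ t : C, t.1 ∈ w2.1 ↔ (t = v x ∨ t = v y)) ∧
    ∀ w : C, w.1 ∈ (v q).1 → (w = w1 ∨ w = w2)) ?_ ?_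
  · refine FD.ex (Q := fun v w1 => ∃ w2 : C, w1.1 ∈ (v q).1 ∧ w2.1 ∈ (v q).1 ∧
      (∀ t : C, t.1 ∈ w1.1 ↔ t = v x) ∧ (∀ t : C, t.1 ∈ w2.1 ↔ (t = v x ∨ t = v y)) ∧
      ∀ w : C, w.1 ∈ (v q).1 → (w = w1 ∨ w = w2)) ?_
    refine FD.ex (Q := fun (v : Option α → C) w2 => (v none).1 ∈ (v (some q)).1 ∧
      w2.1 ∈ (v (some q)).1 ∧
      (∀ t : C, t.1 ∈ (v none).1 ↔ t = v (some x)) ∧
      (∀ t : C, t.1 ∈ w2.1 ↔ (t = v (some x) ∨ t = v (some y))) ∧
      ∀ w : C, w.1 ∈ (v (some q)).1 → (w = v none ∨ w = w2)) ?_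
    refine (FD.mem (some none) (some (some q))).and ((FD.mem none (some (some q))).and
      ((FD.all (Q := fun (v : Option (Option α) → C) t => t.1 ∈ (v (some none)).1 ↔
        t = v (some (some x))) ?_).and ((FD.all (Q := fun (v : Option (Option α) → C) t =>
        t.1 ∈ (v none).1 ↔ (t = v (some (some x)) ∨ t = v (some (some y)))) ?_).and
        (FD.all (Q := fun (v : Option (Option α) → C) w => w.1 ∈ (v (some (some q))).1 →
        (w = v (some none) ∨ w = v none)) ?_))))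
    · exact (FD.mem none (some (some none))).iff (FD.eq none (some (some (some x))))
    · exact (FD.mem none (some none)).iff ((FD.eq none (some (some (some x)))).or
        (FD.eq none (some (some (some y)))))
    · exact (FD.mem none (some (some (some q)))).imp ((FD.eq none (some (some none))).or
        (FD.eq none (some none)))
  · intro v
    constructor
    · rintro ⟨w1, w2, h1, h2, h3, h4, h5⟩
      have e1 : w1.1 = {(v x).1} := by
        ext t
        rw [ZFSet.mem_singleton]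
        constructor
        · intro ht
          exact congrArg Subtype.val ((h3 ⟨t, h.tr _ w1.2 _ ht⟩).1 ht)
        · rintro rfl
          exact (h3 (v x)).2 rfl
      have e2 : w2.1 = {(v x).1, (v y).1} := by
        ext t
        rw [ZFSet.mem_pair]
        constructor
        · intro ht
          rcases (h4 ⟨t, h.tr _ w2.2 _ ht⟩).1 ht with h6 | h6
          · exact Or.inl (congrArg Subtype.val h6)
          · exact Or.inr (congrArg Subtype.val h6)
        · rintro (rfl | rfl)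
          · exact (h4 (v x)).2 (Or.inl rfl)
          · exact (h4 (v y)).2 (Or.inr rfl)
      change (v q).1 = ({{(v x).1}, {(v x).1, (v y).1}} : ZFSet.{u})
      rw [← e1, ← e2]
      ext t
      rw [ZFSet.mem_pair]
      constructor
      · intro ht
        rcases h5 ⟨t, h.tr _ (v q).2 _ ht⟩ ht with h6 | h6
        · exact Or.inl (congrArg Subtype.val h6)
        · exact Or.inr (congrArg Subtype.val h6)
      · rintro (rfl | rfl)
        · exact h1
        · exact h2
    · intro hq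
      have m1 : ({(v x).1} : ZFSet.{u}) ∈ (v q).1 := by
        rw [hq]
        exact ZFSet.mem_pair.2 (Or.inl rfl)
      have m2 : ({(v x).1, (v y).1} : ZFSet.{u}) ∈ (v q).1 := by
        rw [hq]
        exact ZFSet.mem_pair.2 (Or.inr rfl)
      refine ⟨⟨_, h.tr _ (v q).2 _ m1⟩, ⟨_, h.tr _ (v q).2 _ m2⟩, m1, m2, ?_, ?_, ?_⟩
      · intro t
        rw [ZFSet.mem_singleton, Subtype.ext_iff]
      · intro t
        rw [ZFSet.mem_pair, Subtype.ext_iff, Subtype.ext_iff]
      · intro w hw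
        rw [hq] at hw
        rw [Subtype.ext_iff, Subtype.ext_iff]
        exact ZFSet.mem_pair.1 hw

theorem Big.fd_PM (h : Big C o) (x y f : α) :
    FD (fun v : α → C => PM (v x) (v y) (v f)) := by
  refine FD.congr (Q := fun v : α → C => ∃ q : C, q.1 = ZFSet.pair (v x).1 (v y).1 ∧
    q.1 ∈ (v f).1) ?_ ?_
  · exact FD.ex (Q := fun v q => q.1 = ZFSet.pair (v x).1 (v y).1 ∧ q.1 ∈ (v f).1)
      ((h.fd_pair (some x) (some y) none).and (FD.mem none (some f)))
  · intro v
    constructor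
    · rintro ⟨q, h1, h2⟩
      unfold PM
      rwa [← h1]
    · intro h1
      exact ⟨⟨_, h.tr _ (v f).2 _ h1⟩, rfl, h1⟩

/-- The rank of `x` is at most the rank of `y`, as witnessed by a simulation in `C`. -/
def RK (x y : C) : Prop := ∃ R : C, PM x y R ∧ ∀ a b : C, PM a b R →
  ∀ t : C, t.1 ∈ a.1 → ∃ s : C, s.1 ∈ b.1 ∧ PM t s R

theorem Big.fd_RK (h : Big C o) (x y : α) : FD (fun v : α → C => RK (v x) (v y)) := by
  refine FD.ex (Q := fun v R => PM (v x) (v y) R ∧ ∀ a b : C, PM a b R →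
    ∀ t : C, t.1 ∈ a.1 → ∃ s : C, s.1 ∈ b.1 ∧ PM t s R) ?_
  refine (h.fd_PM (some x) (some y) none).and (FD.all (Q := fun (v : Option α → C) a =>
    ∀ b : C, PM a b (v none) →
    ∀ t : C, t.1 ∈ a.1 → ∃ s : C, s.1 ∈ b.1 ∧ PM t s (v none)) ?_)
  refine FD.all (Q := fun (v : Option (Option α) → C) b => PM (v none) b (v (some none)) →
    ∀ t : C, t.1 ∈ (v none).1 → ∃ s : C, s.1 ∈ b.1 ∧ PM t s (v (some none))) ?_
  refine (h.fd_PM (some none) none (some (some none))).imp (FD.all
    (Q := fun (v : Option (Option (Option α)) → C) t =>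
    t.1 ∈ (v (some none)).1 → ∃ s : C, s.1 ∈ (v none).1 ∧ PM t s (v (some (some none)))) ?_)
  refine (FD.mem none (some (some none))).imp (FD.ex
    (Q := fun (v : Option (Option (Option (Option α))) → C) s =>
    s.1 ∈ (v (some none)).1 ∧ PM (v none) s (v (some (some (some none))))) ?_)
  exact (FD.mem none (some (some none))).and
    (h.fd_PM (some none) none (some (some (some (some none)))))

theorem Big.rank_le_of_RK (h : Big C o) {x y : C} (hxy : RK x y) : x.1.rank ≤ y.1.rank := by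
  obtain ⟨R, hR, hR'⟩ := hxy
  have key : ∀ (r : Ordinal.{u}) (x y : C), x.1.rank = r → PM x y R →
      x.1.rank ≤ y.1.rank := by
    intro r
    induction r using WellFoundedLT.induction with
    | ind r ih =>
      rintro x y rfl hxy
      rw [ZFSet.rank_le_iff]
      intro t ht
      obtain ⟨s, hs, hs'⟩ := hR' x y hxy ⟨t, h.tr _ x.2 _ ht⟩ ht
      exact (ih _ (ZFSet.rank_lt_of_mem ht) ⟨t, h.tr _ x.2 _ ht⟩ s rfl hs').trans_lt
        (ZFSet.rank_lt_of_mem hs)
  exact key _ x y rfl hR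

theorem Big.RK_of_rank_le (h : Big C o) {x y : C} (hx : x.1.rank < o) (hy : y.1.rank < o)
    (hxy : x.1.rank ≤ y.1.rank) : RK x y := by
  have hR : ZFSet.sep (fun q => ∃ a b : ZFSet.{u}, q = ZFSet.pair a b ∧ a.rank ≤ b.rank)
      (ZFSet.vonNeumann o) ∈ C := h.sub _ ZFSet.sep_subset
  have hm : ∀ a b : C, PM a b ⟨_, hR⟩ ↔ (ZFSet.pair a.1 b.1 ∈ ZFSet.vonNeumann o ∧
      ∃ a' b' : ZFSet.{u}, ZFSet.pair a.1 b.1 = ZFSet.pair a' b' ∧ a'.rank ≤ b'.rank) :=
    fun a b => by unfold PM; simp only [ZFSet.mem_sep]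
  refine ⟨⟨_, hR⟩, ?_, ?_⟩
  · exact (hm _ _).2 ⟨ZFSet.mem_vonNeumann.2 (rank_opair_lt h.lim hx hy), _, _, rfl, hxy⟩
  · intro a b hab t ht
    obtain ⟨hm1, a', b', h1, h2⟩ := (hm _ _).1 hab
    obtain ⟨e1, e2⟩ := ZFSet.pair_injective h1
    rw [← e1, ← e2] at h2
    obtain ⟨s, hs, hs'⟩ := ZFSet.lt_rank_iff.1 ((ZFSet.rank_lt_of_mem ht).trans_le h2)
    refine ⟨⟨s, h.tr _ b.2 _ hs⟩, hs, ?_⟩
    have hb : b.1.rank < o := by
      have hm' := ZFSet.mem_vonNeumann.1 hm1
      have m2 : ({a.1, b.1} : ZFSet.{u}) ∈ ZFSet.pair a.1 b.1 := ZFSet.mem_pair.2 (Or.inr rfl)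
      have m3 : b.1 ∈ ({a.1, b.1} : ZFSet.{u}) := ZFSet.mem_pair.2 (Or.inr rfl)
      exact ((ZFSet.rank_lt_of_mem m3).trans (ZFSet.rank_lt_of_mem m2)).trans hm'
    have hs1 : s.rank < o := (ZFSet.rank_lt_of_mem hs).trans hb
    exact (hm _ _).2 ⟨ZFSet.mem_vonNeumann.2 (rank_opair_lt h.lim (hs'.trans_lt hs1) hs1),
      _, _, rfl, hs'⟩

/-- The set `z` consists of the sets whose rank is at most the rank of some member of `c`. -/
def VC (z c : C) : Prop := ∀ x : C, x.1 ∈ z.1 ↔ ∃ b : C, b.1 ∈ c.1 ∧ RK x b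

theorem Big.fd_VC (h : Big C o) (z c : α) : FD (fun v : α → C => VC (v z) (v c)) := by
  refine FD.all (Q := fun v x => x.1 ∈ (v z).1 ↔ ∃ b : C, b.1 ∈ (v c).1 ∧ RK x b) ?_
  refine (FD.mem none (some z)).iff (FD.ex (Q := fun (v : Option α → C) b =>
    b.1 ∈ (v (some c)).1 ∧ RK (v none) b) ?_)
  exact (FD.mem none (some (some c))).and (h.fd_RK (some none) none)

theorem Big.VC_iff (h : Big C o) {z c : C} (hc : c.1.rank ≤ o) :
    VC z c ↔ z.1 = ZFSet.vonNeumann c.1.rank := by
  have key : ∀ x : C, (∃ b : C, b.1 ∈ c.1 ∧ RK x b) ↔ x.1.rank < c.1.rank := by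
    intro x
    constructor
    · rintro ⟨b, hb, hxb⟩
      exact (h.rank_le_of_RK hxb).trans_lt (ZFSet.rank_lt_of_mem hb)
    · intro hx
      obtain ⟨b, hb, hb'⟩ := ZFSet.lt_rank_iff.1 hx
      have hb2 := (ZFSet.rank_lt_of_mem hb).trans_le hc
      exact ⟨⟨b, h.tr _ c.2 _ hb⟩, hb, h.RK_of_rank_le (hb'.trans_lt hb2) hb2 hb'⟩
  constructor
  · intro hz
    ext t
    rw [ZFSet.mem_vonNeumann]
    constructor
    · intro ht
      exact (key ⟨t, h.tr _ z.2 _ ht⟩).1 ((hz ⟨t, h.tr _ z.2 _ ht⟩).1 ht)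
    · intro ht
      have ht2 := h.mem_of_rank (ht.le.trans hc)
      exact (hz ⟨t, ht2⟩).2 ((key ⟨t, ht2⟩).2 ht)
  · intro hz x
    rw [key, hz, ZFSet.mem_vonNeumann]

end SOCat
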