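import Mathlib.Logic.Equiv.Option
import Mathlib.Data.Finite.Prod
import Mathlib.Data.Finite.Sum
import Mathlib.Data.Fintype.Option
import Mathlib.Data.Set.Basic
import Mathlib.Tactic.Tauto
import Mathlib.Tactic.Push
import Pool.Agent.Lib.MP_d7cc8a_lc.Cons

/-! Monadic second-order formulas over structures with one binary relation. -/

namespace SOCat

open Function

universe v

/-- Monadic second-order formulas with element variables `α` and set variables `ι`. -/
inductive MSO : Type → Type → Type 1
  | falsum {α ι : Type} : MSO α ι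
  | eq {α ι : Type} (x y : α) : MSO α ι
  | mem {α ι : Type} (x y : α) : MSO α ι
  | inn {α ι : Type} (x : α) (X : ι) : MSO α ι
  | imp {α ι : Type} (φ ψ : MSO α ι) : MSO α ι
  | all {α ι : Type} (φ : MSO (Option α) ι) : MSO α ι
  | allS {α ι : Type} (φ : MSO α (Option ι)) : MSO α ι

variable {H : Type v}

/-- Truth of a formula in `(D, ε)`. -/
def MSO.Realize (ε : H → H → Prop) (D : Set H) : ∀ {α ι : Type}, MSO α ι → (α → H) →
    (ι → Set H) → Prop
  | _, _, .falsum, _, _ => False
  | _, _, .eq x y, v, _ => v x = v y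
  | _, _, .mem x y, v, _ => ε (v x) (v y)
  | _, _, .inn x X, v, W => v x ∈ W X
  | _, _, .imp φ ψ, v, W => φ.Realize ε D v W → ψ.Realize ε D v W
  | _, _, .all φ, v, W => ∀ x ∈ D, φ.Realize ε D (cons v x) W
  | _, _, .allS φ, v, W => ∀ X : Set H, φ.Realize ε D v (cons W X)

/-- Renaming of variables. -/
def MSO.map : ∀ {α β ι κ : Type}, (α → β) → (ι → κ) → MSO α ι → MSO β κ
  | _, _, _, _, _, _, .falsum => .falsum
  | _, _, _, _, f, _, .eq x y => .eq (f x) (f y)
  | _, _, _, _, f, _, .mem x y => .mem (f x) (f y)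
  | _, _, _, _, f, g, .inn x X => .inn (f x) (g X)
  | _, _, _, _, f, g, .imp φ ψ => .imp (φ.map f g) (ψ.map f g)
  | _, _, _, _, f, g, .all φ => .all (φ.map (Option.map f) g)
  | _, _, _, _, f, g, .allS φ => .allS (φ.map f (Option.map g))

theorem cons_map {α β : Type} {γ : Type v} (f : α → β) (v : β → γ) (x : γ) :
    cons v x ∘ Option.map f = cons (v ∘ f) x := by
  funext o; cases o <;> rfl

theorem MSO.realize_map (ε : H → H → Prop) (D : Set H) {α ι : Type} (φ : MSO α ι) :
    ∀ {β κ : Type} (f : α → β) (g : ι → κ) (v : β → H) (W : κ → Set H),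
      (φ.map f g).Realize ε D v W ↔ φ.Realize ε D (v ∘ f) (W ∘ g) := by
  induction φ with
  | falsum => intros; exact Iff.rfl
  | eq x y => intros; exact Iff.rfl
  | mem x y => intros; exact Iff.rfl
  | inn x X => intros; exact Iff.rfl
  | imp φ ψ h1 h2 => intro β κ f g v W; exact imp_congr (h1 f g v W) (h2 f g v W)
  | all φ h =>
    intro β κ f g v W
    refine forall_congr' fun x => forall_congr' fun _ => ?_
    rw [h, cons_map]
  | allS φ h =>
    intro β κ f g v W
    refine forall_congr' fun x => ?_
    rw [h, cons_map]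

/-- The truth value depends only on the restrictions of the sets to `D`. -/
theorem MSO.realize_congr (ε : H → H → Prop) (D : Set H) {α ι : Type} (φ : MSO α ι) :
    ∀ (v : α → H) (W W' : ι → Set H), (∀ a, v a ∈ D) → (∀ X, ∀ x ∈ D, (x ∈ W X ↔ x ∈ W' X)) →
      (φ.Realize ε D v W ↔ φ.Realize ε D v W') := by
  induction φ with
  | falsum => intros; exact Iff.rfl
  | eq x y => intros; exact Iff.rfl
  | mem x y => intros; exact Iff.rfl
  | inn x X => intro v W W' hv hW; exact hW X _ (hv x)
  | imp φ ψ h1 h2 => intro v W W' hv hW; exact imp_congr (h1 v W W' hv hW) (h2 v W W' hv hW)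
  | all φ h =>
    intro v W W' hv hW
    refine forall_congr' fun x => forall_congr' fun hx => ?_
    exact h _ _ _ (by rintro (_ | a); exacts [hx, hv a]) hW
  | allS φ h =>
    intro v W W' hv hW
    refine forall_congr' fun X => ?_
    exact h _ _ _ hv (by rintro (_ | X') x hx; exacts [Iff.rfl, hW X' x hx])

/-! Definability in the full structure. -/

/-- Definable predicates. -/
def MD (ε : H → H → Prop) {α ι : Type} (Q : (α → H) → (ι → Set H) → Prop) : Prop :=
  ∃ φ : MSO α ι, ∀ v W, φ.Realize ε Set.univ v W ↔ Q v W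

section MD

variable {ε : H → H → Prop} {α β ι κ : Type} {Q Q' : (α → H) → (ι → Set H) → Prop}

theorem MD.congr (h : MD ε Q) (h' : ∀ v W, Q v W ↔ Q' v W) : MD ε Q' := by
  obtain ⟨φ, hφ⟩ := h
  exact ⟨φ, fun v W => (hφ v W).trans (h' v W)⟩

theorem MD.of_formula (φ : MSO α ι) : MD ε (fun v W => φ.Realize ε Set.univ v W) :=
  ⟨φ, fun _ _ => Iff.rfl⟩

theorem MD.falsum : MD ε (fun (_ : α → H) (_ : ι → Set H) => False) :=
  ⟨.falsum, fun _ _ => Iff.rfl⟩

theorem MD.eq (x y : α) : MD ε (fun v (_ : ι → Set H) => v x = v y) :=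
  ⟨.eq x y, fun _ _ => Iff.rfl⟩

theorem MD.mem (x y : α) : MD ε (fun v (_ : ι → Set H) => ε (v x) (v y)) :=
  ⟨.mem x y, fun _ _ => Iff.rfl⟩

theorem MD.inn (x : α) (X : ι) : MD ε (fun v W => v x ∈ W X) :=
  ⟨.inn x X, fun _ _ => Iff.rfl⟩

theorem MD.imp (h : MD ε Q) (h' : MD ε Q') : MD ε (fun v W => Q v W → Q' v W) := by
  obtain ⟨φ, hφ⟩ := h
  obtain ⟨φ', hφ'⟩ := h'
  exact ⟨.imp φ φ', fun v W => imp_congr (hφ v W) (hφ' v W)⟩

theorem MD.not (h : MD ε Q) : MD ε (fun v W => ¬ Q v W) := h.imp MD.falsum

theorem MD.or (h : MD ε Q) (h' : MD ε Q') : MD ε (fun v W => Q v W ∨ Q' v W) :=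
  (h.not.imp h').congr fun v W => by tauto

theorem MD.and (h : MD ε Q) (h' : MD ε Q') : MD ε (fun v W => Q v W ∧ Q' v W) :=
  ((h.imp h'.not).not).congr fun v W => by tauto

theorem MD.iff (h : MD ε Q) (h' : MD ε Q') : MD ε (fun v W => (Q v W ↔ Q' v W)) :=
  ((h.imp h').and (h'.imp h)).congr fun v W => by tauto

theorem MD.all {Q : (α → H) → H → (ι → Set H) → Prop}
    (h : MD ε (fun (v : Option α → H) W => Q (fun a => v (some a)) (v none) W)) :
    MD ε (fun v W => ∀ x, Q v x W) := by
  obtain ⟨φ, hφ⟩ := h
  refine ⟨.all φ, fun v W => ?_⟩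
  simp only [MSO.Realize, Set.mem_univ, true_imp_iff, hφ, cons_none, cons_some]

theorem MD.ex {Q : (α → H) → H → (ι → Set H) → Prop}
    (h : MD ε (fun (v : Option α → H) W => Q (fun a => v (some a)) (v none) W)) :
    MD ε (fun v W => ∃ x, Q v x W) :=
  ((MD.all (Q := fun v x W => ¬ Q v x W) h.not).not).congr fun v W => by push Not; rfl

theorem MD.allS {Q : (α → H) → (ι → Set H) → Set H → Prop}
    (h : MD ε (fun (v : α → H) (W : Option ι → Set H) => Q v (fun a => W (some a)) (W none))) :
    MD ε (fun v W => ∀ X, Q v W X) := by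
  obtain ⟨φ, hφ⟩ := h
  refine ⟨.allS φ, fun v W => ?_⟩
  simp only [MSO.Realize, hφ, cons_none, cons_some]

theorem MD.exS {Q : (α → H) → (ι → Set H) → Set H → Prop}
    (h : MD ε (fun (v : α → H) (W : Option ι → Set H) => Q v (fun a => W (some a)) (W none))) :
    MD ε (fun v W => ∃ X, Q v W X) :=
  ((MD.allS (Q := fun v W X => ¬ Q v W X) h.not).not).congr fun v W => by push Not; rfl

theorem MD.subst (h : MD ε Q) (f : α → β) (g : ι → κ) :
    MD ε (fun (v : β → H) (W : κ → Set H) => Q (fun a => v (f a)) (fun X => W (g X))) := by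
  obtain ⟨φ, hφ⟩ := h
  exact ⟨φ.map f g, fun v W => (φ.realize_map ε _ f g v W).trans (hφ _ _)⟩

theorem MD.true : MD ε (fun (_ : α → H) (_ : ι → Set H) => True) :=
  (MD.falsum.not).congr fun _ _ => by tauto

theorem MD.finAll {β : Type} [Finite β] : ∀ {α ι : Type}
    {Q : β → (α → H) → (ι → Set H) → Prop}, (∀ b, MD ε (Q b)) →
      MD ε (fun v W => ∀ b, Q b v W) := by
  induction β using Finite.induction_empty_option with
  | of_equiv e ih =>
    intro α ι Q h
    exact (ih (Q := fun a => Q (e a)) fun a => h _).congr fun v W =>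
      ⟨fun h b => by simpa using h (e.symm b), fun h a => h _⟩
  | h_empty =>
    intro α ι Q h
    exact MD.true.congr fun v W => ⟨fun _ b => b.elim, fun _ => trivial⟩
  | h_option ih =>
    intro α ι Q h
    exact ((h none).and (ih (Q := fun a => Q (some a)) fun a => h _)).congr fun v W =>
      ⟨fun h b => by cases b; exacts [h.1, h.2 _], fun h => ⟨h _, fun a => h _⟩⟩

theorem MD.allFam {β : Type} [Finite β] : ∀ {α ι : Type}
    {Q : (α → H) → (β → H) → (ι → Set H) → Prop},
    MD ε (fun (v : α ⊕ β → H) W => Q (fun a => v (.inl a)) (fun a => v (.inr a)) W) →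
      MD ε (fun v W => ∀ u, Q v u W) := by
  induction β using Finite.induction_empty_option with
  | of_equiv e ih =>
    intro α ι Q h
    have h2 := ih (Q := fun v u W => Q v (fun b => u (e.symm b)) W)
      ((h.subst (Sum.map id e.symm) id).congr fun v W => Iff.rfl)
    exact h2.congr fun v W => ⟨fun h u => by
      have := h (fun a => u (e a))
      simpa using this, fun h u => h _⟩
  | h_empty =>
    intro α ι Q h
    have h2 := h.subst (Sum.elim id (fun b : PEmpty => b.elim)) id
    exact h2.congr fun v W => ⟨fun h u => by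
      rw [show u = fun b : PEmpty => v (b.elim) from funext fun b => b.elim]
      exact h, fun h => h _⟩
  | h_option ih =>
    intro α ι Q h
    have h3 : MD ε (fun (v : Option α ⊕ _ → H) W => Q (fun a => v (.inl (some a)))
        (cons (fun a => v (.inr a)) (v (.inl none))) W) := by
      refine (h.subst (fun x => match x with
        | .inl a => Sum.inl (some a)
        | .inr none => Sum.inl none
        | .inr (some b) => Sum.inr b) id).congr fun v W => ?_
      have : (fun a => v (match (Sum.inr a : α ⊕ Option _) with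
        | .inl a => Sum.inl (some a)
        | .inr none => Sum.inl none
        | .inr (some b) => Sum.inr b)) = cons (fun a => v (.inr a)) (v (.inl none)) := by
        funext o; cases o <;> rfl
      rw [this]
      rfl
    have h4 := ih (Q := fun (v : Option α → H) u W => Q (fun a => v (some a))
      (cons u (v none)) W) h3
    refine (MD.all (Q := fun v x W => ∀ u, Q v (cons u x) W) h4).congr fun v W => ?_
    exact ⟨fun h u => by
      have := h (u none) (fun a => u (some a))
      rwa [cons_eta] at this, fun h x u => h _⟩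

theorem MD.exFam {β : Type} [Finite β] {α ι : Type}
    {Q : (α → H) → (β → H) → (ι → Set H) → Prop}
    (h : MD ε (fun (v : α ⊕ β → H) W => Q (fun a => v (.inl a)) (fun a => v (.inr a)) W)) :
      MD ε (fun v W => ∃ u, Q v u W) :=
  ((MD.allFam (Q := fun v u W => ¬ Q v u W) h.not).not).congr fun v W => by push Not; rfl

theorem MD.allFamS {β : Type} [Finite β] : ∀ {α ι : Type}
    {Q : (α → H) → (ι → Set H) → (β → Set H) → Prop},
    MD ε (fun (v : α → H) (W : ι ⊕ β → Set H) => Q v (fun a => W (.inl a))
      (fun a => W (.inr a))) →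
      MD ε (fun v W => ∀ U, Q v W U) := by
  induction β using Finite.induction_empty_option with
  | of_equiv e ih =>
    intro α ι Q h
    have h2 := ih (Q := fun v W U => Q v W (fun b => U (e.symm b)))
      ((h.subst id (Sum.map id e.symm)).congr fun v W => Iff.rfl)
    exact h2.congr fun v W => ⟨fun h u => by
      have := h (fun a => u (e a))
      simpa using this, fun h u => h _⟩
  | h_empty =>
    intro α ι Q h
    have h2 := h.subst id (Sum.elim id (fun b : PEmpty => b.elim))
    exact h2.congr fun v W => ⟨fun h u => by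
      rw [show u = fun b : PEmpty => W (b.elim) from funext fun b => b.elim]
      exact h, fun h => h _⟩
  | h_option ih =>
    intro α ι Q h
    have h3 : MD ε (fun (v : α → H) (W : Option ι ⊕ _ → Set H) => Q v
        (fun a => W (.inl (some a))) (cons (fun a => W (.inr a)) (W (.inl none)))) := by
      refine (h.subst id (fun x => match x with
        | .inl a => Sum.inl (some a)
        | .inr none => Sum.inl none
        | .inr (some b) => Sum.inr b)).congr fun v W => ?_
      have : (fun a => W (match (Sum.inr a : ι ⊕ Option _) with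
        | .inl a => Sum.inl (some a)
        | .inr none => Sum.inl none
        | .inr (some b) => Sum.inr b)) = cons (fun a => W (.inr a)) (W (.inl none)) := by
        funext o; cases o <;> rfl
      rw [this]
      rfl
    have h4 := ih (Q := fun (v : α → H) (W : Option ι → Set H) U => Q v (fun a => W (some a))
      (cons U (W none))) h3
    refine (MD.allS (Q := fun v W X => ∀ U, Q v W (cons U X)) h4).congr fun v W => ?_
    exact ⟨fun h u => by
      have := h (u none) (fun a => u (some a))
      rwa [cons_eta] at this, fun h x u => h _⟩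

theorem MD.exFamS {β : Type} [Finite β] {α ι : Type}
    {Q : (α → H) → (ι → Set H) → (β → Set H) → Prop}
    (h : MD ε (fun (v : α → H) (W : ι ⊕ β → Set H) => Q v (fun a => W (.inl a))
      (fun a => W (.inr a)))) :
      MD ε (fun v W => ∃ U, Q v W U) :=
  ((MD.allFamS (Q := fun v W U => ¬ Q v W U) h.not).not).congr fun v W => by push Not; rfl

end MD

end SOCat
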