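import Pool.Agent.Lib.MP_d7cc8a_lc.SO
import Pool.Agent.Lib.MP_d7cc8a_lc.MSO

/-!
Second-order definability calculus, relativisation of second-order sentences to coded
structures, and the cardinalities of the models of a complete second-order theory.
-/

namespace SOCat

open FirstOrder Cardinal

universe u

/-- Relation variables indexed by a type `S`, with arities `ar`. -/
inductive RFam {S : Type} (ar : S → ℕ) : ℕ → Type
  | mk (s : S) : RFam ar (ar s)

/-- A context of relation variables extended by a family. -/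
inductive RSum (ι : ℕ → Type) {S : Type} (ar : S → ℕ) : ℕ → Type
  | inl {m : ℕ} (X : ι m) : RSum ι ar m
  | inr (s : S) : RSum ι ar (ar s)

/-- Families of relations. -/
abbrev RFun (M : Type u) {S : Type} (ar : S → ℕ) : Type u := ∀ s, (Fin (ar s) → M) → Prop

/-! ### Renaming -/

/-- Renaming in an extended context. -/
def RExt.map {ι κ : ℕ → Type} (g : ∀ k, ι k → κ k) {k : ℕ} : ∀ m, RExt ι k m → RExt κ k m
  | _, .new => .new
  | _, .old X => .old (g _ X)

/-- Renaming of variables. -/
def SOForm.map {L : Language.{0, 0}} : ∀ {α β : Type} {ι κ : ℕ → Type}, (α → β) →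
    (∀ k, ι k → κ k) → SOForm L α ι → SOForm L β κ
  | _, _, _, _, _, _, .falsum => .falsum
  | _, _, _, _, f, _, .eq s t => .eq (s.relabel f) (t.relabel f)
  | _, _, _, _, f, _, .rel R ts => .rel R (fun i => (ts i).relabel f)
  | _, _, _, _, f, g, .var X ts => .var (g _ X) (fun i => (ts i).relabel f)
  | _, _, _, _, f, g, .imp φ ψ => .imp (φ.map f g) (ψ.map f g)
  | _, _, _, _, f, g, .all φ => .all (φ.map (Option.map f) g)
  | _, _, _, _, f, g, .allRel k φ => .allRel k (φ.map f (RExt.map g))

theorem consRel_map {M : Type u} {ι κ : ℕ → Type} (g : ∀ k, ι k → κ k) {k : ℕ}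
    (V : REnv M κ) (R : (Fin k → M) → Prop) :
    (fun m X => consRel V R m (RExt.map g m X)) = consRel (fun m X => V m (g m X)) R := by
  funext m X
  cases X <;> rfl

theorem SOForm.realize_map {L : Language.{0, 0}} (M : Type u) [L.Structure M] {α : Type}
    {ι : ℕ → Type} (φ : SOForm L α ι) :
    ∀ {β : Type} {κ : ℕ → Type} (f : α → β) (g : ∀ k, ι k → κ k) (v : β → M) (V : REnv M κ),
      (φ.map f g).Realize M v V ↔ φ.Realize M (v ∘ f) (fun m X => V m (g m X)) := by
  induction φ with
  | falsum => intros; exact Iff.rfl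
  | eq s t =>
    intro β κ f g v V
    simp only [SOForm.map, SOForm.Realize, Language.Term.realize_relabel]
  | rel R ts =>
    intro β κ f g v V
    simp only [SOForm.map, SOForm.Realize, Language.Term.realize_relabel]
  | var X ts =>
    intro β κ f g v V
    simp only [SOForm.map, SOForm.Realize, Language.Term.realize_relabel]
  | imp φ ψ h1 h2 => intro β κ f g v V; exact imp_congr (h1 f g v V) (h2 f g v V)
  | all φ h =>
    intro β κ f g v V
    refine forall_congr' fun x => ?_
    rw [h, cons_map]
  | allRel k φ h =>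
    intro β κ f g v V
    refine forall_congr' fun R => ?_
    rw [h, consRel_map]

/-! ### Definable predicates -/

/-- The predicate `Q` is defined, in all structures, by one second-order formula of the
vocabulary `L`. -/
def SD (L : Language.{0, 0}) {α : Type} {ι : ℕ → Type}
    (Q : ∀ M : Type u, (α → M) → REnv M ι → Prop) : Prop :=
  ∃ φ : SOForm L α ι, ∀ (M : Type u) [L.Structure M] (v : α → M) (V : REnv M ι),
    φ.Realize M v V ↔ Q M v V

section SD

variable {L : Language.{0, 0}} {α β : Type} {ι κ : ℕ → Type}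
  {Q Q' : ∀ M : Type u, (α → M) → REnv M ι → Prop}

theorem SD.congr (h : SD L Q) (h' : ∀ M v V, Q M v V ↔ Q' M v V) : SD L Q' := by
  obtain ⟨φ, hφ⟩ := h
  exact ⟨φ, fun M _ v V => (hφ M v V).trans (h' M v V)⟩

theorem SD.falsum : SD L (fun (M : Type u) (_ : α → M) (_ : REnv M ι) => False) :=
  ⟨.falsum, fun _ _ _ _ => Iff.rfl⟩

theorem SD.eq (x y : α) : SD L (fun (M : Type u) (v : α → M) (_ : REnv M ι) => v x = v y) :=
  ⟨.eq (.var x) (.var y), fun _ _ _ _ => Iff.rfl⟩

theorem SD.var {m : ℕ} (X : ι m) (f : Fin m → α) :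
    SD L (fun (M : Type u) (v : α → M) (V : REnv M ι) => V m X (fun i => v (f i))) :=
  ⟨.var X (fun i => .var (f i)), fun _ _ _ _ => Iff.rfl⟩

theorem SD.imp (h : SD L Q) (h' : SD L Q') : SD L (fun M v V => Q M v V → Q' M v V) := by
  obtain ⟨φ, hφ⟩ := h
  obtain ⟨φ', hφ'⟩ := h'
  exact ⟨.imp φ φ', fun M _ v V => imp_congr (hφ M v V) (hφ' M v V)⟩

theorem SD.not (h : SD L Q) : SD L (fun M v V => ¬ Q M v V) := h.imp SD.falsum

theorem SD.or (h : SD L Q) (h' : SD L Q') : SD L (fun M v V => Q M v V ∨ Q' M v V) :=
  (h.not.imp h').congr fun M v V => by tauto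

theorem SD.and (h : SD L Q) (h' : SD L Q') : SD L (fun M v V => Q M v V ∧ Q' M v V) :=
  ((h.imp h'.not).not).congr fun M v V => by tauto

theorem SD.iff (h : SD L Q) (h' : SD L Q') : SD L (fun M v V => (Q M v V ↔ Q' M v V)) :=
  ((h.imp h').and (h'.imp h)).congr fun M v V => by tauto

theorem SD.true : SD L (fun (M : Type u) (_ : α → M) (_ : REnv M ι) => True) :=
  (SD.falsum.not).congr fun _ _ _ => by tauto

theorem SD.all {Q : ∀ M : Type u, (α → M) → M → REnv M ι → Prop}
    (h : SD L (fun (M : Type u) (v : Option α → M) V => Q M (fun a => v (some a)) (v none) V)) :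
    SD L (fun M v V => ∀ x, Q M v x V) := by
  obtain ⟨φ, hφ⟩ := h
  refine ⟨.all φ, fun M _ v V => ?_⟩
  simp only [SOForm.Realize, hφ, cons_none, cons_some]

theorem SD.ex {Q : ∀ M : Type u, (α → M) → M → REnv M ι → Prop}
    (h : SD L (fun (M : Type u) (v : Option α → M) V => Q M (fun a => v (some a)) (v none) V)) :
    SD L (fun M v V => ∃ x, Q M v x V) :=
  ((SD.all (Q := fun M v x V => ¬ Q M v x V) h.not).not).congr fun M v V => by push Not; rfl

theorem SD.allRel {k : ℕ} {Q : ∀ M : Type u, (α → M) → REnv M ι → ((Fin k → M) → Prop) → Prop}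
    (h : SD L (fun (M : Type u) (v : α → M) (V : REnv M (RExt ι k)) =>
      Q M v (fun m X => V m (.old X)) (V k .new))) :
    SD L (fun M v V => ∀ R, Q M v V R) := by
  obtain ⟨φ, hφ⟩ := h
  refine ⟨.allRel k φ, fun M _ v V => ?_⟩
  exact forall_congr' fun R => hφ M v (consRel V R)

theorem SD.exRel {k : ℕ} {Q : ∀ M : Type u, (α → M) → REnv M ι → ((Fin k → M) → Prop) → Prop}
    (h : SD L (fun (M : Type u) (v : α → M) (V : REnv M (RExt ι k)) =>
      Q M v (fun m X => V m (.old X)) (V k .new))) :
    SD L (fun M v V => ∃ R, Q M v V R) :=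
  ((SD.allRel (Q := fun M v V R => ¬ Q M v V R) h.not).not).congr fun M v V => by push Not; rfl

theorem SD.subst (h : SD L Q) (f : α → β) (g : ∀ k, ι k → κ k) :
    SD L (fun (M : Type u) (v : β → M) (V : REnv M κ) =>
      Q M (fun a => v (f a)) (fun m X => V m (g m X))) := by
  obtain ⟨φ, hφ⟩ := h
  exact ⟨φ.map f g, fun M _ v V => (φ.realize_map M f g v V).trans (hφ M _ _)⟩

theorem SD.finAll {β : Type} [Finite β] : ∀ {α : Type} {ι : ℕ → Type}
    {Q : β → ∀ M : Type u, (α → M) → REnv M ι → Prop}, (∀ b, SD L (Q b)) →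
      SD L (fun M v V => ∀ b, Q b M v V) := by
  induction β using Finite.induction_empty_option with
  | of_equiv e ih =>
    intro α ι Q h
    exact (ih (Q := fun a => Q (e a)) fun a => h _).congr fun M v V =>
      ⟨fun h b => by simpa using h (e.symm b), fun h a => h _⟩
  | h_empty =>
    intro α ι Q h
    exact SD.true.congr fun M v V => ⟨fun _ b => b.elim, fun _ => trivial⟩
  | h_option ih =>
    intro α ι Q h
    exact ((h none).and (ih (Q := fun a => Q (some a)) fun a => h _)).congr fun M v V =>
      ⟨fun h b => by cases b; exacts [h.1, h.2 _], fun h => ⟨h _, fun a => h _⟩⟩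

theorem SD.allFam {β : Type} [Finite β] : ∀ {α : Type} {ι : ℕ → Type}
    {Q : ∀ M : Type u, (α → M) → (β → M) → REnv M ι → Prop},
    SD L (fun (M : Type u) (v : α ⊕ β → M) V =>
      Q M (fun a => v (.inl a)) (fun a => v (.inr a)) V) →
      SD L (fun M v V => ∀ w, Q M v w V) := by
  induction β using Finite.induction_empty_option with
  | of_equiv e ih =>
    intro α ι Q h
    have h2 := ih (Q := fun M v w V => Q M v (fun b => w (e.symm b)) V)
      ((h.subst (Sum.map id e.symm) (fun _ X => X)).congr fun M v V => Iff.rfl)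
    exact h2.congr fun M v V => ⟨fun h w => by
      have := h (fun a => w (e a))
      simpa using this, fun h w => h _⟩
  | h_empty =>
    intro α ι Q h
    have h2 := h.subst (Sum.elim id (fun b : PEmpty => b.elim)) (fun _ X => X)
    exact h2.congr fun M v V => ⟨fun h w => by
      rw [show w = fun b : PEmpty => v (b.elim) from funext fun b => b.elim]
      exact h, fun h => h _⟩
  | h_option ih =>
    intro α ι Q h
    have h3 : SD L (fun (M : Type u) (v : Option α ⊕ _ → M) V =>
        Q M (fun a => v (.inl (some a))) (cons (fun a => v (.inr a)) (v (.inl none))) V) := by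
      refine (h.subst (fun x => match x with
        | .inl a => Sum.inl (some a)
        | .inr none => Sum.inl none
        | .inr (some b) => Sum.inr b) (fun _ X => X)).congr fun M v V => ?_
      have : (fun a => v (match (Sum.inr a : α ⊕ Option _) with
        | .inl a => Sum.inl (some a)
        | .inr none => Sum.inl none
        | .inr (some b) => Sum.inr b)) = cons (fun a => v (.inr a)) (v (.inl none)) := by
        funext o; cases o <;> rfl
      rw [this]
    have h4 := ih (Q := fun M (v : Option α → M) w V => Q M (fun a => v (some a))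
      (cons w (v none)) V) h3
    refine (SD.all (Q := fun M v x V => ∀ w, Q M v (cons w x) V) h4).congr fun M v V => ?_
    exact ⟨fun h w => by
      have := h (w none) (fun a => w (some a))
      rwa [cons_eta] at this, fun h x w => h _⟩

theorem SD.exFam {β : Type} [Finite β] {α : Type} {ι : ℕ → Type}
    {Q : ∀ M : Type u, (α → M) → (β → M) → REnv M ι → Prop}
    (h : SD L (fun (M : Type u) (v : α ⊕ β → M) V =>
      Q M (fun a => v (.inl a)) (fun a => v (.inr a)) V)) :
      SD L (fun M v V => ∃ w, Q M v w V) :=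
  ((SD.allFam (Q := fun M v w V => ¬ Q M v w V) h.not).not).congr fun M v V => by
    push Not; rfl

theorem renv_cast {M : Type u} {ι : ℕ → Type} (V : REnv M ι) {m n : ℕ} (h : m = n) (X : ι m) :
    V n (h ▸ X) = fun xs => V m X (xs ∘ Fin.cast h) := by
  subst h; rfl

/-- A family of relations indexed by `Option β` from one indexed by `β`. -/
def consR {M : Type u} {β : Type} {ar : Option β → ℕ} (U : RFun M (fun b => ar (some b)))
    (R : (Fin (ar none) → M) → Prop) : RFun M ar
  | none => R
  | some b => U b

theorem SD.allFamRel {S : Type} [Finite S] : ∀ (ar : S → ℕ) {α : Type} {ι : ℕ → Type}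
    {Q : ∀ M : Type u, (α → M) → REnv M ι → RFun M ar → Prop},
    SD L (fun (M : Type u) (v : α → M) (V : REnv M (RSum ι ar)) =>
      Q M v (fun m X => V m (.inl X)) (fun s => V _ (.inr s))) →
      SD L (fun M v V => ∀ U, Q M v V U) := by
  induction S using Finite.induction_empty_option with
  | @of_equiv S S' e ih =>
    intro ar α ι Q h
    have key : ∀ b, ar (e (e.symm b)) = ar b := fun b => by rw [e.apply_symm_apply]
    let g : ∀ m, RSum ι ar m → RSum ι (fun s => ar (e s)) m := fun m X => match m, X with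
      | _, .inl X => .inl X
      | _, .inr b => (key b) ▸ .inr (ar := fun s => ar (e s)) (e.symm b)
    have h2 := ih (fun s => ar (e s)) (Q := fun M v V U => Q M v V (fun b xs =>
      U (e.symm b) (xs ∘ Fin.cast (key b)))) ((h.subst id g).congr fun M v V => by
        have : (fun s => V _ (g _ (.inr s))) = fun b xs =>
            V _ (.inr (e.symm b)) (xs ∘ Fin.cast (key b)) := by
          funext b
          exact renv_cast V (key b) _
        simp only [id]
        rw [this])
    refine h2.congr fun M v V => ⟨fun h U => ?_, fun h U => h _⟩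
    have h3 := h (fun a => U (e a))
    have h4 : ∀ (b b' : S') (hb : b' = b) (xs : Fin (ar b) → M),
        U b' (xs ∘ Fin.cast (by rw [hb])) = U b xs := by
      rintro b _ rfl xs; rfl
    have h5 : (fun b xs => (fun a => U (e a)) (e.symm b) (xs ∘ Fin.cast (key b))) = U := by
      funext b xs
      exact h4 b _ (e.apply_symm_apply b) xs
    rwa [h5] at h3
  | h_empty =>
    intro ar α ι Q h
    let g : ∀ m, RSum ι ar m → ι m := fun m X => match m, X with
      | _, .inl X => X
      | _, .inr b => b.elim
    have h2 := h.subst id g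
    exact h2.congr fun M v V => ⟨fun h U => by
      have : U = fun b : PEmpty => b.elim := funext fun b => b.elim
      rw [this]
      have h6 : (fun s => V _ (g _ (.inr s))) = fun b : PEmpty => b.elim :=
        funext fun b => b.elim
      rw [h6] at h
      exact h, fun h => h _⟩
  | @h_option β _ ih =>
    intro ar α ι Q h
    let g : ∀ m, RSum ι ar m → RSum (RExt ι (ar none)) (fun b => ar (some b)) m :=
      fun m X => match m, X with
      | _, .inl X => .inl (.old X)
      | _, .inr none => .inl .new
      | _, .inr (some b) => .inr (ar := fun b => ar (some b)) b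
    have h3 : SD L (fun (M : Type u) (v : α → M)
        (V : REnv M (RSum (RExt ι (ar none)) (fun b => ar (some b)))) =>
        Q M v (fun m X => V m (.inl (.old X)))
          (consR (fun b => V _ (.inr b)) (V _ (.inl .new)))) := by
      refine (h.subst id g).congr fun M v V => ?_
      have : (fun s => V _ (g _ (.inr s))) =
          consR (fun b => V _ (.inr b)) (V _ (.inl .new)) := by
        funext s; cases s <;> rfl
      simp only [id]
      rw [this]
    have h4 := ih (fun b => ar (some b)) (Q := fun M v (V : REnv M (RExt ι (ar none))) U =>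
      Q M v (fun m X => V m (.old X)) (consR U (V _ .new))) h3
    refine (SD.allRel (Q := fun M v V R => ∀ U, Q M v V (consR U R)) h4).congr
      fun M v V => ?_
    exact ⟨fun h U => by
      have h5 := h (U none) (fun a => U (some a))
      have h6 : consR (fun a => U (some a)) (U none) = U := by
        funext s; cases s <;> rfl
      rwa [h6] at h5, fun h R U => h _⟩

theorem SD.exFamRel {S : Type} [Finite S] (ar : S → ℕ) {α : Type} {ι : ℕ → Type}
    {Q : ∀ M : Type u, (α → M) → REnv M ι → RFun M ar → Prop}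
    (h : SD L (fun (M : Type u) (v : α → M) (V : REnv M (RSum ι ar)) =>
      Q M v (fun m X => V m (.inl X)) (fun s => V _ (.inr s)))) :
      SD L (fun M v V => ∃ U, Q M v V U) :=
  ((SD.allFamRel ar (Q := fun M v V U => ¬ Q M v V U) h.not).not).congr fun M v V => by
    push Not; rfl

end SD

/-! ### Coded structures -/

section Coded

variable {L : Language.{0, 0}}

/-- Arities of the relations coding a structure: the domain, the graphs of the functions, and
the relations. -/
def arL (L : Language.{0, 0}) : Option L.Symbols → ℕ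
  | none => 1
  | some (.inl ⟨n, _⟩) => n + 1
  | some (.inr ⟨n, _⟩) => n

/-- The domain of the coded structure. -/
def domP {M : Type u} (U : RFun M (arL L)) (x : M) : Prop := U none (fun _ => x)

/-- The graph of a function of the coded structure. -/
def graphP {M : Type u} (U : RFun M (arL L)) {n : ℕ} (f : L.Functions n) (ys : Fin n → M)
    (z : M) : Prop :=
  U (some (.inl ⟨n, f⟩)) (Fin.cons z ys : Fin (n + 1) → M)

/-- A relation of the coded structure. -/
def relP {M : Type u} (U : RFun M (arL L)) {n : ℕ} (R : L.Relations n) (ys : Fin n → M) : Prop :=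
  U (some (.inr ⟨n, R⟩)) ys

/-- The element `z` is the value of the term in the coded structure. -/
def TG {M : Type u} (U : RFun M (arL L)) {α : Type} (v : α → M) : L.Term α → M → Prop
  | .var a, z => z = v a
  | .func f ts, z => ∃ ys : Fin _ → M, (∀ i, TG U v (ts i) (ys i)) ∧ graphP U f ys z

/-- Truth of a formula in the coded structure. -/
def TrP {M : Type u} (U : RFun M (arL L)) : ∀ {α : Type} {ι : ℕ → Type}, SOForm L α ι →
    (α → M) → REnv M ι → Prop
  | _, _, .falsum, _, _ => False
  | _, _, .eq s t, v, _ => ∃ z, TG U v s z ∧ TG U v t z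
  | _, _, .rel R ts, v, _ => ∃ ys : Fin _ → M, (∀ i, TG U v (ts i) (ys i)) ∧ relP U R ys
  | _, _, .var X ts, v, V => ∃ ys : Fin _ → M, (∀ i, TG U v (ts i) (ys i)) ∧ V _ X ys
  | _, _, .imp φ ψ, v, V => TrP U φ v V → TrP U ψ v V
  | _, _, .all φ, v, V => ∀ x, domP U x → TrP U φ (cons v x) V
  | _, _, .allRel _ φ, v, V => ∀ R, TrP U φ v (consRel V R)

/-- The family `U` of relations on `M` codes the structure `N` through the map `e`. -/
structure Codes {M N : Type u} [L.Structure N] (U : RFun M (arL L)) (e : N → M) : Prop where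
  dom : ∀ x, domP U x ↔ ∃ n, e n = x
  graph : ∀ {n : ℕ} (f : L.Functions n) (ys : Fin n → N) (z : M),
    graphP U f (e ∘ ys) z ↔ z = e (Language.Structure.funMap f ys)
  rel : ∀ {n : ℕ} (R : L.Relations n) (ys : Fin n → N),
    relP U R (e ∘ ys) ↔ Language.Structure.RelMap R ys

theorem Codes.tg {M N : Type u} [L.Structure N] {U : RFun M (arL L)} {e : N → M}
    (h : Codes U e) {α : Type} (v : α → N) (t : L.Term α) :
    ∀ z, TG U (e ∘ v) t z ↔ z = e (t.realize v) := by
  induction t with
  | var a => intro z; exact Iff.rfl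
  | func f ts ih =>
    intro z
    simp only [TG, ih, Language.Term.realize]
    constructor
    · rintro ⟨ys, h1, h2⟩
      rw [show ys = e ∘ (fun i => (ts i).realize v) from funext h1] at h2
      exact (h.graph _ _ _).1 h2
    · intro hz
      exact ⟨e ∘ (fun i => (ts i).realize v), fun i => rfl, (h.graph _ _ _).2 hz⟩

theorem Codes.trP {M N : Type u} [L.Structure N] {U : RFun M (arL L)} {e : N → M}
    (h : Codes U e) (he : Function.Injective e) {α : Type} {ι : ℕ → Type} (φ : SOForm L α ι) :
    ∀ (v : α → N) (V : REnv M ι) (V' : REnv N ι), (∀ m X xs, V m X (e ∘ xs) ↔ V' m X xs) →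
      (TrP U φ (e ∘ v) V ↔ φ.Realize N v V') := by
  induction φ with
  | falsum => intros; exact Iff.rfl
  | eq s t =>
    intro v V V' hV
    simp only [TrP, SOForm.Realize, h.tg]
    constructor
    · rintro ⟨z, h1, h2⟩
      exact he (h1.symm.trans h2)
    · intro h1
      exact ⟨_, rfl, congrArg e h1⟩
  | rel R ts =>
    intro v V V' hV
    simp only [TrP, SOForm.Realize, h.tg]
    constructor
    · rintro ⟨ys, h1, h2⟩
      rw [show ys = e ∘ (fun i => (ts i).realize v) from funext h1] at h2
      exact (h.rel _ _).1 h2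
    · intro h1
      exact ⟨_, fun i => rfl, (h.rel _ _).2 h1⟩
  | var X ts =>
    intro v V V' hV
    simp only [TrP, SOForm.Realize, h.tg]
    constructor
    · rintro ⟨ys, h1, h2⟩
      rw [show ys = e ∘ (fun i => (ts i).realize v) from funext h1] at h2
      exact (hV _ _ _).1 h2
    · intro h1
      exact ⟨_, fun i => rfl, (hV _ _ _).2 h1⟩
  | imp φ ψ h1 h2 => intro v V V' hV; exact imp_congr (h1 v V V' hV) (h2 v V V' hV)
  | all φ ih =>
    intro v V V' hV
    simp only [TrP, SOForm.Realize]
    constructor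
    · intro h1 x
      have h2 := h1 (e x) ((h.dom _).2 ⟨x, rfl⟩)
      rw [← comp_cons] at h2
      exact (ih _ _ _ hV).1 h2
    · intro h1 y hy
      obtain ⟨x, rfl⟩ := (h.dom _).1 hy
      rw [← comp_cons]
      exact (ih _ _ _ hV).2 (h1 x)
  | allRel k φ ih =>
    intro v V V' hV
    simp only [TrP, SOForm.Realize]
    constructor
    · intro h1 R
      refine (ih v (consRel V (fun ys => ∃ xs, ys = e ∘ xs ∧ R xs)) _ ?_).1 (h1 _)
      intro m X xs
      cases X with
      | new =>
        constructor
        · rintro ⟨xs', h2, h3⟩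
          rwa [show xs = xs' from funext fun i => he (congrFun h2 i)]
        · intro h2
          exact ⟨xs, rfl, h2⟩
      | old X => exact hV m X xs
    · intro h1 R
      refine (ih v _ (consRel V' (fun xs => R (e ∘ xs))) ?_).2 (h1 _)
      intro m X xs
      cases X with
      | new => exact Iff.rfl
      | old X => exact hV m X xs

theorem Codes.holds {M N : Type u} [L.Structure N] {U : RFun M (arL L)} {e : N → M}
    (h : Codes U e) (he : Function.Injective e) (θ : SOSentence L) :
    TrP U θ (fun x => x.elim) (fun _ X => X.elim) ↔ Holds N θ := by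
  rw [show (fun x : Empty => (x.elim : M)) = e ∘ (fun x : Empty => x.elim) from
    funext fun x => x.elim]
  exact h.trP he θ (fun x => x.elim) (fun _ X => X.elim) (fun _ X => X.elim)
    (fun m X => X.elim)

/-- Well-codedness. -/
def WC {M : Type u} (U : RFun M (arL L)) : Prop :=
  (∃ x, domP U x) ∧ ∀ (s : Σ n, L.Functions n) (ys : Fin s.1 → M), (∀ i, domP U (ys i)) →
    ∃ z, domP U z ∧ ∀ z', graphP U s.2 ys z' ↔ z' = z

/-- Every structure embedded in `M` is coded. -/
theorem exists_codes {M N : Type u} [L.Structure N] (e : N → M) (he : Function.Injective e) :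
    ∃ U : RFun M (arL L), Codes U e := by
  refine ⟨fun s => match s with
    | none => fun (xs : Fin 1 → M) => ∃ n, e n = xs 0
    | some (.inl ⟨n, f⟩) => fun xs => ∃ ys : Fin n → N, xs = Fin.cons (e
        (Language.Structure.funMap f ys)) (e ∘ ys)
    | some (.inr ⟨n, R⟩) => fun xs => ∃ ys : Fin n → N, xs = e ∘ ys ∧
        Language.Structure.RelMap R ys, ?_, ?_, ?_⟩
  · intro x
    exact Iff.rfl
  · intro n f ys z
    constructor
    · rintro ⟨ys', h⟩
      obtain ⟨h1, h2⟩ := Fin.cons_injective2 h
      rwa [show ys = ys' from funext fun i => he (congrFun h2 i)]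
    · intro h
      exact ⟨ys, by rw [h]⟩
  · intro n R ys
    constructor
    · rintro ⟨ys', h, h2⟩
      rwa [show ys = ys' from funext fun i => he (congrFun h i)]
    · intro h
      exact ⟨ys, rfl, h⟩

theorem Codes.wc {M N : Type u} [L.Structure N] [Nonempty N] {U : RFun M (arL L)} {e : N → M}
    (h : Codes U e) : WC U := by
  refine ⟨⟨e (Classical.arbitrary N), (h.dom _).2 ⟨_, rfl⟩⟩, ?_⟩
  rintro ⟨n, f⟩ ys hys
  choose xs hxs using fun i => (h.dom _).1 (hys i)
  obtain rfl : e ∘ xs = ys := funext hxs
  exact ⟨_, (h.dom _).2 ⟨_, rfl⟩, fun z' => h.graph f xs z'⟩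

/-- A well-coded family codes a structure on the coded domain. -/
theorem WC.exists {M : Type u} {U : RFun M (arL L)} (h : WC U) :
    ∃ (_ : Nonempty {x // domP U x}) (_ : L.Structure {x // domP U x}),
      Codes U (Subtype.val : {x // domP U x} → M) := by
  obtain ⟨⟨x0, hx0⟩, h2⟩ := h
  choose F hF1 hF2 using h2
  let str : L.Structure {x // domP U x} := ⟨fun {n} f ys =>
    ⟨F ⟨n, f⟩ (fun i => (ys i).1) (fun i => (ys i).2), hF1 _ _ _⟩,
    fun {n} R ys => relP U R (fun i => (ys i).1)⟩
  refine ⟨⟨x0, hx0⟩, str, ?_, ?_, ?_⟩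
  · intro x
    constructor
    · intro h
      exact ⟨⟨x, h⟩, rfl⟩
    · rintro ⟨y, rfl⟩
      exact y.2
  · intro n f ys z
    exact hF2 ⟨n, f⟩ _ _ z
  · intro n R ys
    exact Iff.rfl

end Coded

/-! ### Definability of the translation -/

section Def

variable {L L' : Language.{0, 0}} {α β : Type} {ι : ℕ → Type}

/-- The family part of an assignment. -/
abbrev fam {M : Type u} {ι : ℕ → Type} {S : Type} {ar : S → ℕ} (W : REnv M (RSum ι ar)) :
    RFun M ar := fun s => W (ar s) (RSum.inr s)

/-- The rest of an assignment. -/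
abbrev rest {M : Type u} {ι : ℕ → Type} {S : Type} {ar : S → ℕ} (W : REnv M (RSum ι ar)) :
    REnv M ι := fun m X => W m (RSum.inl X)

theorem SD.domP (x : α) : SD L' (fun (M : Type u) (v : α → M)
    (W : REnv M (RSum ι (arL L))) => domP (fam W) (v x)) :=
  SD.var (ι := RSum ι (arL L)) (RSum.inr none) (fun _ => x)

theorem SD.graphP {n : ℕ} (f : L.Functions n) (ys : Fin n → α) (z : α) :
    SD L' (fun (M : Type u) (v : α → M) (W : REnv M (RSum ι (arL L))) =>
      graphP (fam W) f (fun i => v (ys i)) (v z)) := by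
  refine (SD.var (m := n + 1) (ι := RSum ι (arL L)) (RSum.inr (ar := arL L) (some (Sum.inl ⟨n, f⟩)))
    (Fin.cons z ys : Fin (n + 1) → α)).congr fun M v W => ?_
  have : (fun i => v ((Fin.cons z ys : Fin (n + 1) → α) i)) =
      (Fin.cons (v z) (fun i => v (ys i)) : Fin (n + 1) → M) := by
    funext i
    refine Fin.cases ?_ (fun i => ?_) i
    · simp
    · simp
  rw [this]
  exact Iff.rfl

theorem SD.relP {n : ℕ} (R : L.Relations n) (ys : Fin n → α) :
    SD L' (fun (M : Type u) (v : α → M) (W : REnv M (RSum ι (arL L))) =>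
      relP (fam W) R (fun i => v (ys i))) :=
  SD.var (m := n) (ι := RSum ι (arL L)) (RSum.inr (ar := arL L) (some (Sum.inr ⟨n, R⟩))) ys

theorem SD.tg (t : L.Term α) : ∀ {β : Type} (g : α → β) (z : β),
    SD L' (fun (M : Type u) (v : β → M) (W : REnv M (RSum ι (arL L))) =>
      TG (fam W) (fun a => v (g a)) t (v z)) := by
  induction t with
  | var a => intro β g z; exact SD.eq z (g a)
  | func f ts ih =>
    intro β g z
    exact SD.exFam (Q := fun M (v : β → M) w W =>
      (∀ i, TG (fam W) (fun a => v (g a)) (ts i) (w i)) ∧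
        SOCat.graphP (fam W) f w (v z))
      ((SD.finAll fun i => ih i (fun a => Sum.inl (g a)) (Sum.inr i)).and
        (SD.graphP f Sum.inr (Sum.inl z)))

theorem SD.trP (θ : SOForm L α ι) :
    SD L' (fun (M : Type u) (v : α → M) (W : REnv M (RSum ι (arL L))) =>
      TrP (fam W) θ v (rest W)) := by
  induction θ with
  | falsum => exact SD.falsum
  | eq s t =>
    exact SD.ex (Q := fun M v z (W : REnv M (RSum _ (arL L))) =>
      TG (fam W) v s z ∧ TG (fam W) v t z)
      ((SD.tg s some none).and (SD.tg t some none))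
  | rel R ts =>
    exact SD.exFam (Q := fun M v w (W : REnv M (RSum _ (arL L))) =>
      (∀ i, TG (fam W) v (ts i) (w i)) ∧
        SOCat.relP (fam W) R w)
      ((SD.finAll fun i => SD.tg (ts i) Sum.inl (Sum.inr i)).and (SD.relP R Sum.inr))
  | var X ts =>
    exact SD.exFam (Q := fun M v w (W : REnv M (RSum _ (arL L))) =>
      (∀ i, TG (fam W) v (ts i) (w i)) ∧ W _ (RSum.inl X) w)
      ((SD.finAll fun i => SD.tg (ts i) Sum.inl (Sum.inr i)).and (SD.var (ι := RSum _ (arL L)) (RSum.inl X) Sum.inr))
  | imp φ ψ h1 h2 => exact h1.imp h2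
  | all φ ih =>
    exact SD.all (Q := fun M v x (W : REnv M (RSum _ (arL L))) =>
      SOCat.domP (fam W) x → TrP (fam W) φ (cons v x)
        (rest W))
      ((SD.domP none).imp (ih.congr fun M v W => by rw [cons_eta]))
  | @allRel α ι k φ ih =>
    let g : ∀ m, RSum (RExt ι k) (arL L) m → RExt (RSum ι (arL L)) k m := fun m X =>
      match m, X with
      | _, .inl .new => .new
      | _, .inl (.old X) => .old (.inl X)
      | _, .inr s => .old (.inr s)
    refine SD.allRel (Q := fun M v (W : REnv M (RSum _ (arL L))) R =>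
      TrP (fam W) φ v (consRel (rest W) R))
      ((ih.subst id g).congr fun M v V => ?_)
    have : (rest fun m X => V m (g m X)) =
        consRel (fun m X => V m (.old (.inl X))) (V k .new) := by
      funext m X; cases X <;> rfl
    rw [this]
    exact Iff.rfl

instance finite_functions [Finite L.Symbols] : Finite (Σ n, L.Functions n) :=
  Finite.of_injective (Sum.inl : _ → L.Symbols) Sum.inl_injective

theorem SD.wc [Finite L.Symbols] : SD L' (fun (M : Type u) (_ : α → M)
    (W : REnv M (RSum ι (arL L))) => WC (fam W)) := by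
  refine (SD.ex (Q := fun M v x (W : REnv M (RSum _ (arL L))) =>
    SOCat.domP (fam W) x) (SD.domP none)).and (SD.finAll fun s => ?_)
  refine SD.allFam (Q := fun M v ys (W : REnv M (RSum _ (arL L))) =>
    (∀ i, SOCat.domP (fam W) (ys i)) →
      ∃ z, SOCat.domP (fam W) z ∧
        ∀ z', SOCat.graphP (fam W) s.2 ys z' ↔ z' = z) ?_
  refine (SD.finAll fun i => SD.domP (Sum.inr i)).imp ?_
  refine SD.ex (Q := fun M v z (W : REnv M (RSum _ (arL L))) =>
    SOCat.domP (fam W) z ∧
        ∀ z', SOCat.graphP (fam W) s.2 (fun i => v (Sum.inr i)) z' ↔ z' = z) ?_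
  refine (SD.domP none).and ?_
  refine SD.all (Q := fun M (v : Option (_ ⊕ _) → M) z' (W : REnv M (RSum _ (arL L))) =>
    (SOCat.graphP (fam W) s.2 (fun i => v (some (Sum.inr i))) z' ↔ z' = v none)) ?_
  exact (SD.graphP s.2 (fun i => some (some (Sum.inr i))) none).iff (SD.eq none (some none))

end Def

/-! ### The main statements -/

/-- A second-order sentence of a finite vocabulary is coded by a second-order formula of any
other vocabulary. -/
theorem exists_code {L : Language.{0, 0}} [Finite L.Symbols] (θ : SOSentence L) :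
    ∃ (S : Type) (_ : Finite S) (ar : S → ℕ) (Ψ : SOForm Language.empty Empty (RFam ar)),
      (∀ (M N : Type u) [Language.empty.Structure M] [L.Structure N] [Nonempty N] (e : N → M),
        Function.Injective e → Holds N θ → ∃ V, Ψ.Realize M (fun x => x.elim) V) ∧
      (∀ (M : Type u) [Language.empty.Structure M] (V : REnv M (RFam ar)),
        Ψ.Realize M (fun x => x.elim) V →
        ∃ (N : Type u) (_ : Nonempty N) (_ : L.Structure N) (e : N → M),
          Function.Injective e ∧ Holds N θ) := by
  let g : ∀ m, RSum (fun _ => Empty) (arL L) m → RFam (arL L) m := fun m X => match m, X with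
    | _, .inl X => X.elim
    | _, .inr s => .mk s
  have h : SD.{u} Language.empty (fun (M : Type u) (v : Empty → M)
      (V : REnv M (RFam (arL L))) => WC (fun s => V _ (.mk s)) ∧
        TrP (fun s => V _ (.mk s)) θ v (fun _ X => X.elim)) := by
    refine (((SD.wc (α := Empty)).and (SD.trP θ)).subst id g).congr fun M v V => ?_
    have : (rest fun m X => V m (g m X)) = fun _ X => X.elim :=
      funext fun m => funext fun X => X.elim
    rw [this]
    exact Iff.rfl
  obtain ⟨Ψ, hΨ⟩ := h
  refine ⟨Option L.Symbols, inferInstance, arL L, Ψ, ?_, ?_⟩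
  · intro M N _ _ _ e he hN
    obtain ⟨U, hU⟩ := exists_codes (L := L) e he
    exact ⟨fun _ X => match X with | .mk s => U s,
      (hΨ M _ _).2 ⟨hU.wc, (hU.holds he θ).2 hN⟩⟩
  · intro M _ V hV
    obtain ⟨h1, h2⟩ := (hΨ M _ _).1 hV
    obtain ⟨i1, i2, h3⟩ := h1.exists
    exact ⟨_, i1, i2, Subtype.val, Subtype.val_injective,
      (h3.holds Subtype.val_injective θ).1 h2⟩

/-- A finite theory is equivalent to a sentence. -/
theorem exists_conj {L : Language.{0, 0}} {T : Set (SOSentence L)} (hT : T.Finite) :
    ∃ θ : SOSentence L, ∀ (M : Type u) [L.Structure M], Holds M θ ↔ IsModel T M := by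
  induction T, hT using Set.Finite.induction_on with
  | empty =>
    refine ⟨.imp .falsum .falsum, fun M _ => ⟨fun _ φ hφ => (Set.notMem_empty φ hφ).elim, ?_⟩⟩
    intro _
    exact fun h => h
  | @insert φ T _ _ ih =>
    obtain ⟨θ, hθ⟩ := ih
    refine ⟨(SOForm.imp φ θ.neg).neg, fun M _ => ?_⟩
    have h1 : Holds M (SOForm.imp φ θ.neg).neg ↔ (Holds M φ ∧ Holds M θ) := by
      simp only [Holds, SOForm.neg, SOForm.Realize]
      tauto
    rw [h1, hθ]
    simp only [IsModel, Set.forall_mem_insert]

/-- The coded domain is not of smaller cardinality than the whole domain. -/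
def NotSmaller {L : Language.{0, 0}} {M : Type u} (U : RFun M (arL L)) : Prop :=
  ∃ F : (Fin 2 → M) → Prop, (∀ x, ∃ y, domP U y ∧ F ![x, y]) ∧
    ∀ x x' y, F ![x, y] → F ![x', y] → x = x'

theorem SD.new2 {L' : Language.{0, 0}} {α : Type} {ι : ℕ → Type} (a b : α) :
    SD L' (fun (M : Type u) (v : α → M) (V : REnv M (RExt ι 2)) =>
      V 2 RExt.new ![v a, v b]) := by
  refine (SD.var (ι := RExt ι 2) RExt.new ![a, b]).congr fun M v V => ?_
  have : (fun i => v (![a, b] i)) = ![v a, v b] := by
    funext i
    match i with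
    | 0 => rfl
    | 1 => rfl
  rw [this]

theorem SD.big {L L' : Language.{0, 0}} {α : Type} {ι : ℕ → Type} :
    SD L' (fun (M : Type u) (_ : α → M) (W : REnv M (RSum ι (arL L))) => NotSmaller (fam W)) := by
  refine SD.exRel (Q := fun M v (W : REnv M (RSum ι (arL L))) F =>
    (∀ x, ∃ y, SOCat.domP (fam W) y ∧ F ![x, y]) ∧
      ∀ x x' y, F ![x, y] → F ![x', y] → x = x') ?_
  refine SD.and ?_ ?_
  · refine SD.all (Q := fun M v x (V : REnv M (RExt (RSum ι (arL L)) 2)) =>
      ∃ y, SOCat.domP (fam fun m X => V m (RExt.old X)) y ∧ V 2 RExt.new ![x, y]) ?_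
    refine SD.ex (Q := fun M (v : Option _ → M) y (V : REnv M (RExt (RSum ι (arL L)) 2)) =>
      SOCat.domP (fam fun m X => V m (RExt.old X)) y ∧ V 2 RExt.new ![v none, y]) ?_
    exact (SD.var (ι := RExt (RSum ι (arL L)) 2) (RExt.old (RSum.inr (ar := arL L) none))
      (fun _ => none)).and (SD.new2 (some none) none)
  · refine SD.all (Q := fun M v x (V : REnv M (RExt (RSum ι (arL L)) 2)) =>
      ∀ x' y, V 2 RExt.new ![x, y] → V 2 RExt.new ![x', y] → x = x') ?_
    refine SD.all (Q := fun M (v : Option _ → M) x' (V : REnv M (RExt (RSum ι (arL L)) 2)) =>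
      ∀ y, V 2 RExt.new ![v none, y] → V 2 RExt.new ![x', y] → v none = x') ?_
    refine SD.all (Q := fun M (v : Option (Option _) → M) y
      (V : REnv M (RExt (RSum ι (arL L)) 2)) =>
      V 2 RExt.new ![v (some none), y] → V 2 RExt.new ![v none, y] → v (some none) = v none) ?_
    exact (SD.new2 _ _).imp ((SD.new2 _ _).imp (SD.eq _ _))

theorem big_iff {L : Language.{0, 0}} {M N : Type u} [L.Structure N] {U : RFun M (arL L)}
    {e : N → M} (he : Function.Injective e) (h : Codes U e) : NotSmaller U ↔ #M ≤ #N := by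
  constructor
  · rintro ⟨F, h1, h2⟩
    choose g hg1 hg2 using h1
    choose g' hg' using fun x => (h.dom _).1 (hg1 x)
    refine Cardinal.mk_le_of_injective (f := g') fun x x' hx => ?_
    refine h2 x x' (g x) (hg2 x) ?_
    have h3 : g x = g x' := by rw [← hg' x, ← hg' x', hx]
    rw [h3]
    exact hg2 x'
  · rintro ⟨g⟩
    refine ⟨fun xs => xs 1 = e (g (xs 0)), fun x => ⟨e (g x), (h.dom _).2 ⟨_, rfl⟩, rfl⟩, ?_⟩
    intro x x' y h1 h2
    have h3 : y = e (g x) := h1
    have h4 : y = e (g x') := h2
    exact g.injective (he (h3.symm.trans h4))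

/-- A sentence saying that there is a model of `θ` of smaller cardinality. -/
theorem exists_smaller {L : Language.{0, 0}} [Finite L.Symbols] (θ : SOSentence L) :
    ∃ σ : SOSentence L, ∀ (M : Type u) [L.Structure M], Holds M σ ↔
      ∃ (N : Type u) (_ : Nonempty N) (_ : L.Structure N), Holds N θ ∧ #N < #M := by
  obtain ⟨σ, hσ⟩ := SD.exFamRel.{u} (L := L) (arL L) (α := Empty) (ι := fun _ => Empty)
    (Q := fun M v V U => WC U ∧ TrP U θ v V ∧ ¬ NotSmaller U)
    ((SD.wc (ι := fun _ => Empty)).and ((SD.trP θ).and SD.big.not))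
  refine ⟨σ, fun M _ => ?_⟩
  rw [Holds, hσ]
  constructor
  · rintro ⟨U, h1, h2, h3⟩
    obtain ⟨i1, i2, h4⟩ := h1.exists
    refine ⟨_, i1, i2, (h4.holds Subtype.val_injective θ).1 h2, ?_⟩
    · rw [big_iff Subtype.val_injective h4] at h3
      exact not_le.1 h3
  · rintro ⟨N, i1, i2, hN, hlt⟩
    obtain ⟨e⟩ := hlt.le
    obtain ⟨U, hU⟩ := exists_codes (L := L) e e.injective
    refine ⟨U, hU.wc, (hU.holds e.injective θ).2 hN, ?_⟩
    · rw [big_iff e.injective hU]
      exact not_le.2 hlt

/-- All models of a finite complete second-order theory have the same cardinality. -/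
theorem same_card {L : Language.{0, 0}} [Finite L.Symbols] {T : Set (SOSentence L)}
    (hT : T.Finite) (hc : Complete.{u} T) (M N : Type u) [Nonempty M] [Nonempty N]
    [L.Structure M] [L.Structure N] (hM : IsModel T M) (hN : IsModel T N) : #M = #N := by
  obtain ⟨θ, hθ⟩ := exists_conj.{u} hT
  obtain ⟨σ, hσ⟩ := exists_smaller.{u} θ
  have key : ∀ (M N : Type u) [Nonempty M] [Nonempty N] [L.Structure M] [L.Structure N],
      IsModel T M → IsModel T N → ¬ #M < #N := by
    intro M N _ _ _ _ hM hN hlt
    rcases hc σ with h | h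
    · have hmin : ∀ (c : Cardinal.{u}) (K : Type u) [Nonempty K] [L.Structure K],
          #K = c → ¬ IsModel T K := by
        intro c
        induction c using Cardinal.lt_wf.induction with
        | _ c ih =>
          intro K _ _ hK hKT
          obtain ⟨K', _, _, h1, h2⟩ := (hσ K).1 (h K hKT)
          exact ih _ (by rw [← hK]; exact h2) K' rfl ((hθ K').1 h1)
      exact hmin _ M rfl hM
    · have h1 := h N hN
      exact h1 ((hσ N).2 ⟨M, inferInstance, inferInstance, (hθ M).2 hM, hlt⟩)
  exact le_antisymm (not_lt.1 (key N M hN hM)) (not_lt.1 (key M N hM hN))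

end SOCat
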