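import Pool.Agent.Lib.MP_d7cc8a_lc.Final0
import Pool.Agent.Lib.MP_d7cc8a_lc.Rel

/-! `I_0`-cardinals and second-order theories. -/

namespace SOCat

open Order FirstOrder Language Cardinal

universe u

instance finite_rfam {S : Type} [Finite S] (ar : S → ℕ) : Finite (Σ k, RFam ar k) :=
  Finite.of_surjective (fun s : S => (⟨ar s, RFam.mk s⟩ : Σ k, RFam ar k)) (by
    rintro ⟨_, ⟨s⟩⟩
    exact ⟨s, rfl⟩)

/-- Every second-order sentence with a model of cardinality an `I_0`-cardinal has a smaller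
model. -/
theorem IsI0.reflect_sentence {lam : Cardinal.{u}} (h : IsI0 lam) {L : Language.{0, 0}}
    [Finite L.Symbols] (θ : SOSentence L) (M : Type u) [Nonempty M] [L.Structure M]
    (hM : #M = lam) (hθ : Holds M θ) :
    ∃ (N : Type u) (_ : Nonempty N) (_ : L.Structure N), #N < lam ∧ Holds N θ := by
  obtain ⟨S, hS, ar, Ψ, h1, h2⟩ := exists_code.{u} θ
  have hcard : #M = Cardinal.mk lam.ord.ToType := by rw [hM, mk_ord_toType]
  obtain ⟨e⟩ := Cardinal.eq.1 hcard
  let str : ∀ (K : Type u), Language.empty.Structure K := fun K => Language.emptyStructure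
  let := str lam.ord.ToType
  obtain ⟨V, hV⟩ := h1 lam.ord.ToType M e e.injective hθ
  obtain ⟨μ, hμ, V', hV'⟩ := h.reflect_pure Ψ V str hV
  let := str μ.ToType
  obtain ⟨N, hN1, hN2, e', he', hN⟩ := h2 μ.ToType V' hV'
  refine ⟨N, hN1, hN2, ?_, hN⟩
  refine (Cardinal.mk_le_of_injective he').trans_lt ?_
  have h3 : #μ.ToType = μ.card := by simp
  rw [h3]
  exact Cardinal.lt_ord.1 hμ

/-- No finite complete second-order theory has a model whose cardinality is an
`I_0`-cardinal. -/
theorem IsI0.no_complete {lam : Cardinal.{u}} (h : IsI0 lam) {L : Language.{0, 0}}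
    [Finite L.Symbols] {T : Set (SOSentence L)} (hT : T.Finite) (hc : Complete.{u} T)
    (M : Type u) [Nonempty M] [L.Structure M] (hMT : IsModel T M) : #M ≠ lam := by
  intro hM
  obtain ⟨θ, hθ⟩ := exists_conj.{u} hT
  obtain ⟨N, _, _, hN1, hN2⟩ := h.reflect_sentence θ M hM ((hθ M).2 hMT)
  have h3 := same_card hT hc M N hMT ((hθ N).1 hN2)
  rw [← h3, hM] at hN1
  exact lt_irrefl _ hN1

end SOCat
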