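import Pool.Agent.Lib.MP_d7cc8a_lc.Kunen

/-! Facts on `L(A)` and reflection of pure second-order formulas at `I_0`-cardinals. -/

namespace SOCat

open Order FirstOrder Language Cardinal

universe u

/-! The hierarchy `L_α(A)`. -/

theorem relL_zero (A : ZFSet.{u}) : relL A 0 = A := by
  unfold relL
  rw [Ordinal.limitRecOn_zero]

theorem relL_add_one (A : ZFSet.{u}) (α : Ordinal.{u}) : relL A (α + 1) = defPow (relL A α) := by
  unfold relL
  rw [Ordinal.limitRecOn_add_one]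

theorem mem_relL_limit (A : ZFSet.{u}) {γ : Ordinal.{u}} (hγ : IsSuccLimit γ) (x : ZFSet.{u}) :
    x ∈ relL A γ ↔ ∃ β < γ, x ∈ relL A β := by
  unfold relL
  rw [Ordinal.limitRecOn_limit _ _ _ _ hγ, ZFSet.mem_iUnion]
  constructor
  · rintro ⟨β, hβ⟩
    exact ⟨β.1, β.2, hβ⟩
  · rintro ⟨β, h1, h2⟩
    exact ⟨⟨β, h1⟩, h2⟩

theorem classL_trans {A : ZFSet.{u}} (hA : A.IsTransitive) :
    ∀ x ∈ classL A, ∀ y ∈ x, y ∈ classL A := by
  have key : ∀ (α : Ordinal.{u}) (x : ZFSet.{u}), x ∈ relL A α → ∀ y ∈ x, y ∈ classL A := by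
    intro α
    induction α using Ordinal.limitRecOn with
    | zero =>
      intro x hx y hy
      rw [relL_zero] at hx
      exact ⟨0, by rw [relL_zero]; exact hA.subset_of_mem hx hy⟩
    | add_one α ih =>
      intro x hx y hy
      rw [relL_add_one] at hx
      have h1 : x ∈ ZFSet.powerset (relL A α) := ZFSet.sep_subset hx
      exact ⟨α, ZFSet.mem_powerset.1 h1 hy⟩
    | limit γ hγ ih =>
      intro x hx y hy
      obtain ⟨β, h1, h2⟩ := (mem_relL_limit A hγ x).1 hx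
      exact ih β h1 x h2 y hy
  rintro x ⟨α, hx⟩ y hy
  exact key α x hx y hy

theorem subset_classL (A : ZFSet.{u}) : ∀ x ∈ A, x ∈ classL A := fun x hx =>
  ⟨0, by rw [relL_zero]; exact hx⟩

/-! Finite ordinals are fixed. -/

theorem fix_nat {C : Set ZFSet.{u}} (htr : ∀ x ∈ C, ∀ y ∈ x, y ∈ C) (j : C ↪ₑ[memLang] C)
    (m : ℕ) : ∀ z : C, z.1 = (m : Ordinal.{u}).toZFSet → j z = z := by
  have hext : ∀ {x y : C}, (∀ t : C, t.1 ∈ x.1 ↔ t.1 ∈ y.1) → x = y := by
    intro x y hxy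
    refine Subtype.ext (ZFSet.ext fun t => ⟨fun ht => ?_, fun ht => ?_⟩)
    · exact (hxy ⟨t, htr _ x.2 _ ht⟩).1 ht
    · exact (hxy ⟨t, htr _ y.2 _ ht⟩).2 ht
  induction m with
  | zero =>
    intro z hz
    have hz' : ∀ t : C, ¬ t.1 ∈ z.1 := by
      intro t
      rw [hz]
      simp
    have h1 := ((FD.all (Q := fun (v : Unit → C) t => ¬ t.1 ∈ (v ()).1)
      (FD.mem none (some ())).not).pres j (fun _ => z)).1 hz'
    exact hext fun t => ⟨fun ht => absurd ht (h1 t), fun ht => absurd ht (hz' t)⟩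
  | succ m ih =>
    intro z hz
    have hm : (m : Ordinal.{u}).toZFSet ∈ z.1 := by
      rw [hz, Ordinal.toZFSet_mem_toZFSet_iff]
      exact_mod_cast Nat.lt_succ_self m
    let y : C := ⟨_, htr _ z.2 _ hm⟩
    have hy : j y = y := ih y rfl
    have hzy : ∀ t : C, t.1 ∈ z.1 ↔ (t.1 ∈ y.1 ∨ t = y) := by
      intro t
      rw [hz, Nat.cast_succ, Ordinal.toZFSet_add_one, ZFSet.mem_insert_iff, Subtype.ext_iff]
      exact or_comm
    have h1 := ((FD.all (Q := fun (v : Bool → C) t => t.1 ∈ (v false).1 ↔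
      (t.1 ∈ (v true).1 ∨ t = v true)) ((FD.mem none (some false)).iff
        ((FD.mem none (some true)).or (FD.eq none (some true))))).pres j
      (fun b => if b then y else z)).1 hzy
    simp only [Bool.false_eq_true, if_false, if_true] at h1
    refine hext fun t => ?_
    rw [h1, hzy, hy]

/-! Reflection. -/

theorem big_classL {o : Ordinal.{u}} (ho : IsSuccLimit o) :
    Big (classL (ZFSet.vonNeumann (o + 1))) o where
  tr := classL_trans (ZFSet.isTransitive_vonNeumann _)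
  sub x hx := subset_classL _ x (by
    rw [ZFSet.vonNeumann_add_one, ZFSet.mem_powerset]
    exact hx)
  lim := ho

theorem IsI0.aleph0_le {lam : Cardinal.{u}} (h : IsI0 lam) : ℵ₀ ≤ lam := by
  by_contra hno
  obtain ⟨j, κ, hκ, ⟨⟨hC, hne⟩, _⟩⟩ := h
  obtain ⟨n, hn⟩ := Cardinal.lt_aleph0.1 (not_le.1 hno)
  have hκω : κ < Ordinal.omega0 := by
    refine hκ.trans ?_
    rw [hn, Cardinal.ord_natCast]
    exact Ordinal.natCast_lt_omega0 n
  obtain ⟨m, rfl⟩ := Ordinal.lt_omega0.1 hκω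
  exact hne (fix_nat (classL_trans (ZFSet.isTransitive_vonNeumann _)) j m ⟨_, hC⟩ rfl)

theorem IsI0.reflect {lam : Cardinal.{u}} (h : IsI0 lam) {ι : Type} [Finite ι]
    (φ : MSO Empty ι) (W : ι → Set (HV lam.ord))
    (hφ : φ.Realize EV (DV lam.ord) (fun x => x.elim) W) : Refl lam.ord φ := by
  have ho : IsSuccLimit lam.ord := Cardinal.isSuccLimit_ord h.aleph0_le
  obtain ⟨j, κ, hκ, ⟨⟨hC, hne⟩, _⟩⟩ := h
  refine mso_reflect (big_classL ho) j ⟨⟨_, hC⟩, ?_, hne⟩ φ W hφ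
  rw [Ordinal.rank_toZFSet]
  exact hκ

/-- The embedding of an ordinal in `V_o`. -/
theorem exists_conn {o μ : Ordinal.{u}} (hl : Lv o μ) : ∃ c : μ.ToType → HV o, Conn o μ c := by
  refine ⟨fun x => ⟨(x.toOrd : Ordinal.{u}).toZFSet, ZFSet.mem_vonNeumann.2 ?_⟩, hl, ?_, ?_⟩
  · rw [Ordinal.rank_toZFSet]
    exact (x.toOrd.2 : x.toOrd.1 < μ).trans_le hl.hle
  · intro x y hxy
    have h1 := Ordinal.toZFSet_injective (congrArg Subtype.val hxy)
    exact Ordinal.ToType.mk.symm.injective (Subtype.ext h1)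
  · intro x
    constructor
    · rintro ⟨h1, h2⟩
      refine ⟨Ordinal.ToType.mk ⟨x.1.rank, h2⟩, Subtype.ext ?_⟩
      simp only [Ordinal.ToType.toOrd, OrderIso.symm_apply_apply]
      exact h1.toZFSet_rank_eq.symm
    · rintro ⟨m, rfl⟩
      refine ⟨ZFSet.isOrdinal_toZFSet _, ?_⟩
      change (Ordinal.toZFSet _).rank < μ
      rw [Ordinal.rank_toZFSet]
      exact m.toOrd.2

/-- Pure second-order formulas with relation parameters reflect at `I_0`-cardinals. -/
theorem IsI0.reflect_pure {lam : Cardinal.{u}} (h : IsI0 lam) {ι : ℕ → Type}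
    [Finite (Σ k, ι k)] (Ψ : SOForm Language.empty Empty ι)
    (V : REnv lam.ord.ToType ι)
    (hS : ∀ (M : Type u), Language.empty.Structure M)
    (hΨ : @SOForm.Realize Language.empty lam.ord.ToType (hS _) _ _ Ψ (fun x => x.elim) V) :
    ∃ μ < lam.ord, ∃ V' : REnv μ.ToType ι,
      @SOForm.Realize Language.empty μ.ToType (hS _) _ _ Ψ (fun x => x.elim) V' := by
  have ho : IsSuccLimit lam.ord := Cardinal.isSuccLimit_ord h.aleph0_le
  let := hS lam.ord.ToType
  obtain ⟨φ, hφ⟩ := exists_mso.{u, u} Ψ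
  obtain ⟨c, hc⟩ := exists_conn (⟨ho, ho, le_rfl⟩ : Lv lam.ord lam.ord)
  have h1 := (hφ lam.ord lam.ord lam.ord.ToType c hc (fun x => x.elim) V
    (fun X => {z | ∃ ys, z.1 = codeZ X.1 (fun i => (c (ys i)).1) ∧ V X.1 X.2 ys})
    (fun k X xs => (hc.inW_code (V k X) xs).symm)).2 hΨ
  have e1 : (fun a : Empty => c ((fun x : Empty => (x.elim : lam.ord.ToType)) a)) =
    (fun x : Empty => (x.elim : HV lam.ord)) := funext fun a => a.elim
  rw [e1] at h1
  obtain ⟨μ, hμ, hμlim, W', hW'⟩ := h.reflect φ _ h1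
  let := hS μ.ToType
  obtain ⟨c', hc'⟩ := exists_conn (⟨ho, hμlim, hμ.le⟩ : Lv lam.ord μ)
  refine ⟨μ, hμ, fun k X xs => InW (fun i => c' (xs i)) (W' ⟨k, X⟩), ?_⟩
  refine (hφ lam.ord μ μ.ToType c' hc' (fun x => x.elim) _ W' (fun k X xs => Iff.rfl)).1 ?_
  have e2 : (fun a : Empty => c' ((fun x : Empty => (x.elim : μ.ToType)) a)) =
    (fun x : Empty => (x.elim : HV lam.ord)) := funext fun a => a.elim
  rw [e2]
  exact hW'

end SOCat
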