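import Pool.Agent.Lib.MP_d7cc8a_lc.MSO
import Mathlib.SetTheory.Ordinal.Basic

/-! Ranked structures, and classes of embeddings preserving formulas. -/

namespace SOCat

open Function

universe v w

/-- Structures which look like a limit stage of the cumulative hierarchy. -/
structure RS (H : Type v) where
  ε : H → H → Prop
  rk : H → Ordinal.{w}
  ext : ∀ a b, (∀ t, ε t a ↔ ε t b) → a = b
  rk_lt : ∀ {a b}, ε a b → rk a < rk b
  rk_le : ∀ {a b}, (∀ t, ε t a → rk t < rk b) → rk a ≤ rk b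
  comp : ∀ (A : Set H) (z : H), ∃ w, ∀ t, ε t w ↔ (ε t z ∧ t ∈ A)
  vset : ∀ c, ∃ v, ∀ t, ε t v ↔ rk t < rk c
  nomax : ∀ x, ∃ y, rk x < rk y
  down : ∀ (o : Ordinal.{w}) c, o ≤ rk c → ∃ e, rk e = o
  pr : H → H → H
  pr_inj : ∀ {a b c d}, pr a b = pr c d → a = c ∧ b = d
  md_rk : MD ε (fun (v : Bool → H) (_ : Empty → Set H) => rk (v false) ≤ rk (v true))
  md_pr : MD ε (fun (v : Option Bool → H) (_ : Empty → Set H) =>
    v none = pr (v (some false)) (v (some true)))

namespace RS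

variable {H : Type v} (S : RS.{v, w} H) {α β ι κ : Type}

/-- Action of a map on sets. -/
def plus (k : H → H) (A : Set H) : Set H :=
  {y | ∃ z w, (∀ t, S.ε t w ↔ (S.ε t z ∧ t ∈ A)) ∧ S.ε y (k w)}

/-- The map `k` preserves the predicate `Q`. -/
def Pres (k : H → H) (Q : (α → H) → (ι → Set H) → Prop) : Prop :=
  ∀ v W, Q v W ↔ Q (fun a => k (v a)) (fun X => S.plus k (W X))

theorem md_rkle (a b : α) : MD S.ε (fun v (_ : ι → Set H) => S.rk (v a) ≤ S.rk (v b)) :=
  (S.md_rk.subst (fun x => if x then b else a) (fun e => e.elim)).congr fun v W => by simp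

theorem md_rklt (a b : α) : MD S.ε (fun v (_ : ι → Set H) => S.rk (v a) < S.rk (v b)) :=
  (S.md_rkle b a).not.congr fun v W => by simp

theorem md_preq (a b c : α) : MD S.ε (fun v (_ : ι → Set H) => v c = S.pr (v a) (v b)) :=
  (S.md_pr.subst (fun x => match x with
    | none => c
    | some false => a
    | some true => b) (fun e => e.elim)).congr fun v W => by simp

theorem md_app (a b : α) (K : ι) : MD S.ε (fun v W => S.pr (v a) (v b) ∈ W K) := by
  have h : MD S.ε (fun (v : α → H) (W : ι → Set H) => ∃ z, z = S.pr (v a) (v b) ∧ z ∈ W K) :=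
    MD.ex (Q := fun v z W => z = S.pr (v a) (v b) ∧ z ∈ W K)
      ((S.md_preq (some a) (some b) none).and (MD.inn none K))
  exact h.congr fun v W => by simp

/-- The set `B` is the image of `A` under the map with graph `K`. -/
def PlusEq (K A B : Set H) : Prop :=
  ∀ y, y ∈ B ↔ ∃ z w w', (∀ t, S.ε t w ↔ (S.ε t z ∧ t ∈ A)) ∧ S.pr w w' ∈ K ∧ S.ε y w'

theorem md_plusEq (K A B : ι) : MD S.ε (fun (_ : α → H) W => S.PlusEq (W K) (W A) (W B)) := by
  refine MD.all (Q := fun _ y W => y ∈ W B ↔ ∃ z w w',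
    (∀ t, S.ε t w ↔ (S.ε t z ∧ t ∈ W A)) ∧ S.pr w w' ∈ W K ∧ S.ε y w') ?_
  refine (MD.inn none B).iff (MD.ex (Q := fun v z W => ∃ w w',
    (∀ t, S.ε t w ↔ (S.ε t z ∧ t ∈ W A)) ∧ S.pr w w' ∈ W K ∧ S.ε (v none) w') (MD.ex
    (Q := fun v w W => ∃ w',
    (∀ t, S.ε t w ↔ (S.ε t (v none) ∧ t ∈ W A)) ∧ S.pr w w' ∈ W K ∧ S.ε (v (some none)) w')
    (MD.ex (Q := fun v w' W =>
    (∀ t, S.ε t (v none) ↔ (S.ε t (v (some none)) ∧ t ∈ W A)) ∧ S.pr (v none) w' ∈ W K ∧
      S.ε (v (some (some none))) w') ?_)))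
  refine (MD.all (Q := fun v t W => S.ε t (v (some none)) ↔
    (S.ε t (v (some (some none))) ∧ t ∈ W A)) ?_).and
    ((S.md_app (some none) none K).and (MD.mem (some (some (some none))) none))
  exact (MD.mem none (some (some none))).iff
    ((MD.mem none (some (some (some none)))).and (MD.inn none A))

/-- `K` is the graph of a map. -/
def Graph (K : Set H) : Prop := ∀ x, ∃ y, S.pr x y ∈ K ∧ ∀ z, S.pr x z ∈ K → z = y

theorem md_graph (K : ι) : MD S.ε (fun (_ : α → H) W => S.Graph (W K)) := by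
  refine MD.all (Q := fun _ x W => ∃ y, S.pr x y ∈ W K ∧ ∀ z, S.pr x z ∈ W K → z = y) ?_
  refine MD.ex (Q := fun v y W => S.pr (v none) y ∈ W K ∧
    ∀ z, S.pr (v none) z ∈ W K → z = y) ?_
  refine (S.md_app (some none) none K).and (MD.all (Q := fun v z W =>
    S.pr (v (some none)) z ∈ W K → z = v none) ?_)
  exact (S.md_app (some (some none)) none K).imp (MD.eq none (some none))

/-- `K` is the graph of `k`. -/
def IsGr (K : Set H) (k : H → H) : Prop := ∀ x y, S.pr x y ∈ K ↔ y = k x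

/-- The graph of a map. -/
def gr (k : H → H) : Set H := {z | ∃ x, z = S.pr x (k x)}

theorem isGr_gr (k : H → H) : S.IsGr (S.gr k) k := by
  intro x y
  constructor
  · rintro ⟨x', h⟩
    obtain ⟨rfl, rfl⟩ := S.pr_inj h
    rfl
  · rintro rfl
    exact ⟨x, rfl⟩

theorem graph_iff (K : Set H) : S.Graph K ↔ ∃ k, S.IsGr K k := by
  constructor
  · intro h
    choose k hk1 hk2 using h
    exact ⟨k, fun x y => ⟨fun h => hk2 x y h, fun h => h ▸ hk1 x⟩⟩
  · rintro ⟨k, hk⟩ x
    exact ⟨k x, (hk x _).2 rfl, fun z hz => (hk x z).1 hz⟩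

variable {S}

theorem IsGr.plusEq {K : Set H} {k : H → H} (hK : S.IsGr K k) (A B : Set H) :
    S.PlusEq K A B ↔ B = S.plus k A := by
  constructor
  · intro h
    ext y
    rw [h]
    constructor
    · rintro ⟨z, w, w', h1, h2, h3⟩
      rw [(hK _ _).1 h2] at h3
      exact ⟨z, w, h1, h3⟩
    · rintro ⟨z, w, h1, h3⟩
      exact ⟨z, w, k w, h1, (hK _ _).2 rfl, h3⟩
  · rintro rfl y
    constructor
    · rintro ⟨z, w, h1, h3⟩
      exact ⟨z, w, k w, h1, (hK _ _).2 rfl, h3⟩
    · rintro ⟨z, w, w', h1, h2, h3⟩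
      rw [(hK _ _).1 h2] at h3
      exact ⟨z, w, h1, h3⟩

variable (S)

/-- Preservation of a predicate by the map with graph `K`. -/
def PresK (Q : (α → H) → (ι → Set H) → Prop) (K : Set H) : Prop :=
  ∀ v v' : α → H, (∀ a, S.pr (v a) (v' a) ∈ K) → ∀ W W' : ι → Set H,
    (∀ X, S.PlusEq K (W X) (W' X)) → (Q v W ↔ Q v' W')

theorem md_presK [Finite β] [Finite κ] {Q : (β → H) → (κ → Set H) → Prop} (hQ : MD S.ε Q)
    (K : ι) : MD S.ε (fun (_ : α → H) W => S.PresK Q (W K)) := by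
  refine MD.allFam (Q := fun _ v W => ∀ v' : β → H, (∀ a, S.pr (v a) (v' a) ∈ W K) →
    ∀ U U' : κ → Set H, (∀ X, S.PlusEq (W K) (U X) (U' X)) → (Q v U ↔ Q v' U')) ?_
  refine MD.allFam (Q := fun (v : α ⊕ β → H) v' W =>
    (∀ a, S.pr (v (Sum.inr a)) (v' a) ∈ W K) →
    ∀ U U' : κ → Set H, (∀ X, S.PlusEq (W K) (U X) (U' X)) →
      (Q (fun a => v (Sum.inr a)) U ↔ Q v' U')) ?_
  refine MD.imp (MD.finAll fun a => S.md_app (Sum.inl (Sum.inr a)) (Sum.inr a) K) ?_
  refine MD.allFamS (Q := fun (v : (α ⊕ β) ⊕ β → H) W U => ∀ U' : κ → Set H,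
    (∀ X, S.PlusEq (W K) (U X) (U' X)) →
      (Q (fun a => v (Sum.inl (Sum.inr a))) U ↔ Q (fun a => v (Sum.inr a)) U')) ?_
  refine MD.allFamS (Q := fun (v : (α ⊕ β) ⊕ β → H) (W : ι ⊕ κ → Set H) U' =>
    (∀ X, S.PlusEq (W (Sum.inl K)) (W (Sum.inr X)) (U' X)) →
      (Q (fun a => v (Sum.inl (Sum.inr a))) (fun X => W (Sum.inr X)) ↔
        Q (fun a => v (Sum.inr a)) U')) ?_
  refine MD.imp (MD.finAll fun X => S.md_plusEq (Sum.inl (Sum.inl K)) (Sum.inl (Sum.inr X))
    (Sum.inr X)) ?_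
  exact (hQ.subst (fun a => Sum.inl (Sum.inr a)) (fun X => Sum.inl (Sum.inr X))).iff
    (hQ.subst (fun a => Sum.inr a) (fun X => Sum.inr X))

variable {S}

theorem IsGr.presK {K : Set H} {k : H → H} (hK : S.IsGr K k)
    (Q : (α → H) → (ι → Set H) → Prop) : S.PresK Q K ↔ S.Pres k Q := by
  constructor
  · intro h v W
    exact h v _ (fun a => (hK _ _).2 rfl) W _ (fun X => (hK.plusEq _ _).2 rfl)
  · intro h v v' hv W W' hW
    have e1 : v' = fun a => k (v a) := funext fun a => (hK _ _).1 (hv a)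
    have e2 : W' = fun X => S.plus k (W X) := funext fun X => (hK.plusEq _ _).1 (hW X)
    rw [e1, e2]
    exact h v W

variable (S)

/-- `c` has the rank of the critical point of `k`. -/
def Crit (k : H → H) (c : H) : Prop :=
  (∀ x, S.rk x < S.rk c → k x = x) ∧ ∀ y, S.rk c ≤ S.rk y → S.rk y < S.rk (k y)

/-- The same for graphs. -/
def CritK (K : Set H) (c : H) : Prop :=
  (∀ x, S.rk x < S.rk c → S.pr x x ∈ K) ∧
    ∀ y y', S.pr y y' ∈ K → S.rk c ≤ S.rk y → S.rk y < S.rk y'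

theorem md_critK (K : ι) (c : α) : MD S.ε (fun v W => S.CritK (W K) (v c)) := by
  refine MD.and (MD.all (Q := fun v x W => S.rk x < S.rk (v c) → S.pr x x ∈ W K) ?_)
    (MD.all (Q := fun v y W => ∀ y', S.pr y y' ∈ W K → S.rk (v c) ≤ S.rk y →
      S.rk y < S.rk y') (MD.all (Q := fun v y' W => S.pr (v none) y' ∈ W K →
        S.rk (v (some c)) ≤ S.rk (v none) → S.rk (v none) < S.rk y') ?_))
  · exact (S.md_rklt none (some c)).imp (S.md_app none none K)
  · exact (S.md_app (some none) none K).imp ((S.md_rkle (some (some c)) (some none)).imp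
      (S.md_rklt (some none) none))

variable {S}

theorem IsGr.critK {K : Set H} {k : H → H} (hK : S.IsGr K k) (c : H) :
    S.CritK K c ↔ S.Crit k c := by
  constructor
  · rintro ⟨h1, h2⟩
    exact ⟨fun x hx => ((hK _ _).1 (h1 x hx)).symm, fun y hy => h2 y _ ((hK _ _).2 rfl) hy⟩
  · rintro ⟨h1, h2⟩
    refine ⟨fun x hx => (hK _ _).2 (h1 x hx).symm, fun y y' h hy => ?_⟩
    rw [(hK _ _).1 h]
    exact h2 y hy

variable (S)

/-- The set `X` is cofinal below `e`, and of order type `ω`. -/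
def Cof (X : Set H) (e : H) : Prop :=
  (∀ x ∈ X, S.rk x < S.rk e) ∧ (∀ y, S.rk y < S.rk e → ∃ x ∈ X, S.rk y < S.rk x) ∧
    ∀ Y : Set H, (∀ y ∈ Y, y ∈ X) → (∃ y, y ∈ Y) →
      (∃ b, S.rk b < S.rk e ∧ ∀ y ∈ Y, S.rk y ≤ S.rk b) →
      ∃ m, m ∈ Y ∧ ∀ y ∈ Y, S.rk y ≤ S.rk m

theorem md_cof (X : ι) (e : α) : MD S.ε (fun v W => S.Cof (W X) (v e)) := by
  refine MD.and ?_ (MD.and ?_ ?_)
  · refine MD.all (Q := fun v x W => x ∈ W X → S.rk x < S.rk (v e)) ?_
    exact (MD.inn none X).imp (S.md_rklt none (some e))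
  · refine MD.all (Q := fun v y W => S.rk y < S.rk (v e) → ∃ x ∈ W X, S.rk y < S.rk x) ?_
    refine (S.md_rklt none (some e)).imp (MD.ex (Q := fun v x W => x ∈ W X ∧
      S.rk (v none) < S.rk x) ?_)
    exact (MD.inn none X).and (S.md_rklt (some none) none)
  · refine MD.allS (Q := fun v W Y => (∀ y ∈ Y, y ∈ W X) → (∃ y, y ∈ Y) →
      (∃ b, S.rk b < S.rk (v e) ∧ ∀ y ∈ Y, S.rk y ≤ S.rk b) →
      ∃ m, m ∈ Y ∧ ∀ y ∈ Y, S.rk y ≤ S.rk m) ?_
    refine MD.imp ?_ (MD.imp ?_ (MD.imp ?_ ?_))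
    · refine MD.all (Q := fun v y W => y ∈ W none → y ∈ W (some X)) ?_
      exact (MD.inn none none).imp (MD.inn none (some X))
    · exact MD.ex (Q := fun v y W => y ∈ W none) (MD.inn none none)
    · refine MD.ex (Q := fun v b W => S.rk b < S.rk (v e) ∧
        ∀ y ∈ W none, S.rk y ≤ S.rk b) ?_
      refine (S.md_rklt none (some e)).and (MD.all (Q := fun v y W => y ∈ W none →
        S.rk y ≤ S.rk (v none)) ?_)
      exact (MD.inn none none).imp (S.md_rkle none (some none))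
    · refine MD.ex (Q := fun v m W => m ∈ W none ∧ ∀ y ∈ W none, S.rk y ≤ S.rk m) ?_
      refine (MD.inn none none).and (MD.all (Q := fun v y W => y ∈ W none →
        S.rk y ≤ S.rk (v none)) ?_)
      exact (MD.inn none none).imp (S.md_rkle none (some none))

/-- Basic preservation properties. -/
structure Basic (k : H → H) : Prop where
  mem : ∀ x y, S.ε x y ↔ S.ε (k x) (k y)
  rkle : ∀ x y, S.rk x ≤ S.rk y ↔ S.rk (k x) ≤ S.rk (k y)
  inter : ∀ u w w', (∀ t, S.ε t u ↔ (S.ε t w ∧ S.ε t w')) →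
    (∀ t, S.ε t (k u) ↔ (S.ε t (k w) ∧ S.ε t (k w')))
  vset : ∀ u c, (∀ t, S.ε t u ↔ S.rk t < S.rk c) → (∀ t, S.ε t (k u) ↔ S.rk t < S.rk (k c))
  cof : ∀ X e, S.Cof X e → S.Cof (S.plus k X) (k e)

/-- The predicates whose preservation gives `Basic`. -/
def basicK (K : Set H) : Prop :=
  S.PresK (fun (v : Bool → H) (_ : Empty → Set H) => S.ε (v false) (v true)) K ∧
  S.PresK (fun (v : Bool → H) (_ : Empty → Set H) => S.rk (v false) ≤ S.rk (v true)) K ∧
  S.PresK (fun (v : Option Bool → H) (_ : Empty → Set H) => ∀ t, S.ε t (v none) ↔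
    (S.ε t (v (some false)) ∧ S.ε t (v (some true)))) K ∧
  S.PresK (fun (v : Bool → H) (_ : Empty → Set H) => ∀ t, S.ε t (v false) ↔
    S.rk t < S.rk (v true)) K ∧
  S.PresK (fun (v : Unit → H) (W : Unit → Set H) => S.Cof (W ()) (v ())) K

theorem md_i1 : MD S.ε (fun (v : Bool → H) (_ : Empty → Set H) => S.ε (v false) (v true)) :=
  MD.mem _ _

theorem md_i2 : MD S.ε (fun (v : Bool → H) (_ : Empty → Set H) =>
    S.rk (v false) ≤ S.rk (v true)) := S.md_rkle _ _

theorem md_i3 : MD S.ε (fun (v : Option Bool → H) (_ : Empty → Set H) => ∀ t, S.ε t (v none) ↔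
    (S.ε t (v (some false)) ∧ S.ε t (v (some true)))) :=
  MD.all (Q := fun v t _ => S.ε t (v none) ↔ (S.ε t (v (some false)) ∧ S.ε t (v (some true))))
    ((MD.mem none (some none)).iff ((MD.mem none (some (some false))).and
      (MD.mem none (some (some true)))))

theorem md_i4 : MD S.ε (fun (v : Bool → H) (_ : Empty → Set H) => ∀ t, S.ε t (v false) ↔
    S.rk t < S.rk (v true)) :=
  MD.all (Q := fun v t _ => S.ε t (v false) ↔ S.rk t < S.rk (v true))
    ((MD.mem none (some false)).iff (S.md_rklt none (some true)))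

theorem md_i5 : MD S.ε (fun (v : Unit → H) (W : Unit → Set H) => S.Cof (W ()) (v ())) :=
  S.md_cof () ()

theorem md_basicK (K : ι) : MD S.ε (fun (_ : α → H) W => S.basicK (W K)) :=
  (S.md_presK S.md_i1 K).and ((S.md_presK S.md_i2 K).and ((S.md_presK S.md_i3 K).and
    ((S.md_presK S.md_i4 K).and (S.md_presK S.md_i5 K))))

variable {S}

theorem IsGr.basic {K : Set H} {k : H → H} (hK : S.IsGr K k) (h : S.basicK K) : S.Basic k := by
  obtain ⟨h1, h2, h3, h4, h5⟩ := h
  rw [hK.presK] at h1 h2 h3 h4 h5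
  refine ⟨fun x y => ?_, fun x y => ?_, fun u w w' => ?_, fun u c => ?_, fun X e => ?_⟩
  · exact h1 (fun b => if b then y else x) (fun e => e.elim)
  · exact h2 (fun b => if b then y else x) (fun e => e.elim)
  · exact (h3 (cons (fun b => if b then w' else w) u) (fun e => e.elim)).1
  · exact (h4 (fun b => if b then c else u) (fun e => e.elim)).1
  · exact (h5 (fun _ => e) (fun _ => X)).1

variable (S)

/-- The statement reflected in the induction step. -/
def SQ (G : Set H → Prop) (v : Bool → H) (W : Option (Bool × ι) → Set H) : Prop :=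
  ∃ K, (S.Graph K ∧ G K) ∧ (∀ X, S.PlusEq K (W (some (false, X))) (W (some (true, X)))) ∧
    (∃ B, S.PlusEq K B (W none)) ∧ (∀ x, S.rk x ≤ S.rk (v false) → S.pr x x ∈ K) ∧
    ∃ c, S.rk c < S.rk (v true) ∧ S.CritK K c

theorem md_SQ [Finite ι] {G : Set H → Prop}
    (hG : MD S.ε (fun (_ : Empty → H) (W : Unit → Set H) => G (W ()))) :
    MD S.ε (fun v (W : Option (Bool × ι) → Set H) => S.SQ G v W) := by
  refine MD.exS (Q := fun v W K => (S.Graph K ∧ G K) ∧
    (∀ X, S.PlusEq K (W (some (false, X))) (W (some (true, X)))) ∧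
    (∃ B, S.PlusEq K B (W none)) ∧ (∀ x, S.rk x ≤ S.rk (v false) → S.pr x x ∈ K) ∧
    ∃ c, S.rk c < S.rk (v true) ∧ S.CritK K c) ?_
  refine ((S.md_graph none).and (hG.subst (fun e => e.elim) (fun _ => none))).and
    ((MD.finAll fun X => S.md_plusEq none (some (some (false, X)))
      (some (some (true, X)))).and ((MD.exS (Q := fun v W B => S.PlusEq (W none) B
        (W (some none))) (S.md_plusEq (some none) none (some (some none)))).and
      ((MD.all (Q := fun v x W => S.rk x ≤ S.rk (v false) → S.pr x x ∈ W none) ?_).and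
      (MD.ex (Q := fun v c W => S.rk c < S.rk (v true) ∧ S.CritK (W none) c) ?_))))
  · exact (S.md_rkle none (some false)).imp (S.md_app none none none)
  · exact (S.md_rklt none (some true)).and (S.md_critK none none)

/-- Good embeddings for a formula. -/
def GK : ∀ {α ι : Type}, MSO α ι → Set H → Prop
  | _, _, .falsum, K => S.basicK K
  | α, ι, .eq x y, K => S.basicK K ∧
      S.PresK (fun (v : α → H) (W : ι → Set H) => (MSO.eq x y).Realize S.ε Set.univ v W) K
  | α, ι, .mem x y, K => S.basicK K ∧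
      S.PresK (fun (v : α → H) (W : ι → Set H) => (MSO.mem x y).Realize S.ε Set.univ v W) K
  | α, ι, .inn x X, K => S.basicK K ∧
      S.PresK (fun (v : α → H) (W : ι → Set H) => (MSO.inn x X).Realize S.ε Set.univ v W) K
  | _, _, .imp φ ψ, K => GK φ K ∧ GK ψ K
  | α, ι, .all φ, K => GK φ K ∧
      S.PresK (fun (v : α → H) (W : ι → Set H) => (MSO.all φ).Realize S.ε Set.univ v W) K ∧
      S.PresK (fun (v : Option α → H) (W : ι → Set H) =>
        ¬ φ.Realize S.ε Set.univ v W ∧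
        ∀ y, ¬ φ.Realize S.ε Set.univ (cons (fun a => v (some a)) y) W →
          S.rk (v none) ≤ S.rk y) K
  | α, ι, .allS φ, K => GK φ K ∧
      S.PresK (fun (v : α → H) (W : ι → Set H) => (MSO.allS φ).Realize S.ε Set.univ v W) K ∧
      S.PresK (S.SQ (ι := ι) (fun K' => GK φ K')) K

theorem md_min (φ : MSO (Option α) ι) : MD S.ε (fun (v : Option α → H) (W : ι → Set H) =>
        ¬ φ.Realize S.ε Set.univ v W ∧
        ∀ y, ¬ φ.Realize S.ε Set.univ (cons (fun a => v (some a)) y) W →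
          S.rk (v none) ≤ S.rk y) := by
  refine (MD.of_formula φ).not.and (MD.all (Q := fun v y W =>
    ¬ φ.Realize S.ε Set.univ (cons (fun a => v (some a)) y) W → S.rk (v none) ≤ S.rk y) ?_)
  refine MD.imp ?_ (S.md_rkle (some none) none)
  refine ((MD.of_formula φ).not.subst (fun o => match o with
    | none => none
    | some a => some (some a)) id).congr fun v W => ?_
  have : (fun a => v (match a with
    | none => none
    | some a => some (some a))) = cons (fun a => v (some (some a))) (v none) := by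
    funext o; cases o <;> rfl
  rw [this]
  rfl

theorem md_GK (φ : MSO α ι) : ∀ [Finite α] [Finite ι] {β κ : Type} (K : κ),
    MD S.ε (fun (_ : β → H) (W : κ → Set H) => S.GK φ (W K)) := by
  induction φ with
  | falsum => intro _ _ β κ K; exact S.md_basicK K
  | eq x y =>
    intro _ _ β κ K; exact (S.md_basicK K).and (S.md_presK (MD.of_formula _) K)
  | mem x y =>
    intro _ _ β κ K; exact (S.md_basicK K).and (S.md_presK (MD.of_formula _) K)
  | inn x X =>
    intro _ _ β κ K; exact (S.md_basicK K).and (S.md_presK (MD.of_formula _) K)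
  | imp φ ψ h1 h2 => intro _ _ β κ K; exact (h1 K).and (h2 K)
  | all φ h =>
    intro _ _ β κ K
    exact (h K).and ((S.md_presK (MD.of_formula _) K).and (S.md_presK (S.md_min φ) K))
  | allS φ h =>
    intro _ _ β κ K
    exact (h K).and ((S.md_presK (MD.of_formula _) K).and (S.md_presK (S.md_SQ (h ())) K))

variable {S}

theorem GK.basic {φ : MSO α ι} {K : Set H} (h : S.GK φ K) : S.basicK K := by
  induction φ with
  | falsum => exact h
  | eq x y => exact h.1
  | mem x y => exact h.1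
  | inn x X => exact h.1
  | imp φ ψ h1 h2 => exact h1 h.1
  | all φ h1 => exact h1 h.1
  | allS φ h1 => exact h1 h.1

theorem GK.pres {φ : MSO α ι} {K : Set H} {k : H → H} (hK : S.IsGr K k) (h : S.GK φ K) :
    S.Pres k (fun v W => φ.Realize S.ε Set.univ v W) := by
  induction φ with
  | falsum => intro v W; exact Iff.rfl
  | eq x y => exact (hK.presK _).1 h.2
  | mem x y => exact (hK.presK _).1 h.2
  | inn x X => exact (hK.presK _).1 h.2
  | imp φ ψ h1 h2 =>
    intro v W
    exact imp_congr (h1 h.1 v W) (h2 h.2 v W)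
  | all φ _ => exact (hK.presK _).1 h.2.1
  | allS φ _ => exact (hK.presK _).1 h.2.1

/-- A map preserving all definable predicates is good for all formulas. -/
theorem GK_of_elementary {j : H → H} {K : Set H} (hK : S.IsGr K j)
    (hj : ∀ {α ι : Type} [Finite α] [Finite ι] (Q : (α → H) → (ι → Set H) → Prop),
      MD S.ε Q → S.Pres j Q) {α ι : Type} (φ : MSO α ι) :
    ∀ [Finite α] [Finite ι], S.GK φ K := by
  have hb : S.basicK K := ⟨(hK.presK _).2 (hj _ S.md_i1), (hK.presK _).2 (hj _ S.md_i2),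
    (hK.presK _).2 (hj _ S.md_i3), (hK.presK _).2 (hj _ S.md_i4), (hK.presK _).2 (hj _ S.md_i5)⟩
  induction φ with
  | falsum => intro _ _; exact hb
  | eq x y => intro _ _; exact ⟨hb, (hK.presK _).2 (hj _ (MD.of_formula _))⟩
  | mem x y => intro _ _; exact ⟨hb, (hK.presK _).2 (hj _ (MD.of_formula _))⟩
  | inn x X => intro _ _; exact ⟨hb, (hK.presK _).2 (hj _ (MD.of_formula _))⟩
  | imp φ ψ h1 h2 => intro _ _; exact ⟨h1, h2⟩
  | all φ h =>
    intro _ _
    exact ⟨h, (hK.presK _).2 (hj _ (MD.of_formula _)), (hK.presK _).2 (hj _ (S.md_min φ))⟩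
  | allS φ h =>
    intro _ _
    exact ⟨h, (hK.presK _).2 (hj _ (MD.of_formula _)),
      (hK.presK _).2 (hj _ (S.md_SQ (S.md_GK φ ())))⟩

end RS

end SOCat
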