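import Pool.Agent.Lib.MP_d7cc8a_lc.Good
import Mathlib.Order.OrderIsoNat

/-! Inverse limit reflection for monadic second-order formulas. -/

namespace SOCat

set_option linter.unusedVariables false

open Function

universe v w

namespace RS

variable {H : Type v} {S : RS.{v, w} H} {α β ι κ : Type}

theorem exists_mem (S : RS.{v, w} H) (x : H) : ∃ z, S.ε x z := by
  obtain ⟨y, hy⟩ := S.nomax x
  obtain ⟨z, hz⟩ := S.vset y
  exact ⟨z, (hz x).2 hy⟩

theorem exists_vset (S : RS.{v, w} H) (c : H) :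
    ∃ u, (∀ t, S.ε t u ↔ S.rk t < S.rk c) ∧ S.rk u ≤ S.rk c := by
  obtain ⟨u, hu⟩ := S.vset c
  exact ⟨u, hu, S.rk_le fun t ht => (hu t).1 ht⟩

theorem exists_part (S : RS.{v, w} H) (B : Set H) (c : H) :
    ∃ u, (∀ t, S.ε t u ↔ (S.rk t < S.rk c ∧ t ∈ B)) ∧ S.rk u ≤ S.rk c := by
  obtain ⟨z, hz⟩ := S.vset c
  obtain ⟨u, hu⟩ := S.comp B z
  refine ⟨u, fun t => by rw [hu, hz], S.rk_le fun t ht => ?_⟩
  exact (hz t).1 ((hu t).1 ht).1

namespace Basic

theorem mem_plus {k : H → H} (h : S.Basic k) (A : Set H) (x : H) :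
    k x ∈ S.plus k A ↔ x ∈ A := by
  constructor
  · rintro ⟨z, w, h1, h2⟩
    exact ((h1 x).1 ((h.mem x w).2 h2)).2
  · intro hx
    obtain ⟨z, hz⟩ := S.exists_mem x
    obtain ⟨w, hw⟩ := S.comp A z
    exact ⟨z, w, hw, (h.mem x w).1 ((hw x).2 ⟨hz, hx⟩)⟩

theorem rklt {k : H → H} (h : S.Basic k) (x y : H) : S.rk x < S.rk y ↔ S.rk (k x) < S.rk (k y) := by
  rw [← not_le, ← not_le, h.rkle]

theorem mem_plus_of_lt {k : H → H} (h : S.Basic k) {c : H} (hc : S.Crit k c) (A : Set H) {x : H}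
    (hx : S.rk x < S.rk c) : x ∈ S.plus k A ↔ x ∈ A := by
  have := h.mem_plus A x
  rwa [hc.1 x hx] at this

theorem rk_le_map {k : H → H} {c : H} (hc : S.Crit k c) (x : H) : S.rk x ≤ S.rk (k x) := by
  rcases lt_or_ge (S.rk x) (S.rk c) with h1 | h1
  · rw [hc.1 x h1]
  · exact (hc.2 x h1).le

end Basic

/-- A chain of embeddings with increasing critical points. -/
structure Chain (S : RS.{v, w} H) (k : ℕ → H → H) (c : ℕ → H) : Prop where
  basic : ∀ i, S.Basic (k i)
  crit : ∀ i, S.Crit (k i) (c i)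
  lt : ∀ i, S.rk (c i) < S.rk (c (i + 1))

/-- The domain of the limit. -/
def dom (S : RS.{v, w} H) (c : ℕ → H) : Set H := {x | ∃ i, S.rk x < S.rk (c i)}

/-- The limit of the sets. -/
def lim (S : RS.{v, w} H) (c : ℕ → H) (A : ℕ → Set H) : Set H :=
  {x | ∃ i, S.rk x < S.rk (c i) ∧ x ∈ A i}

namespace Chain

variable {k : ℕ → H → H} {c : ℕ → H}

theorem mono (h : S.Chain k c) {i j : ℕ} (hij : i ≤ j) : S.rk (c i) ≤ S.rk (c j) := by
  induction hij with
  | refl => exact le_rfl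
  | step _ ih => exact ih.trans (h.lt _).le

theorem mono_lt (h : S.Chain k c) {i j : ℕ} (hij : i < j) : S.rk (c i) < S.rk (c j) :=
  (h.lt i).trans_le (h.mono hij)

theorem shift (h : S.Chain k c) (n : ℕ) : S.Chain (fun i => k (n + i)) (fun i => c (n + i)) where
  basic i := h.basic _
  crit i := h.crit _
  lt i := h.lt _

theorem dom_shift (h : S.Chain k c) (n : ℕ) : S.dom (fun i => c (n + i)) = S.dom c := by
  ext x
  constructor
  · rintro ⟨i, hi⟩
    exact ⟨_, hi⟩
  · rintro ⟨i, hi⟩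
    exact ⟨i, hi.trans_le (h.mono (by omega))⟩

theorem mem_succ (h : S.Chain k c) {A : ℕ → Set H} (hA : ∀ i, A i = S.plus (k i) (A (i + 1)))
    {i : ℕ} {x : H} (hx : S.rk x < S.rk (c i)) : x ∈ A i ↔ x ∈ A (i + 1) := by
  rw [hA i]
  exact (h.basic i).mem_plus_of_lt (h.crit i) _ hx

theorem mem_add (h : S.Chain k c) {A : ℕ → Set H} (hA : ∀ i, A i = S.plus (k i) (A (i + 1)))
    {i : ℕ} {x : H} (hx : S.rk x < S.rk (c i)) (n : ℕ) : x ∈ A i ↔ x ∈ A (i + n) := by
  induction n with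
  | zero => exact Iff.rfl
  | succ n ih =>
    rw [ih]
    exact h.mem_succ hA (hx.trans_le (h.mono (by omega)))

theorem mem_lim (h : S.Chain k c) {A : ℕ → Set H} (hA : ∀ i, A i = S.plus (k i) (A (i + 1)))
    {i : ℕ} {x : H} (hx : S.rk x < S.rk (c i)) : x ∈ S.lim c A ↔ x ∈ A i := by
  constructor
  · rintro ⟨j, hj1, hj2⟩
    rcases le_total i j with h1 | h1
    · obtain ⟨n, rfl⟩ := Nat.exists_eq_add_of_le h1
      exact (h.mem_add hA hx n).2 hj2
    · obtain ⟨n, rfl⟩ := Nat.exists_eq_add_of_le h1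
      exact (h.mem_add hA hj1 n).1 hj2
  · intro h1
    exact ⟨i, hx, h1⟩

theorem lim_shift (h : S.Chain k c) {A : ℕ → Set H} (hA : ∀ i, A i = S.plus (k i) (A (i + 1)))
    (n : ℕ) : S.lim (fun i => c (n + i)) (fun i => A (n + i)) = S.lim c A := by
  ext x
  constructor
  · rintro ⟨i, h1, h2⟩
    exact ⟨_, h1, h2⟩
  · rintro ⟨i, h1, h2⟩
    refine ⟨i, h1.trans_le (h.mono (by omega)), ?_⟩
    have := (h.mem_add hA h1 n).1 h2
    rwa [Nat.add_comm] at this

/-- Composition of consecutive maps. -/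
def J (k : ℕ → H → H) : ℕ → ℕ → H → H
  | _, 0, x => x
  | i, r + 1, x => k i (J k (i + 1) r x)

theorem J_mem (h : S.Chain k c) (i r : ℕ) (x y : H) : S.ε x y ↔ S.ε (J k i r x) (J k i r y) := by
  induction r generalizing i with
  | zero => exact Iff.rfl
  | succ r ih => exact (ih (i + 1)).trans ((h.basic i).mem _ _)

theorem J_rkle (h : S.Chain k c) (i r : ℕ) (x y : H) :
    S.rk x ≤ S.rk y ↔ S.rk (J k i r x) ≤ S.rk (J k i r y) := by
  induction r generalizing i with
  | zero => exact Iff.rfl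
  | succ r ih => exact (ih (i + 1)).trans ((h.basic i).rkle _ _)

theorem J_rklt (h : S.Chain k c) (i r : ℕ) (x y : H) :
    S.rk x < S.rk y ↔ S.rk (J k i r x) < S.rk (J k i r y) := by
  rw [← not_le, ← not_le, h.J_rkle i r]

theorem J_inter (h : S.Chain k c) (i r : ℕ) (u w w' : H)
    (hu : ∀ t, S.ε t u ↔ (S.ε t w ∧ S.ε t w')) :
    ∀ t, S.ε t (J k i r u) ↔ (S.ε t (J k i r w) ∧ S.ε t (J k i r w')) := by
  induction r generalizing i with
  | zero => exact hu
  | succ r ih => exact (h.basic i).inter _ _ _ (ih (i + 1))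

theorem J_vset (h : S.Chain k c) (i r : ℕ) (u e : H)
    (hu : ∀ t, S.ε t u ↔ S.rk t < S.rk e) :
    ∀ t, S.ε t (J k i r u) ↔ S.rk t < S.rk (J k i r e) := by
  induction r generalizing i with
  | zero => exact hu
  | succ r ih => exact (h.basic i).vset _ _ (ih (i + 1))

theorem J_subset (h : S.Chain k c) (i r : ℕ) (u w : H)
    (hu : ∀ t, S.ε t u → S.ε t w) (t : H) (ht : S.ε t (J k i r u)) : S.ε t (J k i r w) := by
  have := h.J_inter i r u u w (fun t => ⟨fun h => ⟨h, hu t h⟩, fun h => h.1⟩) t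
  exact (this.1 ht).2

theorem J_fix (h : S.Chain k c) (i r : ℕ) {x : H} (hx : S.rk x < S.rk (c i)) :
    J k i r x = x := by
  induction r generalizing i with
  | zero => rfl
  | succ r ih =>
    change k i (J k (i + 1) r x) = x
    rw [ih (i + 1) (hx.trans (h.lt i)), (h.crit i).1 x hx]

theorem J_add (k : ℕ → H → H) (i r s : ℕ) (x : H) :
    J k i (r + s) x = J k i r (J k (i + r) s x) := by
  induction r generalizing i with
  | zero => simp [J]
  | succ r ih =>
    rw [Nat.add_right_comm]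
    change k i (J k (i + 1) (r + s) x) = k i (J k (i + 1) r _)
    rw [ih (i + 1), Nat.add_right_comm i 1 r, Nat.add_assoc]

theorem J_stable (h : S.Chain k c) (i r s : ℕ) {x : H} (hx : S.rk x < S.rk (c (i + r))) :
    J k i (r + s) x = J k i r x := by
  rw [J_add, h.J_fix _ _ hx]

/-- The critical points seen from stage `i`. -/
def cr (k : ℕ → H → H) (c : ℕ → H) (i r : ℕ) : H := J k i r (c (i + r))

theorem cr_succ (k : ℕ → H → H) (c : ℕ → H) (i r : ℕ) :
    cr k c i (r + 1) = k i (cr k c (i + 1) r) := by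
  unfold cr
  rw [show i + (r + 1) = i + 1 + r by omega]
  rfl

theorem cr_lt (h : S.Chain k c) (i r : ℕ) : S.rk (cr k c i r) < S.rk (cr k c i (r + 1)) := by
  unfold cr
  rw [J_add]
  refine (h.J_rklt i r _ _).1 ?_
  change _ < S.rk (k (i + r) (c (i + r + 1)))
  exact (h.lt _).trans_le (Basic.rk_le_map (h.crit _) _)

theorem cr_mono (h : S.Chain k c) (i : ℕ) {r s : ℕ} (hrs : r ≤ s) :
    S.rk (cr k c i r) ≤ S.rk (cr k c i s) := by
  induction hrs with
  | refl => exact le_rfl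
  | step _ ih => exact ih.trans (h.cr_lt _ _).le

/-- `e` is the supremum of the critical points seen from stage `i`. -/
def Lub (S : RS.{v, w} H) (k : ℕ → H → H) (c : ℕ → H) (i : ℕ) (e : H) : Prop :=
  (∀ r, S.rk (cr k c i r) < S.rk e) ∧ ∀ y, S.rk y < S.rk e → ∃ r, S.rk y < S.rk (cr k c i r)

theorem Lub.cof (h : S.Chain k c) {i : ℕ} {e : H} (he : Lub S k c i e) :
    S.Cof {x | ∃ r, x = cr k c i r} e := by
  refine ⟨?_, ?_, ?_⟩
  · rintro x ⟨r, rfl⟩
    exact he.1 r
  · intro y hy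
    obtain ⟨r, hr⟩ := he.2 y hy
    exact ⟨_, ⟨r, rfl⟩, hr⟩
  · rintro Y hY ⟨y, hy⟩ ⟨b, hb, hb'⟩
    obtain ⟨r0, hr0⟩ := he.2 b hb
    have key : ∀ n : ℕ, ∀ r, cr k c i r ∈ Y → r0 - r ≤ n →
        ∃ m, m ∈ Y ∧ ∀ y ∈ Y, S.rk y ≤ S.rk m := by
      intro n
      induction n with
      | zero =>
        intro r hr hn
        exfalso
        have h1 := hb' _ hr
        have h2 := h.cr_mono i (show r0 ≤ r by omega)
        exact absurd (hr0.trans_le (h2.trans h1)) (lt_irrefl _)
      | succ n ih =>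
        intro r hr hn
        by_cases h1 : ∀ y ∈ Y, S.rk y ≤ S.rk (cr k c i r)
        · exact ⟨_, hr, h1⟩
        · push Not at h1
          obtain ⟨y', hy', h2⟩ := h1
          obtain ⟨r', rfl⟩ := hY y' hy'
          refine ih r' hy' ?_
          have h3 : r < r' := by
            by_contra h4
            exact absurd (h.cr_mono i (show r' ≤ r by omega)) (not_le.2 h2)
          have h4 : r < r0 := by
            by_contra h5
            have h1 := hb' _ hr
            have h2 := h.cr_mono i (show r0 ≤ r by omega)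
            exact absurd (hr0.trans_le (h2.trans h1)) (lt_irrefl _)
          omega
    obtain ⟨r, rfl⟩ := hY y hy
    exact key _ r hy le_rfl

theorem Lub.step (h : S.Chain k c) {i : ℕ} {e : H} (he : Lub S k c (i + 1) e) (y : H)
    (hy : S.rk y < S.rk (k i e)) : ∃ r, S.rk y < S.rk (cr k c i r) := by
  by_contra hno
  push Not at hno
  obtain ⟨_, _, h3⟩ := (h.basic i).cof _ _ (Lub.cof h he)
  obtain ⟨m, ⟨r, rfl⟩, hm⟩ := h3 {x | ∃ r, x = cr k c i (r + 1)} (by
    rintro x ⟨r, rfl⟩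
    rw [cr_succ]
    exact ((h.basic i).mem_plus _ _).2 ⟨r, rfl⟩) ⟨_, 0, rfl⟩ ⟨y, hy, by
    rintro x ⟨r, rfl⟩
    exact hno _⟩
  exact absurd (hm _ ⟨r + 1, rfl⟩) (not_le.2 (h.cr_lt _ _))

theorem exists_lub (h : S.Chain k c) {i : ℕ} {e : H} (he : ∀ r, S.rk (cr k c i r) < S.rk e) :
    ∃ e', Lub S k c i e' := by
  have hwf : ∃ o : Ordinal.{w}, (∀ r, S.rk (cr k c i r) < o) ∧
      ∀ o' : Ordinal.{w}, (∀ r, S.rk (cr k c i r) < o') → o ≤ o' := by
    have hne : {o : Ordinal.{w} | ∀ r, S.rk (cr k c i r) < o}.Nonempty := ⟨_, he⟩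
    exact ⟨sInf {o : Ordinal.{w} | ∀ r, S.rk (cr k c i r) < o}, csInf_mem hne,
      fun o' ho' => csInf_le' ho'⟩
  obtain ⟨o, ho1, ho2⟩ := hwf
  obtain ⟨e', he'⟩ := S.down o e (ho2 _ he)
  refine ⟨e', fun r => by rw [he']; exact ho1 r, fun y hy => ?_⟩
  rw [he'] at hy
  by_contra hno
  push Not at hno
  exact absurd (ho2 _ fun r => (h.cr_lt i r).trans_le (hno _)) (not_le.2 hy)

theorem no_lub (h : S.Chain k c) (o : Ordinal.{w}) : ∀ i e, S.rk e = o → ¬ Lub S k c i e := by
  induction o using WellFoundedLT.induction with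
  | ind o ih =>
    rintro i e rfl he
    obtain ⟨e', he'⟩ := h.exists_lub (i := i + 1) (e := e) (by
      intro r
      refine (Basic.rk_le_map (h.crit i) _).trans_lt ?_
      have h5 := he.1 (r + 1)
      rwa [cr_succ] at h5)
    refine ih _ ?_ (i + 1) e' rfl he'
    have h1 : S.rk e' < S.rk (k i e') := by
      refine (h.crit i).2 e' ?_
      exact ((h.lt i).trans (he'.1 0)).le
    refine h1.trans_le ?_
    by_contra hlt
    obtain ⟨r, hr⟩ := Lub.step h he' e (not_le.1 hlt)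
    exact absurd (hr.trans (he.1 r)) (lt_irrefl _)

/-- The critical points seen from stage `i` are unbounded. -/
theorem unbounded (h : S.Chain k c) (i : ℕ) (z : H) : ∃ r, S.rk z < S.rk (cr k c i r) := by
  by_contra hno
  push Not at hno
  obtain ⟨e', he'⟩ := h.exists_lub (i := i) (e := z) fun r => (h.cr_lt i r).trans_le (hno _)
  exact h.no_lub _ i e' rfl he'

/-- Lifting a subset of the limit domain. -/
def up (S : RS.{v, w} H) (k : ℕ → H → H) (c : ℕ → H) (B : Set H) (i : ℕ) : Set H :=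
  {y | ∃ r w, S.rk w < S.rk (c (i + r)) ∧ (∀ t, S.ε t w → t ∈ B) ∧ S.ε y (J k i r w)}

theorem mem_up (h : S.Chain k c) (B : Set H) {i : ℕ} {x : H} (hx : S.rk x < S.rk (c i)) :
    x ∈ up S k c B i ↔ x ∈ B := by
  constructor
  · rintro ⟨r, w, h1, h2, h3⟩
    rw [← h.J_fix i r hx, ← h.J_mem] at h3
    exact h2 _ h3
  · intro hxB
    obtain ⟨u, hu1, hu2⟩ := S.exists_part B (c i)
    refine ⟨1, u, hu2.trans_lt (h.lt i), fun t ht => ((hu1 t).1 ht).2, ?_⟩
    have h1 : S.ε (J k i 1 x) (J k i 1 u) := (h.J_mem i 1 x u).1 ((hu1 x).2 ⟨hx, hxB⟩)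
    rwa [h.J_fix i 1 hx] at h1

theorem plus_up (h : S.Chain k c) (B : Set H) (i : ℕ) :
    up S k c B i = S.plus (k i) (up S k c B (i + 1)) := by
  ext y
  constructor
  · rintro ⟨r, w, h1, h2, h3⟩
    cases r with
    | zero =>
      have hy : S.rk y < S.rk (c i) := (S.rk_lt h3).trans h1
      rw [(h.basic i).mem_plus_of_lt (h.crit i) _ hy, h.mem_up B (hy.trans (h.lt i))]
      exact h2 y h3
    | succ r =>
      refine ⟨J k (i + 1) r w, J k (i + 1) r w, fun t => ⟨fun ht => ⟨ht, r, w, ?_, h2, ht⟩,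
        fun ht => ht.1⟩, h3⟩
      rwa [show i + 1 + r = i + (r + 1) by omega]
  · rintro ⟨z, w, h1, h2⟩
    obtain ⟨r, hr⟩ := h.unbounded (i + 1) z
    obtain ⟨w0, hw0, hw0'⟩ := S.exists_part B (c (i + 1 + r))
    obtain ⟨u, hu, hu'⟩ := S.exists_vset (c (i + 1 + r))
    refine ⟨r + 2, w0, ?_, fun t ht => ((hw0 t).1 ht).2, ?_⟩
    · refine hw0'.trans_lt (h.mono_lt (by omega))
    change S.ε y (k i (J k (i + 1) (r + 1) w0))
    have key : ∀ t, S.ε t w → S.ε t (J k (i + 1) (r + 1) w0) := by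
      intro t ht
      obtain ⟨ht1, s, w', h3, h4, h5⟩ := (h1 t).1 ht
      have hu1 : S.ε t (J k (i + 1) (r + 1) u) := by
        refine (h.J_vset (i + 1) (r + 1) u (c (i + 1 + r)) hu t).2 ?_
        refine ((S.rk_lt ht1).trans hr).trans_le ?_
        rw [J_add k (i + 1) r 1]
        exact (h.J_rkle _ _ _ _).1 (Basic.rk_le_map (h.crit _) _)
      have hu2 : ∀ n, S.ε t (J k (i + 1) (r + 1 + n) u) := by
        intro n
        rw [h.J_stable (i + 1) (r + 1) n (hu'.trans_lt (h.mono_lt (by omega)))]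
        exact hu1
      have hw2 : ∀ n, S.ε t (J k (i + 1) (s + n) w') := by
        intro n
        rw [h.J_stable (i + 1) s n h3]
        exact h5
      obtain ⟨x, hx⟩ := S.comp {t | S.ε t u} w'
      have hx1 := h.J_inter (i + 1) (r + 1 + s) x w' u (fun t => hx t) t
      have hx2 : S.ε t (J k (i + 1) (r + 1 + s) x) := by
        refine hx1.2 ⟨?_, hu2 s⟩
        rw [Nat.add_comm (r + 1) s]
        exact hw2 _
      have hx3 := h.J_subset (i + 1) (r + 1 + s) x w0 (fun t ht => by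
        obtain ⟨h6, h7⟩ := (hx t).1 ht
        exact (hw0 t).2 ⟨(hu t).1 h7, h4 t h6⟩) t hx2
      rwa [h.J_stable (i + 1) (r + 1) s (hw0'.trans_lt (h.mono_lt (by omega)))] at hx3
    have h3 := (h.basic i).inter w w (J k (i + 1) (r + 1) w0)
      (fun t => ⟨fun ht => ⟨ht, key t ht⟩, fun ht => ht.1⟩) y
    exact (h3.1 h2).2

end Chain

/-- The single step used for the second-order quantifier. -/
theorem single_step {G : Set H → Prop} [Finite ι] {k : H → H} {c a : H}
    (hc : S.Crit k c) (hG : ∃ K, S.IsGr K k ∧ G K) (ha : S.rk a < S.rk c)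
    (hP : S.Pres k (fun v (W : Option (Bool × ι) → Set H) => S.SQ G v W))
    (W W' : ι → Set H) (hW : ∀ X, W X = S.plus k (W' X)) (B : Set H) :
    ∃ k' c', (∃ K, S.IsGr K k' ∧ G K) ∧ S.Crit k' c' ∧ S.rk a < S.rk c' ∧ S.rk c' < S.rk c ∧
      (∀ X, W X = S.plus k' (W' X)) ∧ ∃ B', B = S.plus k' B' := by
  obtain ⟨K0, hgr, hG⟩ := hG
  have h1 : S.SQ G (fun b => if b then c else a) (fun o => match o with
      | none => B
      | some (false, X) => W' X
      | some (true, X) => W X) := by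
    refine (hP _ _).2 ?_
    refine ⟨K0, ⟨(S.graph_iff _).2 ⟨k, hgr⟩, hG⟩, fun X => ?_, ⟨B, ?_⟩, ?_, c, ?_,
      (hgr.critK c).2 hc⟩
    · rw [hgr.plusEq]
      simp only
      rw [← hW]
    · rw [hgr.plusEq]
    · intro x hx
      simp only [Bool.false_eq_true, if_false] at hx
      rw [hc.1 a ha] at hx
      exact (hgr x x).2 (hc.1 x (hx.trans_lt ha)).symm
    · simp only [if_true]
      exact hc.2 c le_rfl
  obtain ⟨K, ⟨hK1, hK2⟩, hK3, ⟨B', hB'⟩, hK4, c', hc', hK5⟩ := h1
  obtain ⟨k', hk'⟩ := (S.graph_iff _).1 hK1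
  have hcr := (hk'.critK c').1 hK5
  refine ⟨k', c', ⟨K, hk', hK2⟩, hcr, ?_, ?_, ?_, B', ?_⟩
  · by_contra hno
    have h2 := (hk' _ _).1 (hK4 c' (by simpa using hno))
    have h3 := hcr.2 c' le_rfl
    rw [← h2] at h3
    exact lt_irrefl _ h3
  · simpa using hc'
  · intro X
    exact (hk'.plusEq _ _).1 (hK3 X)
  · exact (hk'.plusEq _ _).1 hB'

/-- The chain produced by the single steps. -/
theorem exists_chain_step {G : Set H → Prop} [Finite ι] {k : ℕ → H → H} {c : ℕ → H}
    (hGb : ∀ K, G K → S.basicK K)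
    (h : S.Chain k c) (hG : ∀ i, ∃ K, S.IsGr K (k i) ∧ G K)
    (hP : ∀ i, S.Pres (k i) (fun v (W : Option (Bool × ι) → Set H) => S.SQ G v W))
    (W : ℕ → ι → Set H) (hW : ∀ i X, W i X = S.plus (k i) (W (i + 1) X)) (B : Set H) :
    ∃ (k' : ℕ → H → H) (c' : ℕ → H) (B' : ℕ → Set H), B' 0 = B ∧ S.Chain k' c' ∧
      (∀ i, ∃ K, S.IsGr K (k' i) ∧ G K) ∧
      (∀ i, S.rk (c i) < S.rk (c' i)) ∧ (∀ i, S.rk (c' i) < S.rk (c (i + 1))) ∧
      (∀ i X, W (i + 1) X = S.plus (k' i) (W (i + 2) X)) ∧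
      ∀ i, B' i = S.plus (k' i) (B' (i + 1)) := by
  have step : ∀ (i : ℕ) (B : Set H), ∃ k' c', (∃ K, S.IsGr K k' ∧ G K) ∧ S.Crit k' c' ∧
      S.rk (c i) < S.rk c' ∧ S.rk c' < S.rk (c (i + 1)) ∧
      (∀ X, W (i + 1) X = S.plus k' (W (i + 2) X)) ∧ ∃ B', B = S.plus k' B' := fun i B =>
    single_step (h.crit (i + 1)) (hG (i + 1)) (h.lt i) (hP (i + 1)) _ _ (hW (i + 1)) B
  choose fk fc h1 h2 h3 h4 h5 fB hB using step
  let Bs : ℕ → Set H := fun n => Nat.rec B (fun i B => fB i B) n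
  have hBs : ∀ i, Bs (i + 1) = fB i (Bs i) := fun i => rfl
  refine ⟨fun i => fk i (Bs i), fun i => fc i (Bs i), Bs, rfl, ⟨fun i => ?_, fun i => h2 _ _,
    fun i => (h4 _ _).trans (h3 _ _)⟩, fun i => h1 _ _, fun i => h3 _ _, fun i => h4 _ _,
    fun i => h5 _ _, fun i => ?_⟩
  · obtain ⟨K, hK, hGK⟩ := h1 i (Bs i)
    exact hK.basic (hGb K hGK)
  · rw [hBs]
    exact hB _ _

/-- Inverse limit reflection. -/
theorem reflect (φ : MSO α ι) : ∀ [Finite α] [Finite ι] (k : ℕ → H → H) (c : ℕ → H)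
    (_ : S.Chain k c) (_ : ∀ i, ∃ K, S.IsGr K (k i) ∧ S.GK φ K)
    (W : ℕ → ι → Set H) (_ : ∀ i X, W i X = S.plus (k i) (W (i + 1) X)) (v : α → H)
    (_ : ∀ a, S.rk (v a) < S.rk (c 0)),
    φ.Realize S.ε (S.dom c) v (fun X => S.lim c (fun i => W i X)) ↔
      φ.Realize S.ε Set.univ v (W 0) := by
  induction φ with
  | falsum => intro _ _ k c h hG W hW v hv; exact Iff.rfl
  | eq x y => intro _ _ k c h hG W hW v hv; exact Iff.rfl
  | mem x y => intro _ _ k c h hG W hW v hv; exact Iff.rfl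
  | inn x X =>
    intro _ _ k c h hG W hW v hv
    exact h.mem_lim (fun i => hW i X) (hv x)
  | imp φ ψ h1 h2 =>
    intro _ _ k c h hG W hW v hv
    refine imp_congr (h1 k c h (fun i => ?_) W hW v hv) (h2 k c h (fun i => ?_) W hW v hv)
    · obtain ⟨K, hK, hK'⟩ := hG i
      exact ⟨K, hK, hK'.1⟩
    · obtain ⟨K, hK, hK'⟩ := hG i
      exact ⟨K, hK, hK'.2⟩
  | all φ ih =>
    intro _ _ k c h hG W hW v hv
    have hG' : ∀ i, ∃ K, S.IsGr K (k i) ∧ S.GK φ K := fun i => by
      obtain ⟨K, hK, hK'⟩ := hG i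
      exact ⟨K, hK, hK'.1⟩
    have hfix : ∀ i, (fun a => k i (v a)) = v := fun i => funext fun a =>
      (h.crit i).1 _ ((hv a).trans_le (h.mono (by omega)))
    have hstep : ∀ i, (MSO.all φ).Realize S.ε Set.univ v (W i) ↔
        (MSO.all φ).Realize S.ε Set.univ v (W 0) := by
      intro i
      induction i with
      | zero => exact Iff.rfl
      | succ i ihi =>
        rw [← ihi]
        obtain ⟨K, hK, hK'⟩ := hG i
        have := GK.pres hK hK' v (W (i + 1))
        rw [hfix i, ← funext (hW i)] at this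
        exact this
    have hsh : ∀ n x, S.rk x < S.rk (c n) →
        (φ.Realize S.ε (S.dom c) (cons v x) (fun X => S.lim c (fun i => W i X)) ↔
          φ.Realize S.ε Set.univ (cons v x) (W n)) := by
      intro n x hx
      have := ih (fun i => k (n + i)) (fun i => c (n + i)) (h.shift n) (fun i => hG' _)
        (fun i => W (n + i)) (fun i X => hW _ X) (cons v x) (by
          rintro (_ | a)
          · exact hx
          · exact (hv a).trans_le (h.mono (by omega)))
      rw [h.dom_shift n] at this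
      rw [← show (fun X => S.lim (fun i => c (n + i)) (fun i => W (n + i) X)) =
        (fun X => S.lim c (fun i => W i X)) from funext fun X =>
          h.lim_shift (A := fun i => W i X) (fun i => hW i X) n]
      exact this
    constructor
    · intro hD
      by_contra hno
      have hmin : ∀ i, ∃ x, (¬ φ.Realize S.ε Set.univ (cons v x) (W i)) ∧
          ∀ y, ¬ φ.Realize S.ε Set.univ (cons v y) (W i) → S.rk x ≤ S.rk y := by
        intro i
        rw [← hstep i] at hno
        have hex : ∃ x, ¬ φ.Realize S.ε Set.univ (cons v x) (W i) := by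
          by_contra h1
          push Not at h1
          exact hno fun x _ => h1 x
        obtain ⟨x, hx, hx'⟩ := WellFounded.has_min (InvImage.wf S.rk
          (wellFounded_lt (α := Ordinal.{w})))
          {x | ¬ φ.Realize S.ε Set.univ (cons v x) (W i)} hex
        exact ⟨x, hx, fun y hy => not_lt.1 (hx' y hy)⟩
      choose x hx1 hx2 using hmin
      have key : ∀ i, S.rk (c i) ≤ S.rk (x (i + 1)) → S.rk (x (i + 1)) < S.rk (x i) := by
        intro i hi
        obtain ⟨K, hK, hK'⟩ := hG i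
        have h3 := (hK.presK _).1 hK'.2.2 (cons v (x (i + 1))) (W (i + 1))
        have h4 := h3.1 ⟨hx1 (i + 1), fun y hy => hx2 (i + 1) y hy⟩
        have e1 : (fun a => k i (cons v (x (i + 1)) a)) = cons v (k i (x (i + 1))) := by
          funext a
          cases a with
          | none => rfl
          | some a => exact congrFun (hfix i) a
        have e2 : (fun X => S.plus (k i) (W (i + 1) X)) = W i := funext fun X => (hW i X).symm
        rw [e1, e2] at h4
        refine ((h.crit i).2 _ hi).trans_le ?_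
        exact h4.2 (x i) (hx1 i)
      have hex : ∃ i, S.rk (x (i + 1)) < S.rk (c i) := by
        by_contra h1
        push Not at h1
        exact not_strictAnti_of_wellFoundedLT (fun i => S.rk (x i))
          (strictAnti_nat_of_succ_lt fun i => key i (h1 i))
      obtain ⟨i, hi⟩ := hex
      have hi' := hi.trans (h.lt i)
      exact hx1 (i + 1) ((hsh (i + 1) (x (i + 1)) hi').1 (hD _ ⟨_, hi'⟩))
    · rintro hU x ⟨n, hn⟩
      exact (hsh n x hn).2 ((hstep n).2 hU x trivial)
  | allS φ ih =>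
    intro _ _ k c h hG W hW v hv
    have hG' : ∀ i, ∃ K, S.IsGr K (k i) ∧ S.GK φ K := fun i => by
      obtain ⟨K, hK, hK'⟩ := hG i
      exact ⟨K, hK, hK'.1⟩
    constructor
    · intro hD
      by_contra hno
      obtain ⟨K, hK, hK'⟩ := hG 0
      have hfix : (fun a => k 0 (v a)) = v := funext fun a => (h.crit 0).1 _ (hv a)
      have h1 := GK.pres hK hK' v (W 1)
      rw [hfix, ← funext (hW 0)] at h1
      replace hno := mt h1.1 hno
      have hex : ∃ B, ¬ φ.Realize S.ε Set.univ v (cons (W 1) B) := by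
        by_contra h1
        push Not at h1
        exact hno fun x => h1 x
      obtain ⟨B, hB⟩ := hex
      have hP : ∀ i, S.Pres (k i) (fun v (W : Option (Bool × _) → Set H) =>
          S.SQ (fun K' => S.GK φ K') v W) := fun i => by
        obtain ⟨K, hK, hK'⟩ := hG i
        exact (hK.presK _).1 hK'.2.2
      obtain ⟨k', c', B', hB0, h', hGK', hc1, hc2, hW', hB'⟩ :=
        exists_chain_step (fun K hK => GK.basic hK) h hG' hP W hW B
      have hih := ih k' c' h' hGK' (fun i => cons (W (i + 1)) (B' i)) (by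
        rintro i (_ | X)
        · exact hB' i
        · exact hW' i X) v (fun a => (hv a).trans (hc1 0))
      simp only [Nat.zero_add, hB0] at hih
      have hdom : S.dom c' = S.dom c := by
        ext x
        constructor
        · rintro ⟨i, hi⟩
          exact ⟨i + 1, hi.trans (hc2 i)⟩
        · rintro ⟨i, hi⟩
          exact ⟨i, hi.trans (hc1 i)⟩
      refine hB (hih.1 ?_)
      rw [hdom]
      have hlim : (fun X => S.lim c' (fun i => cons (W (i + 1)) (B' i) X)) =
          cons (fun X => S.lim c (fun i => W i X)) (S.lim c' B') := by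
        funext X
        cases X with
        | none => rfl
        | some X =>
          ext x
          constructor
          · rintro ⟨i, h3, h4⟩
            exact ⟨i + 1, h3.trans (hc2 i), h4⟩
          · rintro ⟨i, h3, h4⟩
            exact ⟨i, h3.trans (hc1 i), (h.mem_succ (A := fun i => W i X)
              (fun i => hW i X) h3).1 h4⟩
      rw [hlim]
      exact hD _
    · intro hU B
      have hih := ih k c h hG' (fun i => cons (W i) (Chain.up S k c B i)) (by
        rintro i (_ | X)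
        · exact h.plus_up B i
        · exact hW i X) v hv
      have h1 := hih.2 (hU _)
      have hvD : ∀ a, v a ∈ S.dom c := fun a => ⟨0, hv a⟩
      refine (MSO.realize_congr S.ε (S.dom c) φ v _ _ hvD ?_).1 h1
      rintro (_ | X) x ⟨i, hi⟩
      · change x ∈ S.lim c (Chain.up S k c B) ↔ x ∈ B
        rw [h.mem_lim (h.plus_up B) hi]
        exact h.mem_up B hi
      · exact Iff.rfl

variable (S)

/-- The statement reflected to build the first chain. -/
def SP (G : Set H → Prop) (v : Bool → H) (W : ι → Set H) : Prop :=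
  ∃ K, (S.Graph K ∧ G K) ∧ (∃ W' : ι → Set H, ∀ X, S.PlusEq K (W' X) (W X)) ∧
    (∀ x, S.rk x ≤ S.rk (v false) → S.pr x x ∈ K) ∧
    ∃ c, S.rk c < S.rk (v true) ∧ S.CritK K c

theorem md_SP [Finite ι] {G : Set H → Prop}
    (hG : MD S.ε (fun (_ : Empty → H) (W : Unit → Set H) => G (W ()))) :
    MD S.ε (fun v (W : ι → Set H) => S.SP G v W) := by
  refine MD.exS (Q := fun v W K => (S.Graph K ∧ G K) ∧
    (∃ W' : ι → Set H, ∀ X, S.PlusEq K (W' X) (W X)) ∧
    (∀ x, S.rk x ≤ S.rk (v false) → S.pr x x ∈ K) ∧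
    ∃ c, S.rk c < S.rk (v true) ∧ S.CritK K c) ?_
  refine ((S.md_graph none).and (hG.subst (fun e => e.elim) (fun _ => none))).and
    ((MD.exFamS (Q := fun v W W' => ∀ X, S.PlusEq (W none) (W' X) (W (some X)))
      (MD.finAll fun X => S.md_plusEq (Sum.inl none) (Sum.inr X) (Sum.inl (some X)))).and
      ((MD.all (Q := fun v x W => S.rk x ≤ S.rk (v false) → S.pr x x ∈ W none) ?_).and
      (MD.ex (Q := fun v c W => S.rk c < S.rk (v true) ∧ S.CritK (W none) c) ?_)))
  · exact (S.md_rkle none (some false)).imp (S.md_app none none none)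
  · exact (S.md_rklt none (some true)).and (S.md_critK none none)

variable {S}

/-- Reflection for a structure with an elementary embedding. -/
theorem reflect_of_elementary {j : H → H}
    (hj : ∀ {α ι : Type} [Finite α] [Finite ι] (Q : (α → H) → (ι → Set H) → Prop),
      MD S.ε Q → S.Pres j Q) {cs a0 : H} (hcs : S.Crit j cs) (ha0 : S.rk a0 < S.rk cs)
    [Finite α] [Finite ι] (φ : MSO α ι) (v : α → H) (hv : ∀ a, S.rk (v a) ≤ S.rk a0)
    (W : ι → Set H) (hφ : φ.Realize S.ε Set.univ v W) :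
    ∃ (c : ℕ → H) (W' : ι → Set H), (∀ i, S.rk (c i) < S.rk (c (i + 1))) ∧
      (∀ i, S.rk (c i) < S.rk cs) ∧ S.rk a0 < S.rk (c 0) ∧
      φ.Realize S.ε (S.dom c) v W' := by
  have hgr := S.isGr_gr j
  have hGj : S.GK φ (S.gr j) := GK_of_elementary hgr hj φ
  have step : ∀ (a : H) (W : ι → Set H), S.rk a < S.rk cs →
      ∃ (k : H → H) (c : H) (W' : ι → Set H), (∃ K, S.IsGr K k ∧ S.GK φ K) ∧ S.Crit k c ∧
        S.rk a < S.rk c ∧ S.rk c < S.rk cs ∧ ∀ X, W X = S.plus k (W' X) := by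
    intro a W ha
    have h1 : S.SP (fun K => S.GK φ K) (fun b => if b then cs else a) W := by
      refine (hj _ (S.md_SP (S.md_GK φ ())) _ _).2 ?_
      refine ⟨S.gr j, ⟨(S.graph_iff _).2 ⟨j, hgr⟩, hGj⟩, ⟨W, fun X => (hgr.plusEq _ _).2 rfl⟩,
        ?_, cs, ?_, (hgr.critK cs).2 hcs⟩
      · intro x hx
        simp only [Bool.false_eq_true, if_false] at hx
        rw [hcs.1 a ha] at hx
        exact (hgr x x).2 (hcs.1 x (hx.trans_lt ha)).symm
      · simp only [if_true]
        exact hcs.2 cs le_rfl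
    obtain ⟨K, ⟨hK1, hK2⟩, ⟨W', hW'⟩, hK4, c', hc', hK5⟩ := h1
    obtain ⟨k', hk'⟩ := (S.graph_iff _).1 hK1
    have hcr := (hk'.critK c').1 hK5
    refine ⟨k', c', W', ⟨K, hk', hK2⟩, hcr, ?_, ?_, ?_⟩
    · by_contra hno
      have h2 := (hk' _ _).1 (hK4 c' (by simpa using hno))
      have h3 := hcr.2 c' le_rfl
      rw [← h2] at h3
      exact lt_irrefl _ h3
    · simpa using hc'
    · intro X
      exact (hk'.plusEq _ _).1 (hW' X)
  choose! fk fc fW h1 h2 h3 h4 h5 using step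
  let st : ℕ → H × (ι → Set H) := fun n =>
    Nat.rec (a0, W) (fun _ p => (fc p.1 p.2, fW p.1 p.2)) n
  have hst : ∀ i, st (i + 1) = (fc (st i).1 (st i).2, fW (st i).1 (st i).2) := fun i => rfl
  have hlt : ∀ i, S.rk (st i).1 < S.rk cs := by
    intro i
    induction i with
    | zero => exact ha0
    | succ i ih => rw [hst]; exact h4 _ _ ih
  have hch : S.Chain (fun i => fk (st i).1 (st i).2) (fun i => (st (i + 1)).1) := by
    refine ⟨fun i => ?_, fun i => ?_, fun i => ?_⟩
    · obtain ⟨K, hK, hGK⟩ := h1 _ (st i).2 (hlt i)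
      exact hK.basic hGK.basic
    · rw [hst]
      exact h2 _ _ (hlt i)
    · rw [hst (i + 1)]
      exact h3 _ _ (hlt (i + 1))
  have hW : ∀ i X, (st i).2 X = S.plus (fk (st i).1 (st i).2) ((st (i + 1)).2 X) := by
    intro i X
    rw [hst]
    exact h5 _ _ (hlt i) X
  refine ⟨fun i => (st (i + 1)).1, _, hch.lt, fun i => hlt (i + 1), ?_,
    (reflect φ _ _ hch (fun i => h1 _ _ (hlt i)) (fun i => (st i).2) hW v ?_).2 hφ⟩
  · exact h3 _ _ ha0
  · intro a
    exact (hv a).trans_lt (h3 _ _ ha0)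

end RS

end SOCat
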