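import Mathlib.SetTheory.ZFC.VonNeumann
import Pool.Agent.Lib.MP_d7cc8a_lc.Reflect

/-! Limit stages of the cumulative hierarchy. -/

namespace SOCat

open Order

universe u

/-- The stage `V_o` as a type. -/
abbrev HV (o : Ordinal.{u}) : Type (u + 1) := {x : ZFSet.{u} // x ∈ ZFSet.vonNeumann o}

theorem rank_opair_lt {o : Ordinal.{u}} (ho : IsSuccLimit o) {a b : ZFSet.{u}}
    (ha : a.rank < o) (hb : b.rank < o) : (ZFSet.pair a b).rank < o := by
  have h1 : ({a} : ZFSet.{u}).rank < o := by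
    rw [ZFSet.rank_singleton]; exact ho.succ_lt ha
  have h2 : ({a, b} : ZFSet.{u}).rank < o := by
    rw [ZFSet.rank_pair]; exact max_lt (ho.succ_lt ha) (ho.succ_lt hb)
  change ({{a}, {a, b}} : ZFSet.{u}).rank < o
  rw [ZFSet.rank_pair]
  exact max_lt (ho.succ_lt h1) (ho.succ_lt h2)

variable {o : Ordinal.{u}}

theorem HV.mem_of_mem (x : HV o) {y : ZFSet.{u}} (h : y ∈ x.1) : y ∈ ZFSet.vonNeumann o :=
  (ZFSet.isTransitive_vonNeumann o).subset_of_mem x.2 h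

theorem HV.rank_lt (x : HV o) : x.1.rank < o := ZFSet.mem_vonNeumann.1 x.2

theorem HV.ext_mem {a b : HV o} (h : ∀ t : HV o, t.1 ∈ a.1 ↔ t.1 ∈ b.1) : a = b := by
  refine Subtype.ext (ZFSet.ext fun t => ⟨fun ht => ?_, fun ht => ?_⟩)
  · exact (h ⟨t, a.mem_of_mem ht⟩).1 ht
  · exact (h ⟨t, b.mem_of_mem ht⟩).2 ht

/-- The pair, as an element of `V_o`. -/
noncomputable def HV.pr (ho : IsSuccLimit o) (a b : HV o) : HV o :=
  ⟨ZFSet.pair a.1 b.1, ZFSet.mem_vonNeumann.2 (rank_opair_lt ho a.rank_lt b.rank_lt)⟩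

theorem HV.eq_pr (ho : IsSuccLimit o) (z a b : HV o) : z = HV.pr ho a b ↔
    ∀ t : HV o, t.1 ∈ z.1 ↔ ((∀ s : HV o, s.1 ∈ t.1 ↔ s = a) ∨
      (∀ s : HV o, s.1 ∈ t.1 ↔ (s = a ∨ s = b))) := by
  have h1 : ∀ t : HV o, (∀ s : HV o, s.1 ∈ t.1 ↔ s = a) ↔ t.1 = {a.1} := by
    intro t
    constructor
    · intro h
      ext s
      rw [ZFSet.mem_singleton]
      constructor
      · intro hs
        exact congrArg Subtype.val ((h ⟨s, t.mem_of_mem hs⟩).1 hs)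
      · rintro rfl
        exact (h a).2 rfl
    · intro h s
      rw [h, ZFSet.mem_singleton, Subtype.ext_iff]
  have h2 : ∀ t : HV o, (∀ s : HV o, s.1 ∈ t.1 ↔ (s = a ∨ s = b)) ↔ t.1 = {a.1, b.1} := by
    intro t
    constructor
    · intro h
      ext s
      rw [ZFSet.mem_pair]
      constructor
      · intro hs
        rcases (h ⟨s, t.mem_of_mem hs⟩).1 hs with h3 | h3
        · exact Or.inl (congrArg Subtype.val h3)
        · exact Or.inr (congrArg Subtype.val h3)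
      · rintro (rfl | rfl)
        · exact (h a).2 (Or.inl rfl)
        · exact (h b).2 (Or.inr rfl)
    · intro h s
      rw [h, ZFSet.mem_pair, Subtype.ext_iff, Subtype.ext_iff]
  have h3 : ∀ t : ZFSet.{u}, t ∈ (HV.pr ho a b).1 ↔ (t = {a.1} ∨ t = {a.1, b.1}) := by
    intro t
    change t ∈ ({{a.1}, {a.1, b.1}} : ZFSet.{u}) ↔ _
    rw [ZFSet.mem_pair]
  constructor
  · rintro rfl t
    rw [h1, h2, h3]
  · intro h
    refine HV.ext_mem fun t => ?_
    rw [h, h1, h2, h3]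

/-- The simulation relation expressing that `a` has rank at most the rank of `b`. -/
theorem HV.rank_le_iff_exists (ho : IsSuccLimit o) (a b : HV o) : a.1.rank ≤ b.1.rank ↔
    ∃ R : Set (HV o), HV.pr ho a b ∈ R ∧ ∀ x y : HV o, HV.pr ho x y ∈ R →
      ∀ t : HV o, t.1 ∈ x.1 → ∃ s : HV o, s.1 ∈ y.1 ∧ HV.pr ho t s ∈ R := by
  constructor
  · intro h
    refine ⟨{z | ∃ x y : HV o, z = HV.pr ho x y ∧ x.1.rank ≤ y.1.rank}, ⟨a, b, rfl, h⟩, ?_⟩
    rintro x y ⟨x', y', h1, h2⟩ t ht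
    obtain ⟨e1, e2⟩ := ZFSet.pair_injective (congrArg Subtype.val h1)
    have h3 := (ZFSet.rank_lt_of_mem ht).trans_le (e1 ▸ e2 ▸ h2)
    obtain ⟨s, hs, hs'⟩ := ZFSet.lt_rank_iff.1 h3
    exact ⟨⟨s, y.mem_of_mem hs⟩, hs, _, _, rfl, hs'⟩
  · rintro ⟨R, hR, hR'⟩
    have key : ∀ (r : Ordinal.{u}) (x y : HV o), x.1.rank = r → HV.pr ho x y ∈ R →
        x.1.rank ≤ y.1.rank := by
      intro r
      induction r using WellFoundedLT.induction with
      | ind r ih =>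
        rintro x y rfl hxy
        rw [ZFSet.rank_le_iff]
        intro t ht
        obtain ⟨s, hs, hs'⟩ := hR' x y hxy ⟨t, x.mem_of_mem ht⟩ ht
        exact (ih _ (ZFSet.rank_lt_of_mem ht) ⟨t, x.mem_of_mem ht⟩ s rfl hs').trans_lt
          (ZFSet.rank_lt_of_mem hs)
    exact key _ a b rfl hR

theorem HV.md_eqpr (ho : IsSuccLimit o) {α ι : Type} (a b z : α) :
    MD (fun x y : HV o => x.1 ∈ y.1) (fun v (_ : ι → Set (HV o)) =>
      v z = HV.pr ho (v a) (v b)) := by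
  refine MD.congr (Q := fun (v : α → HV o) (_ : ι → Set (HV o)) =>
    ∀ t : HV o, t.1 ∈ (v z).1 ↔ ((∀ s : HV o, s.1 ∈ t.1 ↔ s = v a) ∨
      (∀ s : HV o, s.1 ∈ t.1 ↔ (s = v a ∨ s = v b)))) ?_
      fun v W => (HV.eq_pr ho _ _ _).symm
  refine MD.all (Q := fun v t _ => t.1 ∈ (v z).1 ↔ ((∀ s : HV o, s.1 ∈ t.1 ↔ s = v a) ∨
      (∀ s : HV o, s.1 ∈ t.1 ↔ (s = v a ∨ s = v b)))) ?_
  refine (MD.mem none (some z)).iff (MD.or ?_ ?_)
  · refine MD.all (Q := fun (v : Option α → HV o) (s : HV o) (_ : ι → Set (HV o)) =>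
      s.1 ∈ (v none).1 ↔ s = v (some a)) ?_
    exact (MD.mem none (some none)).iff (MD.eq none (some (some a)))
  · refine MD.all (Q := fun (v : Option α → HV o) (s : HV o) (_ : ι → Set (HV o)) =>
      s.1 ∈ (v none).1 ↔ (s = v (some a) ∨ s = v (some b))) ?_
    exact (MD.mem none (some none)).iff ((MD.eq none (some (some a))).or
      (MD.eq none (some (some b))))

theorem HV.md_prmem (ho : IsSuccLimit o) {α ι : Type} (a b : α) (R : ι) :
    MD (fun x y : HV o => x.1 ∈ y.1) (fun v (W : ι → Set (HV o)) =>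
      HV.pr ho (v a) (v b) ∈ W R) := by
  refine MD.congr (Q := fun (v : α → HV o) (W : ι → Set (HV o)) =>
    ∃ z, z = HV.pr ho (v a) (v b) ∧ z ∈ W R) ?_ fun v W => by simp
  refine MD.ex (Q := fun v z W => z = HV.pr ho (v a) (v b) ∧ z ∈ W R) ?_
  exact (HV.md_eqpr ho (some a) (some b) none).and (MD.inn none R)

theorem HV.exists_comp (A : Set (HV o)) (z : HV o) :
    ∃ w : HV o, ∀ t : HV o, t.1 ∈ w.1 ↔ (t.1 ∈ z.1 ∧ t ∈ A) := by
  refine ⟨⟨ZFSet.sep (fun t => ∃ h, (⟨t, h⟩ : HV o) ∈ A) z.1,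
    ZFSet.mem_vonNeumann_of_subset (ZFSet.sep_subset) z.2⟩, fun t => ?_⟩
  rw [ZFSet.mem_sep]
  exact and_congr_right fun _ => ⟨fun ⟨_, h⟩ => h, fun h => ⟨t.2, h⟩⟩

/-- The ranked structure on a limit stage. -/
noncomputable def HV.rs (ho : IsSuccLimit o) : RS.{u + 1, u} (HV o) where
  ε a b := a.1 ∈ b.1
  rk a := a.1.rank
  ext _ _ h := HV.ext_mem h
  rk_lt h := ZFSet.rank_lt_of_mem h
  rk_le {a b} h := ZFSet.rank_le_iff.2 fun t ht => h ⟨t, a.mem_of_mem ht⟩ ht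
  comp := HV.exists_comp
  vset c := ⟨⟨ZFSet.vonNeumann c.1.rank, ZFSet.mem_vonNeumann.2 (by
    rw [ZFSet.rank_vonNeumann]; exact c.rank_lt)⟩, fun t => ZFSet.mem_vonNeumann⟩
  nomax x := ⟨⟨{x.1}, ZFSet.mem_vonNeumann.2 (by
    rw [ZFSet.rank_singleton]; exact ho.succ_lt x.rank_lt)⟩, by
      change x.1.rank < ({x.1} : ZFSet.{u}).rank
      rw [ZFSet.rank_singleton]
      exact Order.lt_succ _⟩
  down o' c h := ⟨⟨o'.toZFSet, ZFSet.mem_vonNeumann.2 (by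
    rw [Ordinal.rank_toZFSet]; exact h.trans_lt c.rank_lt)⟩, Ordinal.rank_toZFSet o'⟩
  pr := HV.pr ho
  pr_inj h := by
    obtain ⟨e1, e2⟩ := ZFSet.pair_injective (congrArg Subtype.val h)
    exact ⟨Subtype.ext e1, Subtype.ext e2⟩
  md_rk := by
    refine MD.congr (Q := fun (v : Bool → HV o) (_ : Empty → Set (HV o)) =>
      ∃ R : Set (HV o), HV.pr ho (v false) (v true) ∈ R ∧ ∀ x y : HV o, HV.pr ho x y ∈ R →
      ∀ t : HV o, t.1 ∈ x.1 → ∃ s : HV o, s.1 ∈ y.1 ∧ HV.pr ho t s ∈ R) ?_ ?_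
    · refine MD.exS (Q := fun v _ R => HV.pr ho (v false) (v true) ∈ R ∧
        ∀ x y : HV o, HV.pr ho x y ∈ R →
        ∀ t : HV o, t.1 ∈ x.1 → ∃ s : HV o, s.1 ∈ y.1 ∧ HV.pr ho t s ∈ R) ?_
      refine (HV.md_prmem ho false true none).and (MD.all (Q := fun _ x W =>
        ∀ y : HV o, HV.pr ho x y ∈ W none →
        ∀ t : HV o, t.1 ∈ x.1 → ∃ s : HV o, s.1 ∈ y.1 ∧ HV.pr ho t s ∈ W none) ?_)
      refine MD.all (Q := fun v y W => HV.pr ho (v none) y ∈ W none →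
        ∀ t : HV o, t.1 ∈ (v none).1 → ∃ s : HV o, s.1 ∈ y.1 ∧ HV.pr ho t s ∈ W none) ?_
      refine (HV.md_prmem ho (some none) none none).imp (MD.all (Q := fun v t W =>
        t.1 ∈ (v (some none)).1 → ∃ s : HV o, s.1 ∈ (v none).1 ∧ HV.pr ho t s ∈ W none) ?_)
      refine (MD.mem none (some (some none))).imp (MD.ex (Q := fun v s W =>
        s.1 ∈ (v (some none)).1 ∧ HV.pr ho (v none) s ∈ W none) ?_)
      exact (MD.mem none (some (some none))).and (HV.md_prmem ho (some none) none none)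
    · intro v W
      exact (HV.rank_le_iff_exists ho _ _).symm
  md_pr := HV.md_eqpr ho _ _ _

end SOCat
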