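import Pool.Agent.Lib.MP_d7cc8a_lc.Cases
import Pool.Agent.Lib.MP_d7cc8a_lc.Choice

/-! The critical sequence is cofinal in the levels on which the embedding acts. -/

namespace SOCat

open Order FirstOrder Language

universe u

variable {C : Set ZFSet.{u}} {o : Ordinal.{u}} {j : C ↪ₑ[memLang] C} {c : ℕ → C}

/-- `s` is a function from `I` to `Z`. -/
def Seq (s Z I : C) : Prop :=
  (∀ p : C, p.1 ∈ s.1 → ∃ i y : C, i.1 ∈ I.1 ∧ y.1 ∈ Z.1 ∧ p.1 = ZFSet.pair i.1 y.1) ∧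
  (∀ i : C, i.1 ∈ I.1 → ∃ y : C, PM i y s) ∧
  ∀ i y y' : C, PM i y s → PM i y' s → y = y'

theorem Big.fd_Seq (h : Big C o) {α : Type} (s Z I : α) :
    FD (fun v : α → C => Seq (v s) (v Z) (v I)) := by
  refine FD.and ?_ (FD.and ?_ ?_)
  · refine FD.all (Q := fun v p => p.1 ∈ (v s).1 → ∃ i y : C, i.1 ∈ (v I).1 ∧
      y.1 ∈ (v Z).1 ∧ p.1 = ZFSet.pair i.1 y.1) ?_
    refine (FD.mem none (some s)).imp (FD.ex (Q := fun (v : Option α → C) i => ∃ y : C,
      i.1 ∈ (v (some I)).1 ∧ y.1 ∈ (v (some Z)).1 ∧ (v none).1 = ZFSet.pair i.1 y.1) ?_)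
    refine FD.ex (Q := fun (v : Option (Option α) → C) y =>
      (v none).1 ∈ (v (some (some I))).1 ∧ y.1 ∈ (v (some (some Z))).1 ∧
        (v (some none)).1 = ZFSet.pair (v none).1 y.1) ?_
    exact (FD.mem (some none) (some (some (some I)))).and
      ((FD.mem none (some (some (some Z)))).and
      (h.fd_pair (some none) none (some (some none))))
  · refine FD.all (Q := fun v i => i.1 ∈ (v I).1 → ∃ y : C, PM i y (v s)) ?_
    refine (FD.mem none (some I)).imp (FD.ex (Q := fun (v : Option α → C) y =>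
      PM (v none) y (v (some s))) ?_)
    exact h.fd_PM (some none) none (some (some s))
  · refine FD.all (Q := fun v i => ∀ y y' : C, PM i y (v s) → PM i y' (v s) → y = y') ?_
    refine FD.all (Q := fun (v : Option α → C) y => ∀ y' : C,
      PM (v none) y (v (some s)) → PM (v none) y' (v (some s)) → y = y') ?_
    refine FD.all (Q := fun (v : Option (Option α) → C) y' =>
      PM (v (some none)) (v none) (v (some (some s))) →
      PM (v (some none)) y' (v (some (some s))) → v none = y') ?_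
    exact (h.fd_PM (some (some none)) (some none) (some (some (some s)))).imp
      ((h.fd_PM (some (some none)) none (some (some (some s)))).imp (FD.eq (some none) none))

/-- `f` is a function. -/
def E1 (f : C) : Prop := ∀ s γ γ' : C, PM s γ f → PM s γ' f → γ = γ'

theorem Big.fd_E1 (h : Big C o) {α : Type} (f : α) : FD (fun v : α → C => E1 (v f)) := by
  refine FD.all (Q := fun v s => ∀ γ γ' : C, PM s γ (v f) → PM s γ' (v f) → γ = γ') ?_
  refine FD.all (Q := fun (v : Option α → C) γ => ∀ γ' : C,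
    PM (v none) γ (v (some f)) → PM (v none) γ' (v (some f)) → γ = γ') ?_
  refine FD.all (Q := fun (v : Option (Option α) → C) γ' =>
    PM (v (some none)) (v none) (v (some (some f))) →
      PM (v (some none)) γ' (v (some (some f))) → v none = γ') ?_
  exact (h.fd_PM (some (some none)) (some none) (some (some (some f)))).imp
      ((h.fd_PM (some (some none)) none (some (some (some f)))).imp (FD.eq (some none) none))

/-- The function `f` takes all values on the sequences in the range of every injection. -/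
def E2 (f Z I : C) : Prop :=
  ∀ g : C, (∀ x : C, x.1 ∈ Z.1 → ∃ y : C, y.1 ∈ Z.1 ∧ PM x y g) →
    (∀ x x' y : C, x.1 ∈ Z.1 → x'.1 ∈ Z.1 → PM x y g → PM x' y g → x = x') →
    ∀ γ : C, γ.1 ∈ Z.1 → ∃ s : C, Seq s Z I ∧
      (∀ i y : C, PM i y s → ∃ x : C, x.1 ∈ Z.1 ∧ PM x y g) ∧ PM s γ f

theorem Big.fd_E2 (h : Big C o) {α : Type} (f Z I : α) :
    FD (fun v : α → C => E2 (v f) (v Z) (v I)) := by
  refine FD.all (Q := fun v g => (∀ x : C, x.1 ∈ (v Z).1 → ∃ y : C, y.1 ∈ (v Z).1 ∧ PM x y g) →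
    (∀ x x' y : C, x.1 ∈ (v Z).1 → x'.1 ∈ (v Z).1 → PM x y g → PM x' y g → x = x') →
    ∀ γ : C, γ.1 ∈ (v Z).1 → ∃ s : C, Seq s (v Z) (v I) ∧
      (∀ i y : C, PM i y s → ∃ x : C, x.1 ∈ (v Z).1 ∧ PM x y g) ∧ PM s γ (v f)) ?_
  refine FD.imp ?_ (FD.imp ?_ ?_)
  · refine FD.all (Q := fun (v : Option α → C) x => x.1 ∈ (v (some Z)).1 →
      ∃ y : C, y.1 ∈ (v (some Z)).1 ∧ PM x y (v none)) ?_
    refine (FD.mem none (some (some Z))).imp (FD.ex (Q := fun (v : Option (Option α) → C) y =>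
      y.1 ∈ (v (some (some Z))).1 ∧ PM (v none) y (v (some none))) ?_)
    exact (FD.mem none (some (some (some Z)))).and (h.fd_PM (some none) none (some (some none)))
  · refine FD.all (Q := fun (v : Option α → C) x => ∀ x' y : C, x.1 ∈ (v (some Z)).1 →
      x'.1 ∈ (v (some Z)).1 → PM x y (v none) → PM x' y (v none) → x = x') ?_
    refine FD.all (Q := fun (v : Option (Option α) → C) x' => ∀ y : C,
      (v none).1 ∈ (v (some (some Z))).1 → x'.1 ∈ (v (some (some Z))).1 →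
      PM (v none) y (v (some none)) → PM x' y (v (some none)) → v none = x') ?_
    refine FD.all (Q := fun (v : Option (Option (Option α)) → C) y =>
      (v (some none)).1 ∈ (v (some (some (some Z)))).1 →
      (v none).1 ∈ (v (some (some (some Z)))).1 →
      PM (v (some none)) y (v (some (some none))) →
      PM (v none) y (v (some (some none))) → v (some none) = v none) ?_
    exact (FD.mem (some (some none)) (some (some (some (some Z))))).imp
      ((FD.mem (some none) (some (some (some (some Z))))).imp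
      ((h.fd_PM (some (some none)) none (some (some (some none)))).imp
      ((h.fd_PM (some none) none (some (some (some none)))).imp
      (FD.eq (some (some none)) (some none)))))
  · refine FD.all (Q := fun (v : Option α → C) γ => γ.1 ∈ (v (some Z)).1 →
      ∃ s : C, Seq s (v (some Z)) (v (some I)) ∧
      (∀ i y : C, PM i y s → ∃ x : C, x.1 ∈ (v (some Z)).1 ∧ PM x y (v none)) ∧
      PM s γ (v (some f))) ?_
    refine (FD.mem none (some (some Z))).imp (FD.ex (Q := fun (v : Option (Option α) → C) s =>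
      Seq s (v (some (some Z))) (v (some (some I))) ∧
      (∀ i y : C, PM i y s → ∃ x : C, x.1 ∈ (v (some (some Z))).1 ∧ PM x y (v (some none))) ∧
      PM s (v none) (v (some (some f)))) ?_)
    refine (h.fd_Seq none (some (some (some Z))) (some (some (some I)))).and (FD.and ?_
      (h.fd_PM none (some none) (some (some (some f)))))
    refine FD.all (Q := fun (v : Option (Option (Option α)) → C) i => ∀ y : C,
      PM i y (v none) → ∃ x : C, x.1 ∈ (v (some (some (some Z)))).1 ∧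
      PM x y (v (some (some none)))) ?_
    refine FD.all (Q := fun (v : Option (Option (Option (Option α))) → C) y =>
      PM (v none) y (v (some none)) → ∃ x : C, x.1 ∈ (v (some (some (some (some Z))))).1 ∧
      PM x y (v (some (some (some none))))) ?_
    refine (h.fd_PM (some none) none (some (some none))).imp (FD.ex
      (Q := fun (v : Option (Option (Option (Option (Option α)))) → C) x =>
      x.1 ∈ (v (some (some (some (some (some Z)))))).1 ∧
      PM x (v none) (v (some (some (some (some none)))))) ?_)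
    exact (FD.mem none (some (some (some (some (some (some Z))))))).and
      (h.fd_PM none (some none) (some (some (some (some (some none))))))

theorem hv_infinite {θ : Ordinal.{u}} (hθ : Ordinal.omega0 ≤ θ) :
    Cardinal.aleph0 ≤ Cardinal.mk (HV θ) := by
  rw [← Cardinal.infinite_iff]
  refine Infinite.of_injective (fun n : ℕ => (⟨ZFSet.vonNeumann (n : Ordinal.{u}),
    ZFSet.mem_vonNeumann.2 (by
      rw [ZFSet.rank_vonNeumann]
      exact (Ordinal.natCast_lt_omega0 n).trans_le hθ)⟩ : HV θ)) ?_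
  intro m n hmn
  have h1 := ZFSet.vonNeumann_injective (congrArg Subtype.val hmn)
  exact_mod_cast h1

/-- The set coding a function. -/
noncomputable def codeF {θ ι' : Ordinal.{u}} (s : HV ι' → HV θ) : ZFSet.{u} :=
  ZFSet.sep (fun q => ∃ i : HV ι', q = ZFSet.pair i.1 (s i).1) (ZFSet.vonNeumann θ)

theorem mem_codeF {θ ι' : Ordinal.{u}} (hθ : IsSuccLimit θ) (hι : ι' ≤ θ) (s : HV ι' → HV θ)
    (q : ZFSet.{u}) : q ∈ codeF s ↔ ∃ i : HV ι', q = ZFSet.pair i.1 (s i).1 := by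
  unfold codeF
  rw [ZFSet.mem_sep]
  constructor
  · exact fun h => h.2
  · rintro ⟨i, rfl⟩
    exact ⟨ZFSet.mem_vonNeumann.2 (rank_opair_lt hθ (i.rank_lt.trans_le hι) (s i).rank_lt),
      i, rfl⟩

theorem codeF_inj {θ ι' : Ordinal.{u}} (hθ : IsSuccLimit θ) (hι : ι' ≤ θ)
    {s s' : HV ι' → HV θ} (h : codeF s = codeF s') : s = s' := by
  funext i
  have h1 := (mem_codeF hθ hι s (ZFSet.pair i.1 (s i).1)).2 ⟨i, rfl⟩
  rw [h, mem_codeF hθ hι] at h1
  obtain ⟨i', hi'⟩ := h1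
  obtain ⟨e1, e2⟩ := ZFSet.pair_injective hi'
  have e3 : i = i' := Subtype.ext e1
  subst e3
  exact Subtype.ext e2

theorem exists_E (h : Big C o) {θ : Ordinal.{u}} (hθo : θ < o) (hθ : IsSuccLimit θ)
    (hω : Ordinal.omega0 ≤ θ) (ρ : ℕ → Ordinal.{u}) (hρ : ∀ n, ρ n < θ)
    (hcof : ∀ ξ < θ, ∃ n, ξ < ρ n) (Z I : C) (hZ : Z.1 = ZFSet.vonNeumann θ)
    (hI : I.1 = ZFSet.vonNeumann Ordinal.omega0) : ∃ f : C, E1 f ∧ E2 f Z I := by
  obtain ⟨F, hF1, hF2⟩ := exists_jonsson (I := HV Ordinal.omega0.{u}) (Z := HV θ)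
    (hv_infinite hω) (hv_infinite le_rfl) (by
      refine ⟨fun A n => ⟨ZFSet.sep (fun t => ∃ h, (⟨t, h⟩ : HV θ) ∈ A)
        (ZFSet.vonNeumann (ρ n)), ZFSet.mem_vonNeumann.2 ?_⟩, ?_⟩
      · refine lt_of_le_of_lt ?_ (hρ n)
        rw [← ZFSet.subset_vonNeumann]
        exact ZFSet.sep_subset
      · intro A A' hAA
        have key : ∀ (A : Set (HV θ)) (x : HV θ) (n : ℕ), x.1.rank < ρ n →
            (x.1 ∈ ZFSet.sep (fun t => ∃ h, (⟨t, h⟩ : HV θ) ∈ A) (ZFSet.vonNeumann (ρ n)) ↔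
              x ∈ A) := by
          intro A x n hn
          rw [ZFSet.mem_sep]
          exact ⟨fun ⟨_, _, h⟩ => h, fun h => ⟨ZFSet.mem_vonNeumann.2 hn, x.2, h⟩⟩
        ext x
        obtain ⟨n, hn⟩ := hcof _ x.rank_lt
        rw [← key A x n hn, ← key A' x n hn]
        have h1 := congrArg Subtype.val (congrFun hAA n)
        simp only at h1
        rw [h1])
  have hpair : ∀ p : {g : HV θ → HV θ // Function.Injective g} × HV θ,
      (ZFSet.pair (codeF (F p)) p.2.1).rank < o := by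
    intro p
    refine rank_opair_lt h.lim ?_ (p.2.rank_lt.trans hθo)
    refine lt_of_le_of_lt ?_ hθo
    rw [← ZFSet.subset_vonNeumann]
    exact ZFSet.sep_subset
  have hs : ZFSet.sep (fun q => ∃ p : {g : HV θ → HV θ // Function.Injective g} × HV θ,
      q = ZFSet.pair (codeF (F p)) p.2.1) (ZFSet.vonNeumann o) ∈ C := h.sub _ ZFSet.sep_subset
  obtain ⟨f, hf⟩ : ∃ f : C, ∀ s γ : C, PM s γ f ↔
      ∃ p : {g : HV θ → HV θ // Function.Injective g} × HV θ,
        s.1 = codeF (F p) ∧ γ.1 = p.2.1 := by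
    refine ⟨⟨_, hs⟩, fun s γ => ?_⟩
    unfold PM
    simp only [ZFSet.mem_sep]
    constructor
    · rintro ⟨_, p, hp⟩
      obtain ⟨e1, e2⟩ := ZFSet.pair_injective hp
      exact ⟨p, e1, e2⟩
    · rintro ⟨p, e1, e2⟩
      rw [e1, e2]
      exact ⟨ZFSet.mem_vonNeumann.2 (hpair p), p, rfl⟩
  have hmemZ : ∀ x : ZFSet.{u}, x ∈ Z.1 ↔ x ∈ ZFSet.vonNeumann θ := fun x => by rw [hZ]
  have hmemI : ∀ x : ZFSet.{u}, x ∈ I.1 ↔ x ∈ ZFSet.vonNeumann Ordinal.omega0 :=
    fun x => by rw [hI]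
  have hCZ : ∀ x : ZFSet.{u}, x ∈ ZFSet.vonNeumann θ → x ∈ C := fun x hx =>
    h.mem_of_rank ((ZFSet.mem_vonNeumann.1 hx).le.trans hθo.le)
  refine ⟨f, ?_, ?_⟩
  · intro s γ γ' h1 h2
    obtain ⟨p, e1, e2⟩ := (hf _ _).1 h1
    obtain ⟨p', e1', e2'⟩ := (hf _ _).1 h2
    have e3 := hF1 (codeF_inj hθ hω (e1.symm.trans e1'))
    subst e3
    exact Subtype.ext (e2.trans e2'.symm)
  · intro g hg1 hg2 γ hγ
    have hex : ∀ x : HV θ, ∃ y : HV θ, ZFSet.pair x.1 y.1 ∈ g.1 := by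
      intro x
      obtain ⟨y, hy1, hy2⟩ := hg1 ⟨x.1, hCZ _ x.2⟩ ((hmemZ _).2 x.2)
      exact ⟨⟨y.1, (hmemZ _).1 hy1⟩, hy2⟩
    choose g' hg' using hex
    have hinj : Function.Injective g' := by
      intro x x' hxx
      have h1 := hg2 ⟨x.1, hCZ _ x.2⟩ ⟨x'.1, hCZ _ x'.2⟩ ⟨(g' x).1, hCZ _ (g' x).2⟩
        ((hmemZ _).2 x.2) ((hmemZ _).2 x'.2) (hg' x) (by rw [hxx]; exact hg' x')
      exact Subtype.ext (congrArg (fun x : C => x.1) h1)
    let p : {g : HV θ → HV θ // Function.Injective g} × HV θ :=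
      (⟨g', hinj⟩, ⟨γ.1, (hmemZ _).1 hγ⟩)
    have hcode : codeF (F p) ∈ C := h.mem_of_rank (by
      refine le_trans ?_ hθo.le
      rw [← ZFSet.subset_vonNeumann]
      exact ZFSet.sep_subset)
    have hPM : ∀ i y : C, PM i y ⟨_, hcode⟩ ↔ ∃ i' : HV Ordinal.omega0.{u},
        i.1 = i'.1 ∧ y.1 = (F p i').1 := by
      intro i y
      unfold PM
      rw [mem_codeF hθ hω]
      constructor
      · rintro ⟨i', hi'⟩
        obtain ⟨e1, e2⟩ := ZFSet.pair_injective hi'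
        exact ⟨i', e1, e2⟩
      · rintro ⟨i', e1, e2⟩
        exact ⟨i', by rw [e1, e2]⟩
    refine ⟨⟨_, hcode⟩, ⟨?_, ?_, ?_⟩, ?_, ?_⟩
    · intro q hq
      obtain ⟨i', hi'⟩ := (mem_codeF hθ hω _ _).1 hq
      refine ⟨⟨i'.1, h.mem_of_rank (i'.rank_lt.le.trans (hω.trans hθo.le))⟩,
        ⟨(F p i').1, hCZ _ (F p i').2⟩, (hmemI _).2 i'.2, (hmemZ _).2 (F p i').2, hi'⟩
    · intro i hi
      let i' : HV Ordinal.omega0.{u} := ⟨i.1, (hmemI _).1 hi⟩
      exact ⟨⟨(F p i').1, hCZ _ (F p i').2⟩, (hPM _ _).2 ⟨i', rfl, rfl⟩⟩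
    · intro i y y' h1 h2
      obtain ⟨i1, e1, e2⟩ := (hPM _ _).1 h1
      obtain ⟨i2, e3, e4⟩ := (hPM _ _).1 h2
      have e5 : i1 = i2 := Subtype.ext (e1.symm.trans e3)
      subst e5
      exact Subtype.ext (e2.trans e4.symm)
    · intro i y h1
      obtain ⟨i1, e1, e2⟩ := (hPM _ _).1 h1
      obtain ⟨x, hx⟩ := hF2 p i1
      refine ⟨⟨x.1, hCZ _ x.2⟩, (hmemZ _).2 x.2, ?_⟩
      unfold PM
      rw [e2, hx]
      exact hg' x
    · exact (hf _ _).2 ⟨p, rfl, rfl⟩

theorem Crt.kunen (h : Crt C o j c) (hall : ∀ n, (c n).1.rank < o) {θ : Ordinal.{u}}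
    (hθo : θ < o) (hlt : ∀ n, (c n).1.rank < θ) (hsup : ∀ ξ < θ, ∃ n, ξ ≤ (c n).1.rank) :
    False := by
  have hsup' : ∀ ξ < θ, ∃ n, ξ < (c n).1.rank := by
    intro ξ hξ
    obtain ⟨n, hn⟩ := hsup ξ hξ
    exact ⟨n + 1, hn.trans_lt (h.lt (hall n))⟩
  have hθ : IsSuccLimit θ := isSuccLimit_of (zero_le.trans_lt (hlt 0)) fun ξ hξ => by
    obtain ⟨n, hn⟩ := hsup' ξ hξ
    exact ⟨_, hlt n, hn⟩
  have hω0 := h.omega_le
  have hω : Ordinal.omega0 ≤ θ := hω0.trans (hlt 0).le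
  have hZC : ZFSet.vonNeumann θ ∈ C := h.big.mem_of_rank (by
    rw [ZFSet.rank_vonNeumann]; exact hθo.le)
  have hIC : ZFSet.vonNeumann Ordinal.omega0 ∈ C := h.big.mem_of_rank (by
    rw [ZFSet.rank_vonNeumann]; exact hω.trans hθo.le)
  obtain ⟨Z, hZ⟩ : ∃ Z : C, Z.1 = ZFSet.vonNeumann θ := ⟨⟨_, hZC⟩, rfl⟩
  obtain ⟨I, hI⟩ : ∃ I : C, I.1 = ZFSet.vonNeumann Ordinal.omega0 := ⟨⟨_, hIC⟩, rfl⟩
  have hjZ : j Z = Z := h.fix_sup hall hθo.le hlt hsup Z hZ
  have hVn : ∀ n : ℕ, ZFSet.vonNeumann (n : Ordinal.{u}) ∈ C := fun n =>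
    h.big.mem_of_rank (by
      rw [ZFSet.rank_vonNeumann]
      exact (Ordinal.natCast_lt_omega0 n).le.trans (hω.trans hθo.le))
  have hjI : j I = I := by
    refine h.big.cofV j (hω.trans hθo.le) (fun n => ⟨_, hVn n⟩) ?_ ?_ ?_ I hI
    · intro n
      simp only [ZFSet.rank_vonNeumann]
      exact_mod_cast Nat.lt_succ_self n
    · intro n
      rw [h.fix_vset n ⟨_, hVn n⟩ rfl ((Ordinal.natCast_lt_omega0 n).le.trans (hω.trans hθo.le))]
      simp only [ZFSet.rank_vonNeumann]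
      exact Ordinal.natCast_lt_omega0 n
    · intro ξ hξ
      obtain ⟨n, rfl⟩ := Ordinal.lt_omega0.1 hξ
      exact ⟨n, by simp only [ZFSet.rank_vonNeumann]; exact le_rfl⟩
  have hfixI : ∀ i : C, i.1 ∈ I.1 → j i = i := by
    intro i hi
    rw [hI, ZFSet.mem_vonNeumann] at hi
    exact h.fix i (hi.trans_le hω0)
  obtain ⟨f, hf1, hf2⟩ := exists_E h.big hθo hθ hω (fun n => (c n).1.rank) hlt hsup' Z I hZ hI
  have hf1' : E1 (j f) := ((h.big.fd_E1 ()).pres j (fun _ => f)).1 hf1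
  have hf2' : E2 (j f) Z I := by
    have := ((h.big.fd_E2 (some false) (some true) none).pres j
      (cons (fun b => if b then Z else f) I)).1 hf2
    simp only [cons_none, cons_some, Bool.false_eq_true, if_false, if_true] at this
    rwa [hjZ, hjI] at this
  have hZo : ∀ {x : ZFSet.{u}}, x ∈ Z.1 → x.rank < θ := fun {x} hx => by
    rwa [hZ, ZFSet.mem_vonNeumann] at hx
  have hpairZ : ∀ {a b : ZFSet.{u}}, a.rank < θ → b.rank < θ → ZFSet.pair a b ∈
      ZFSet.vonNeumann θ := fun ha hb => ZFSet.mem_vonNeumann.2 (rank_opair_lt hθ ha hb)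
  have hsubθ : ∀ x : ZFSet.{u}, x ⊆ ZFSet.vonNeumann θ → x ∈ C := fun x hx =>
    h.big.sub x fun t ht => ZFSet.vonNeumann_subset_of_le hθo.le (hx ht)
  have hjmem : ∀ x : C, x.1 ∈ Z.1 → (j x).1 ∈ Z.1 := by
    intro x hx
    rw [emb_mem j, hjZ] at hx
    exact hx
  obtain ⟨g, hg⟩ : ∃ g : C, ∀ x y : C, PM x y g ↔ (x.1 ∈ Z.1 ∧ y = j x) := by
    refine ⟨⟨ZFSet.sep (fun q => ∃ x : C, x.1 ∈ Z.1 ∧ q = ZFSet.pair x.1 (j x).1)
      (ZFSet.vonNeumann θ), hsubθ _ ZFSet.sep_subset⟩, fun x y => ?_⟩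
    unfold PM
    simp only [ZFSet.mem_sep]
    constructor
    · rintro ⟨_, x', hx', he⟩
      obtain ⟨e1, e2⟩ := ZFSet.pair_injective he
      have e3 : x = x' := Subtype.ext e1
      subst e3
      exact ⟨hx', Subtype.ext e2⟩
    · rintro ⟨hx, rfl⟩
      exact ⟨hpairZ (hZo hx) (hZo (hjmem x hx)), x, hx, rfl⟩
  have hc0Z : (c 0).1 ∈ Z.1 := by
    rw [hZ, ZFSet.mem_vonNeumann]
    exact hlt 0
  obtain ⟨s, ⟨hs1, hs2, hs3⟩, hs4, hs5⟩ := hf2' g
    (fun x hx => ⟨j x, hjmem x hx, (hg _ _).2 ⟨hx, rfl⟩⟩)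
    (fun x x' y _ _ h1 h2 => emb_inj j (((hg _ _).1 h1).2.symm.trans ((hg _ _).1 h2).2))
    (c 0) hc0Z
  have hs4' : ∀ i y : C, PM i y s → ∃ x : C, x.1 ∈ Z.1 ∧ y = j x := by
    intro i y hiy
    obtain ⟨x, hx1, hx2⟩ := hs4 i y hiy
    exact ⟨x, hx1, ((hg _ _).1 hx2).2⟩
  obtain ⟨t, ht0, ht⟩ : ∃ t : C, (∀ q : C, q.1 ∈ t.1 → ∃ i x : C, i.1 ∈ I.1 ∧ x.1 ∈ Z.1 ∧
      q.1 = ZFSet.pair i.1 x.1) ∧ ∀ i x : C, PM i x t ↔
      (i.1 ∈ I.1 ∧ x.1 ∈ Z.1 ∧ PM i (j x) s) := by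
    refine ⟨⟨ZFSet.sep (fun q => ∃ i x : C, i.1 ∈ I.1 ∧ x.1 ∈ Z.1 ∧ q = ZFSet.pair i.1 x.1 ∧
      PM i (j x) s) (ZFSet.vonNeumann θ), hsubθ _ ZFSet.sep_subset⟩, ?_, fun i x => ?_⟩
    · intro q hq
      simp only [ZFSet.mem_sep] at hq
      obtain ⟨_, i, x, h1, h2, h3, _⟩ := hq
      exact ⟨i, x, h1, h2, h3⟩
    · have hPMdef : ∀ t : C, PM i x t ↔ ZFSet.pair i.1 x.1 ∈ t.1 := fun t => Iff.rfl
      rw [hPMdef]
      simp only [ZFSet.mem_sep]
      constructor
      · rintro ⟨_, i', x', h1, h2, h3, h4⟩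
        obtain ⟨e1, e2⟩ := ZFSet.pair_injective h3
        have e3 : i = i' := Subtype.ext e1
        have e4 : x = x' := Subtype.ext e2
        subst e3
        subst e4
        exact ⟨h1, h2, h4⟩
      · rintro ⟨h1, h2, h3⟩
        refine ⟨hpairZ ?_ (hZo h2), i, x, h1, h2, rfl, h3⟩
        rw [hI, ZFSet.mem_vonNeumann] at h1
        exact h1.trans_le hω
  have htSeq : Seq t Z I := by
    refine ⟨ht0, ?_, ?_⟩
    · intro i hi
      obtain ⟨y, hy⟩ := hs2 i hi
      obtain ⟨x, hx, rfl⟩ := hs4' i y hy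
      exact ⟨x, (ht _ _).2 ⟨hi, hx, hy⟩⟩
    · intro i x x' h1 h2
      exact emb_inj j (hs3 i _ _ ((ht _ _).1 h1).2.2 ((ht _ _).1 h2).2.2)
  obtain ⟨hj1, hj2, hj3⟩ : Seq (j t) Z I := by
    have := ((h.big.fd_Seq (some false) (some true) none).pres j
      (cons (fun b => if b then Z else t) I)).1 htSeq
    simp only [cons_none, cons_some, Bool.false_eq_true, if_false, if_true] at this
    rwa [hjZ, hjI] at this
  have hPMj : ∀ i x : C, PM i x t → PM i (j x) (j t) := by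
    intro i x hix
    have h1 := (h.big.emb_PM j i x t).1 hix
    rwa [hfixI i ((ht _ _).1 hix).1] at h1
  have hst : j t = s := by
    refine h.big.ext fun q => ⟨fun hq => ?_, fun hq => ?_⟩
    · obtain ⟨i, y, hi, hy, hqe⟩ := hj1 q hq
      have hPy : PM i y (j t) := by
        unfold PM
        rw [← hqe]
        exact hq
      obtain ⟨x, hx⟩ := htSeq.2.1 i hi
      have e1 := hj3 i y (j x) hPy (hPMj i x hx)
      have h2 := ((ht _ _).1 hx).2.2
      rw [← e1] at h2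
      unfold PM at h2
      rwa [← hqe] at h2
    · obtain ⟨i, y, hi, hy, hqe⟩ := hs1 q hq
      have hPy : PM i y s := by
        unfold PM
        rw [← hqe]
        exact hq
      obtain ⟨x, hx, rfl⟩ := hs4' i y hPy
      have h2 := hPMj i x ((ht _ _).2 ⟨hi, hx, hPy⟩)
      unfold PM at h2
      rwa [← hqe] at h2
  rw [← hst] at hs5
  obtain ⟨γ, hγ⟩ : ∃ γ : C, PM t γ f := by
    have := (FD.ex (Q := fun (v : Bool → C) γ => PM (v false) γ (v true))
      (h.big.fd_PM (some false) none (some true))).pres j (fun b => if b then f else t)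
    simp only [Bool.false_eq_true, if_false, if_true] at this
    exact this.2 ⟨_, hs5⟩
  have hjγ : j γ = c 0 := hf1' _ _ _ ((h.big.emb_PM j t γ f).1 hγ) hs5
  have hr : γ.1.rank ≤ (c 0).1.rank := by
    have := h.big.rank_le_emb j γ
    rwa [hjγ] at this
  rcases lt_or_eq_of_le hr with h1 | h1
  · have h2 := h.fix γ h1
    rw [hjγ] at h2
    rw [← h2] at h1
    exact lt_irrefl _ h1
  · have h2 := h.growth (n := 0) (x := γ) (h1.trans_lt (hall 0)) h1.ge
    rw [hjγ] at h2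
    exact absurd h.lt0 (not_lt.2 h2)

/-- Reflection for monadic second-order formulas. -/
theorem mso_reflect (h : Big C o) (j : C ↪ₑ[memLang] C) (hm : ∃ x : C, x.1.rank < o ∧ j x ≠ x)
    {ι : Type} [Finite ι] (φ : MSO Empty ι) (W : ι → Set (HV o))
    (hφ : φ.Realize EV (DV o) (fun x => x.elim) W) : Refl o φ := by
  classical
  obtain ⟨c, hc⟩ := exists_crt j h hm
  by_cases hall : ∀ n, (c n).1.rank < o
  · by_cases hsup : ∀ ξ < o, ∃ n, ξ ≤ (c n).1.rank
    · exact hc.caseA hall hsup φ W hφ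
    · push Not at hsup
      obtain ⟨ξ, hξ, hξ'⟩ := hsup
      exfalso
      have hlt : ∀ n, (c n).1.rank < ⨆ n, (c n).1.rank := fun n => by
        rw [Ordinal.lt_iSup_iff]
        exact ⟨n + 1, hc.lt (hall n)⟩
      refine hc.kunen hall (θ := ⨆ n, (c n).1.rank) ?_ hlt ?_
      · exact lt_of_le_of_lt (Ordinal.iSup_le fun n => (hξ' n).le) hξ
      · intro ζ hζ
        rw [Ordinal.lt_iSup_iff] at hζ
        obtain ⟨n, hn⟩ := hζ
        exact ⟨n, hn.le⟩
  · push Not at hall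
    obtain ⟨m, hm'⟩ : ∃ m, Nat.find hall = m + 1 := by
      refine Nat.exists_eq_succ_of_ne_zero fun h1 => ?_
      have h2 := Nat.find_spec hall
      rw [h1] at h2
      exact absurd hc.lto (not_lt.2 h2)
    have h2 := Nat.find_spec hall
    rw [hm'] at h2
    exact hc.caseB (n := m) (not_le.1 (Nat.find_min hall (m := m) (by omega))) h2 φ W hφ

end SOCat
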